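import Mathlib

/-!
# Second moments for product densities
-/

set_option autoImplicit false

namespace Pool.Agent.Y506.KS

open MeasureTheory Finset
open scoped ENNReal

variable {ι : Type} [Fintype ι] [DecidableEq ι] {X : ι → Type} [∀ i, MeasurableSpace (X i)]

theorem base_eq (μ : ∀ i, Measure (X i)) [∀ i, SigmaFinite (μ i)] (φ ψ : ∀ i, X i → ℝ)
    (h1 : ∀ i, Integrable (φ i) (μ i)) (h2 : ∀ i, Integrable (fun x => ψ i x * φ i x) (μ i))
    (h3 : ∀ i, Integrable (fun x => ψ i x ^ 2 * φ i x) (μ i))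
    (h0 : ∀ i, ∫ x, ψ i x * φ i x ∂(μ i) = 0) :
    Integrable (fun s : ∀ i, X i => (∑ i, ψ i (s i)) ^ 2 * ∏ k, φ k (s k)) (Measure.pi μ) ∧
    ∫ s : ∀ i, X i, (∑ i, ψ i (s i)) ^ 2 * ∏ k, φ k (s k) ∂(Measure.pi μ) =
      ∑ i, (∫ x, ψ i x ^ 2 * φ i x ∂(μ i)) * ∏ k ∈ univ.erase i, ∫ x, φ k x ∂(μ k) := by
  let g : ι → ι → ∀ k, X k → ℝ := fun i j k x =>
    φ k x * (if k = i then ψ k x else 1) * (if k = j then ψ k x else 1)
  have e1 : ∀ s : ∀ i, X i, (∑ i, ψ i (s i)) ^ 2 * ∏ k, φ k (s k) =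
      ∑ i, ∑ j, ∏ k, g i j k (s k) := by
    intro s
    rw [sq, Finset.sum_mul_sum, Finset.sum_mul]
    refine Finset.sum_congr rfl fun i _ => ?_
    rw [Finset.sum_mul]
    refine Finset.sum_congr rfl fun j _ => ?_
    simp only [g]
    rw [Finset.prod_mul_distrib, Finset.prod_mul_distrib, Finset.prod_ite_eq',
      Finset.prod_ite_eq']
    simp only [mem_univ, if_true]
    ring
  have e2 : ∀ i j k, Integrable (g i j k) (μ k) := by
    intro i j k
    by_cases hi : k = i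
    · by_cases hj : k = j
      · refine (h3 k).congr (Filter.Eventually.of_forall fun x => ?_)
        simp only [g, if_pos hi, if_pos hj]
        ring
      · refine (h2 k).congr (Filter.Eventually.of_forall fun x => ?_)
        simp only [g, if_pos hi, if_neg hj]
        ring
    · by_cases hj : k = j
      · refine (h2 k).congr (Filter.Eventually.of_forall fun x => ?_)
        simp only [g, if_neg hi, if_pos hj]
        ring
      · refine (h1 k).congr (Filter.Eventually.of_forall fun x => ?_)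
        simp only [g, if_neg hi, if_neg hj]
        ring
  have e3 : ∀ i j, Integrable (fun s : ∀ i, X i => ∏ k, g i j k (s k)) (Measure.pi μ) :=
    fun i j => Integrable.fintype_prod_dep fun k => e2 i j k
  simp only [e1]
  refine ⟨integrable_finsetSum _ fun i _ => integrable_finsetSum _ fun j _ => e3 i j, ?_⟩
  rw [integral_finsetSum _ fun i _ => integrable_finsetSum _ fun j _ => e3 i j]
  refine Finset.sum_congr rfl fun i _ => ?_
  rw [integral_finsetSum _ fun j _ => e3 i j, Finset.sum_eq_single i]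
  · rw [integral_fintype_prod_eq_prod, ← Finset.mul_prod_erase _ _ (mem_univ i)]
    congr 1
    · refine integral_congr_ae (Filter.Eventually.of_forall fun x => ?_)
      simp only [g, if_true]
      ring
    · refine Finset.prod_congr rfl fun k hk => ?_
      refine integral_congr_ae (Filter.Eventually.of_forall fun x => ?_)
      simp only [g, if_neg (Finset.ne_of_mem_erase hk)]
      ring
  · intro j _ hj
    rw [integral_fintype_prod_eq_prod]
    refine Finset.prod_eq_zero (mem_univ i) ?_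
    rw [← h0 i]
    refine integral_congr_ae (Filter.Eventually.of_forall fun x => ?_)
    simp only [g, if_true, if_neg hj.symm]
    ring
  · intro h; exact absurd (mem_univ i) h

theorem base_upper (μ : ∀ i, Measure (X i)) [∀ i, SigmaFinite (μ i)] (φ ψ : ∀ i, X i → ℝ)
    (hφ : ∀ i x, 0 ≤ φ i x)
    (h1 : ∀ i, Integrable (φ i) (μ i)) (h2 : ∀ i, Integrable (fun x => ψ i x * φ i x) (μ i))
    (h3 : ∀ i, Integrable (fun x => ψ i x ^ 2 * φ i x) (μ i))
    (h0 : ∀ i, ∫ x, ψ i x * φ i x ∂(μ i) = 0) (a : ι → ℝ)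
    (ha : ∀ i, ∫ x, ψ i x ^ 2 * φ i x ∂(μ i) ≤ a i * ∫ x, φ i x ∂(μ i)) :
    ∫⁻ s : ∀ i, X i, ENNReal.ofReal ((∑ i, ψ i (s i)) ^ 2) * ∏ k, ENNReal.ofReal (φ k (s k))
      ∂(Measure.pi μ) ≤ ENNReal.ofReal ((∑ i, a i) * ∏ i, ∫ x, φ i x ∂(μ i)) := by
  obtain ⟨hi, he⟩ := base_eq μ φ ψ h1 h2 h3 h0
  have e1 : ∀ s : ∀ i, X i, ENNReal.ofReal ((∑ i, ψ i (s i)) ^ 2) *
      ∏ k, ENNReal.ofReal (φ k (s k)) = ENNReal.ofReal ((∑ i, ψ i (s i)) ^ 2 * ∏ k, φ k (s k)) := by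
    intro s
    rw [← ENNReal.ofReal_prod_of_nonneg fun k _ => hφ k _, ← ENNReal.ofReal_mul (sq_nonneg _)]
  simp only [e1]
  rw [← ofReal_integral_eq_lintegral_ofReal hi (Filter.Eventually.of_forall fun s =>
    mul_nonneg (sq_nonneg _) (Finset.prod_nonneg fun k _ => hφ k _)), he]
  refine ENNReal.ofReal_le_ofReal ?_
  rw [Finset.sum_mul]
  refine Finset.sum_le_sum fun i _ => ?_
  rw [← Finset.mul_prod_erase _ _ (mem_univ i), ← mul_assoc]
  exact mul_le_mul_of_nonneg_right (ha i)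
    (Finset.prod_nonneg fun k _ => integral_nonneg fun x => hφ k x)

theorem base_lower (μ : ∀ i, Measure (X i)) [∀ i, SigmaFinite (μ i)] (φ ψ : ∀ i, X i → ℝ)
    (hφ : ∀ i x, 0 ≤ φ i x)
    (h1 : ∀ i, Integrable (φ i) (μ i)) (h2 : ∀ i, Integrable (fun x => ψ i x * φ i x) (μ i))
    (h3 : ∀ i, Integrable (fun x => ψ i x ^ 2 * φ i x) (μ i))
    (h0 : ∀ i, ∫ x, ψ i x * φ i x ∂(μ i) = 0) (a : ι → ℝ)
    (ha : ∀ i, a i * ∫ x, φ i x ∂(μ i) ≤ ∫ x, ψ i x ^ 2 * φ i x ∂(μ i)) :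
    ENNReal.ofReal ((∑ i, a i) * ∏ i, ∫ x, φ i x ∂(μ i)) ≤
    ∫⁻ s : ∀ i, X i, ENNReal.ofReal ((∑ i, ψ i (s i)) ^ 2) * ∏ k, ENNReal.ofReal (φ k (s k))
      ∂(Measure.pi μ) := by
  obtain ⟨hi, he⟩ := base_eq μ φ ψ h1 h2 h3 h0
  have e1 : ∀ s : ∀ i, X i, ENNReal.ofReal ((∑ i, ψ i (s i)) ^ 2) *
      ∏ k, ENNReal.ofReal (φ k (s k)) = ENNReal.ofReal ((∑ i, ψ i (s i)) ^ 2 * ∏ k, φ k (s k)) := by
    intro s
    rw [← ENNReal.ofReal_prod_of_nonneg fun k _ => hφ k _, ← ENNReal.ofReal_mul (sq_nonneg _)]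
  simp only [e1]
  rw [← ofReal_integral_eq_lintegral_ofReal hi (Filter.Eventually.of_forall fun s =>
    mul_nonneg (sq_nonneg _) (Finset.prod_nonneg fun k _ => hφ k _)), he]
  refine ENNReal.ofReal_le_ofReal ?_
  rw [Finset.sum_mul]
  refine Finset.sum_le_sum fun i _ => ?_
  rw [← Finset.mul_prod_erase _ _ (mem_univ i), ← mul_assoc]
  exact mul_le_mul_of_nonneg_right (ha i)
    (Finset.prod_nonneg fun k _ => integral_nonneg fun x => hφ k x)

theorem base_mass (μ : ∀ i, Measure (X i)) [∀ i, SigmaFinite (μ i)] (φ : ∀ i, X i → ℝ)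
    (hφ : ∀ i x, 0 ≤ φ i x) (h1 : ∀ i, Integrable (φ i) (μ i)) :
    ∫⁻ s : ∀ i, X i, ∏ k, ENNReal.ofReal (φ k (s k)) ∂(Measure.pi μ) =
      ENNReal.ofReal (∏ i, ∫ x, φ i x ∂(μ i)) := by
  have e1 : ∀ s : ∀ i, X i, ∏ k, ENNReal.ofReal (φ k (s k)) =
      ENNReal.ofReal (∏ k, φ k (s k)) := by
    intro s
    rw [← ENNReal.ofReal_prod_of_nonneg fun k _ => hφ k _]
  simp only [e1]
  rw [← ofReal_integral_eq_lintegral_ofReal (Integrable.fintype_prod_dep h1)
    (Filter.Eventually.of_forall fun s => Finset.prod_nonneg fun k _ => hφ k _),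
    integral_fintype_prod_eq_prod]

end Pool.Agent.Y506.KS
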