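import Pool.Agent.H59.L.S8.Y506.KS.Gp

/-!
# Symmetric convex bodies: isotropic position
-/

set_option autoImplicit false
set_option linter.unusedSectionVars false

namespace Pool.Agent.Y506.KS

open MeasureTheory Set
open scoped ENNReal InnerProductSpace Pointwise

/-- symmetric convex bodies (bounded, with interior points) -/
structure SB {k : ℕ} (D : Set (EuclideanSpace ℝ (Fin k))) : Prop where
  meas : MeasurableSet D
  conv : Convex ℝ D
  bdd : Bornology.IsBounded D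
  symm : ∀ x ∈ D, -x ∈ D
  int : (interior D).Nonempty

variable {k : ℕ} {D : Set (EuclideanSpace ℝ (Fin k))}

theorem SB.ball (h : SB D) : ∃ r : ℝ, 0 < r ∧ Metric.ball (0 : EuclideanSpace ℝ (Fin k)) r ⊆ D := by
  obtain ⟨x, hx⟩ := h.int
  obtain ⟨r, hr, hb⟩ := Metric.isOpen_iff.1 isOpen_interior x hx
  refine ⟨r, hr, fun y hy => ?_⟩
  have h1 : x + y ∈ D := by
    refine interior_subset (hb ?_)
    rw [Metric.mem_ball, dist_eq_norm, add_sub_cancel_left]
    simpa using hy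
  have h2 : -(x + -y) ∈ D := by
    refine h.symm _ (interior_subset (hb ?_))
    rw [Metric.mem_ball, dist_eq_norm, add_sub_cancel_left, norm_neg]
    simpa using hy
  have h3 := h.conv h1 h2 (by norm_num : (0 : ℝ) ≤ 1 / 2) (by norm_num : (0 : ℝ) ≤ 1 / 2)
    (by norm_num)
  have : (1 / 2 : ℝ) • (x + y) + (1 / 2 : ℝ) • -(x + -y) = y := by module
  rwa [this] at h3

theorem SB.intg (h : SB D) (g : EuclideanSpace ℝ (Fin k) → ℝ) (hg : Continuous g) :
    IntegrableOn g D := by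
  obtain ⟨R, hR⟩ := h.bdd.subset_closedBall 0
  exact (hg.continuousOn.integrableOn_compact (isCompact_closedBall _ _)).mono_set hR

theorem SB.vol_lt (h : SB D) : volume D < ∞ := h.bdd.measure_lt_top

theorem SB.vol_pos (h : SB D) : 0 < volume D := by
  obtain ⟨r, hr, hb⟩ := h.ball
  exact (Metric.measure_ball_pos _ _ hr).trans_le (measure_mono hb)

theorem SB.volr_pos (h : SB D) : 0 < (volume D).toReal :=
  ENNReal.toReal_pos h.vol_pos.ne' h.vol_lt.ne

theorem SB.quad_pos (h : SB D) (c : EuclideanSpace ℝ (Fin k)) (hc : c ≠ 0) :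
    0 < ∫ s in D, ⟪c, s⟫_ℝ ^ 2 := by
  have hcn : 0 < ‖c‖ := norm_pos_iff.2 hc
  rw [setIntegral_pos_iff_support_of_nonneg_ae
    (Filter.Eventually.of_forall fun s => sq_nonneg _) (h.intg _ (by fun_prop))]
  obtain ⟨r, hr, hb⟩ := h.ball
  have hU : IsOpen (Metric.ball (0 : EuclideanSpace ℝ (Fin k)) r ∩ {s | 0 < ⟪c, s⟫_ℝ}) :=
    Metric.isOpen_ball.inter (isOpen_lt continuous_const (by fun_prop))
  have hne : (Metric.ball (0 : EuclideanSpace ℝ (Fin k)) r ∩ {s | 0 < ⟪c, s⟫_ℝ}).Nonempty := by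
    refine ⟨(r / (2 * ‖c‖)) • c, ?_, ?_⟩
    · rw [Metric.mem_ball, dist_zero_right, norm_smul, Real.norm_of_nonneg (by positivity)]
      have : r / (2 * ‖c‖) * ‖c‖ = r / 2 := by field_simp
      rw [this]
      linarith
    · rw [mem_ofPred_eq, real_inner_smul_right, real_inner_self_eq_norm_sq]
      positivity
  refine (hU.measure_pos volume hne).trans_le (measure_mono fun s hs => ⟨?_, hb hs.1⟩)
  have h1 : 0 < ⟪c, s⟫_ℝ := hs.2
  exact (pow_pos h1 2).ne'

theorem exists_T_core {κ V : Type} [Fintype κ] [AddCommGroup V] [Module ℝ V]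
    (cd : InnerProductSpace.Core ℝ V) (Q : EuclideanSpace ℝ κ →ₗ[ℝ] V)
    (hQ : Function.Injective Q) : ∃ T : EuclideanSpace ℝ κ ≃L[ℝ] EuclideanSpace ℝ κ,
      ∀ x, ‖T x‖ ^ 2 = cd.inner (Q x) (Q x) := by
  let n1 : NormedAddCommGroup V := cd.toNormedAddCommGroup
  let n2 : InnerProductSpace ℝ V := InnerProductSpace.ofCore cd.toCore
  obtain ⟨T, hT⟩ := exists_T Q hQ
  refine ⟨T, fun c => ?_⟩
  rw [hT c, ← real_inner_self_eq_norm_sq]

/-- the quadratic form of second moments as a norm -/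
theorem SB.exists_B (h : SB D) : ∃ B : EuclideanSpace ℝ (Fin k) ≃L[ℝ] EuclideanSpace ℝ (Fin k),
    ∀ c, ‖B c‖ ^ 2 = ∫ s in D, ⟪c, s⟫_ℝ ^ 2 := by
  have hint : ∀ a b : EuclideanSpace ℝ (Fin k), IntegrableOn (fun s => ⟪a, s⟫_ℝ * ⟪b, s⟫_ℝ) D :=
    fun a b => h.intg _ (by fun_prop)
  let cd : InnerProductSpace.Core ℝ (EuclideanSpace ℝ (Fin k)) :=
    { inner := fun a b => ∫ s in D, ⟪a, s⟫_ℝ * ⟪b, s⟫_ℝ
      conj_inner_symm := fun a b => by
        simp only [conj_trivial]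
        exact integral_congr_ae (Filter.Eventually.of_forall fun s => mul_comm _ _)
      re_inner_nonneg := fun a => by
        simp only [RCLike.re_to_real]
        exact integral_nonneg fun s => mul_self_nonneg _
      add_left := fun a b c => by
        rw [← integral_add (hint a c) (hint b c)]
        refine integral_congr_ae (Filter.Eventually.of_forall fun s => ?_)
        simp only
        rw [inner_add_left, add_mul]
      smul_left := fun a b r => by
        simp only [conj_trivial]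
        rw [← integral_const_mul]
        refine integral_congr_ae (Filter.Eventually.of_forall fun s => ?_)
        simp only
        rw [real_inner_smul_left, mul_assoc]
      definite := fun a ha => by
        by_contra hne
        have h1 := h.quad_pos a hne
        have h2 : ∫ s in D, ⟪a, s⟫_ℝ ^ 2 = 0 := by
          rw [← ha]
          exact integral_congr_ae (Filter.Eventually.of_forall fun s => by simp only; ring)
        exact h1.ne' h2 }
  obtain ⟨T, hT⟩ := exists_T_core cd LinearMap.id Function.injective_id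
  refine ⟨T, fun c => (hT c).trans ?_⟩
  exact integral_congr_ae (Filter.Eventually.of_forall fun s => by
    simp only [LinearMap.id_coe, id_eq]; ring)

theorem SB.odd (h : SB D) (c : EuclideanSpace ℝ (Fin k)) : ∫ s in D, ⟪c, s⟫_ℝ = 0 := by
  have h1 : ∫ s, D.indicator (fun s => ⟪c, s⟫_ℝ) (-s) = ∫ s, D.indicator (fun s => ⟪c, s⟫_ℝ) s :=
    integral_neg_eq_self (D.indicator fun s => ⟪c, s⟫_ℝ) volume
  have h2 : ∀ s, D.indicator (fun s => ⟪c, s⟫_ℝ) (-s) = -D.indicator (fun s => ⟪c, s⟫_ℝ) s := by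
    intro s
    by_cases hs : s ∈ D
    · rw [indicator_of_mem (h.symm s hs), indicator_of_mem hs, inner_neg_right]
    · have : -s ∉ D := fun hn => hs (by simpa using h.symm _ hn)
      rw [indicator_of_notMem this, indicator_of_notMem hs, neg_zero]
  simp only [h2] at h1
  rw [integral_neg, integral_indicator h.meas] at h1
  linarith

theorem num5 (k : ℕ) (hk : 1 ≤ k) : ((((k : ℝ) / (k + 1)) ^ k)⁻¹) ≤ 4 := by
  have hk0 : (0 : ℝ) < k := by exact_mod_cast hk
  have h1 : (((k : ℝ) / (k + 1)) ^ k)⁻¹ = (1 / (k : ℝ) + 1) ^ k := by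
    rw [← inv_pow]
    congr 1
    field_simp
    ring
  rw [h1]
  have h2 : (1 / (k : ℝ) + 1) ≤ Real.exp (1 / (k : ℝ)) := Real.add_one_le_exp _
  calc (1 / (k : ℝ) + 1) ^ k ≤ Real.exp (1 / (k : ℝ)) ^ k :=
        pow_le_pow_left₀ (by positivity) h2 k
    _ = Real.exp (k * (1 / (k : ℝ))) := by rw [← Real.exp_nat_mul]
    _ = Real.exp 1 := by rw [mul_one_div, div_self hk0.ne']
    _ ≤ 4 := by have := exp1_le; linarith

theorem SB.width (h : SB D) (c u : EuclideanSpace ℝ (Fin k)) (hu : u ∈ D) :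
    ⟪c, u⟫_ℝ ^ 2 * (volume D).toReal ≤ 4 * ((k : ℝ) + 1) ^ 2 * ∫ s in D, ⟪c, s⟫_ℝ ^ 2 := by
  have hnn : 0 ≤ ∫ s in D, ⟪c, s⟫_ℝ ^ 2 := integral_nonneg fun s => sq_nonneg _
  rcases Nat.eq_zero_or_pos k with hk | hk
  · subst hk
    have : u = 0 := Subsingleton.elim _ _
    rw [this, inner_zero_right]
    simp only [ne_eq, OfNat.ofNat_ne_zero, not_false_eq_true, zero_pow, zero_mul]
    positivity
  · have hk0 : (0 : ℝ) < k := by exact_mod_cast hk
    obtain ⟨a, ha⟩ : ∃ a : ℝ, a = (k : ℝ) / (k + 1) := ⟨_, rfl⟩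
    obtain ⟨b, hb⟩ : ∃ b : ℝ, b = 1 / ((k : ℝ) + 1) := ⟨_, rfl⟩
    have ha0 : 0 < a := by rw [ha]; positivity
    have hb0 : 0 < b := by rw [hb]; positivity
    have hab : a + b = 1 := by rw [ha, hb]; field_simp
    have hi1 := h.intg (fun s => ⟪c, s⟫_ℝ ^ 2) (by fun_prop)
    have hi2 := h.intg (fun s => (a * ⟪c, s⟫_ℝ + b * ⟪c, u⟫_ℝ) ^ 2) (by fun_prop)
    have hi3 := h.intg (fun s => ⟪c, s⟫_ℝ) (by fun_prop)
    have hi4 := h.intg (fun _ => (1 : ℝ)) (by fun_prop)
    obtain ⟨F, hF⟩ : ∃ F : EuclideanSpace ℝ (Fin k) → ℝ,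
      F = D.indicator (fun s => ⟪c, s⟫_ℝ ^ 2) := ⟨_, rfl⟩
    have hFi : Integrable F := by rw [hF]; exact hi1.integrable_indicator h.meas
    have e1 : ∫ s, F (a • (s + (b / a) • u)) = (a ^ k)⁻¹ * ∫ s in D, ⟪c, s⟫_ℝ ^ 2 := by
      rw [integral_add_right_eq_self (fun s => F (a • s)), Measure.integral_comp_smul,
        finrank_euclideanSpace, Fintype.card_fin, hF, integral_indicator h.meas, smul_eq_mul,
        abs_of_pos (by positivity)]
    have hFi2 : Integrable fun s => F (a • (s + (b / a) • u)) :=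
      (hFi.comp_smul ha0.ne').comp_add_right ((b / a) • u)
    have e2 : ∫ s in D, (a * ⟪c, s⟫_ℝ + b * ⟪c, u⟫_ℝ) ^ 2 ≤
        ∫ s, F (a • (s + (b / a) • u)) := by
      rw [← integral_indicator h.meas]
      refine integral_mono (hi2.integrable_indicator h.meas) hFi2 fun s => ?_
      have e3 : a • (s + (b / a) • u) = a • s + b • u := by
        rw [smul_add, smul_smul, mul_div_cancel₀ _ ha0.ne']
      simp only [e3]
      by_cases hs : s ∈ D
      · have hm : a • s + b • u ∈ D := h.conv hs hu ha0.le hb0.le hab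
        rw [indicator_of_mem hs, hF, indicator_of_mem hm, inner_add_right, real_inner_smul_right,
          real_inner_smul_right]
      · rw [indicator_of_notMem hs, hF]
        exact indicator_nonneg (fun x _ => sq_nonneg _) _
    have e4 : ∫ s in D, (a * ⟪c, s⟫_ℝ + b * ⟪c, u⟫_ℝ) ^ 2 = a ^ 2 * (∫ s in D, ⟪c, s⟫_ℝ ^ 2) +
        b ^ 2 * ⟪c, u⟫_ℝ ^ 2 * (volume D).toReal := by
      have e5 : ∀ s, (a * ⟪c, s⟫_ℝ + b * ⟪c, u⟫_ℝ) ^ 2 = a ^ 2 * ⟪c, s⟫_ℝ ^ 2 +
          (2 * a * b * ⟪c, u⟫_ℝ) * ⟪c, s⟫_ℝ + (b ^ 2 * ⟪c, u⟫_ℝ ^ 2) * 1 := fun s => by ring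
      have i5 : IntegrableOn (fun s => a ^ 2 * ⟪c, s⟫_ℝ ^ 2 +
          (2 * a * b * ⟪c, u⟫_ℝ) * ⟪c, s⟫_ℝ) D := (hi1.const_mul _).add (hi3.const_mul _)
      simp only [e5]
      rw [integral_add i5 (hi4.const_mul _), integral_add (hi1.const_mul _) (hi3.const_mul _),
        integral_const_mul, integral_const_mul, integral_const_mul, h.odd, mul_zero, add_zero]
      congr 2
      rw [setIntegral_const, smul_eq_mul, mul_one]
      rfl
    rw [e4, e1] at e2
    have h5 := num5 k hk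
    rw [← ha] at h5
    have h6 : b ^ 2 * (⟪c, u⟫_ℝ ^ 2 * (volume D).toReal) ≤ 4 * ∫ s in D, ⟪c, s⟫_ℝ ^ 2 := by
      have h7 : 0 ≤ a ^ 2 * ∫ s in D, ⟪c, s⟫_ℝ ^ 2 := by positivity
      have h8 := mul_le_mul_of_nonneg_right h5 hnn
      linarith
    have h9 : ((k : ℝ) + 1) ^ 2 * b ^ 2 = 1 := by
      rw [hb]; field_simp
    calc ⟪c, u⟫_ℝ ^ 2 * (volume D).toReal = ((k : ℝ) + 1) ^ 2 *
          (b ^ 2 * (⟪c, u⟫_ℝ ^ 2 * (volume D).toReal)) := by
          rw [← mul_assoc, h9, one_mul]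
      _ ≤ ((k : ℝ) + 1) ^ 2 * (4 * ∫ s in D, ⟪c, s⟫_ℝ ^ 2) :=
          mul_le_mul_of_nonneg_left h6 (by positivity)
      _ = _ := by ring

theorem SB.image (h : SB D) (A : EuclideanSpace ℝ (Fin k) ≃L[ℝ] EuclideanSpace ℝ (Fin k)) :
    SB (A '' D) := by
  refine ⟨?_, ?_, ?_, ?_, ?_⟩
  · exact (A.toHomeomorph.measurableEmbedding.measurableSet_image).2 h.meas
  · have := h.conv.linear_image A.toLinearEquiv.toLinearMap
    exact this
  · obtain ⟨R, hR⟩ := h.bdd.subset_closedBall 0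
    exact ((isCompact_closedBall _ _).image A.continuous).isBounded.subset (image_mono hR)
  · rintro _ ⟨x, hx, rfl⟩
    exact ⟨-x, h.symm x hx, by rw [map_neg]⟩
  · obtain ⟨x, hx⟩ := h.int
    refine ⟨A x, ?_⟩
    have h1 : A '' interior D ⊆ interior (A '' D) :=
      interior_maximal (image_mono interior_subset) (A.toHomeomorph.isOpenMap _ isOpen_interior)
    exact h1 ⟨x, hx, rfl⟩

theorem img_ind (A : EuclideanSpace ℝ (Fin k) ≃L[ℝ] EuclideanSpace ℝ (Fin k))
    (D : Set (EuclideanSpace ℝ (Fin k))) (g : EuclideanSpace ℝ (Fin k) → ℝ)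
    (x : EuclideanSpace ℝ (Fin k)) :
    (A '' D).indicator g (A x) = D.indicator (fun x => g (A x)) x := by
  by_cases hx : x ∈ D
  · rw [indicator_of_mem (mem_image_of_mem _ hx), indicator_of_mem hx]
  · have : A x ∉ A '' D := fun hn => by
      obtain ⟨y, hy, he⟩ := hn
      exact hx (A.injective he ▸ hy)
    rw [indicator_of_notMem this, indicator_of_notMem hx]

/-- isotropic position -/
theorem SB.iso (h : SB D) : ∃ A : EuclideanSpace ℝ (Fin k) ≃L[ℝ] EuclideanSpace ℝ (Fin k),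
    SB (A '' D) ∧ (∀ c, ‖c‖ ^ 2 * (volume (A '' D)).toReal = ∫ s in A '' D, ⟪c, s⟫_ℝ ^ 2) ∧
      ∀ s ∈ A '' D, ‖s‖ ≤ 2 * ((k : ℝ) + 1) := by
  obtain ⟨B, hB⟩ := h.exists_B
  have hv := h.volr_pos
  obtain ⟨v, hve⟩ : ∃ v : ℝ, v = (volume D).toReal := ⟨_, rfl⟩
  rw [← hve] at hv
  have hsv : 0 < Real.sqrt v := Real.sqrt_pos.2 hv
  let A0 : EuclideanSpace ℝ (Fin k) →L[ℝ] EuclideanSpace ℝ (Fin k) :=
    Real.sqrt v • ContinuousLinearMap.adjoint B.symm.toContinuousLinearMap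
  have hA0 : ∀ c s, ⟪c, A0 s⟫_ℝ = Real.sqrt v * ⟪B.symm c, s⟫_ℝ := by
    intro c s
    simp only [A0]
    rw [_root_.smul_apply, real_inner_smul_right, ContinuousLinearMap.adjoint_inner_right]
    rfl
  have hinj : Function.Injective A0.toLinearMap := by
    rw [injective_iff_map_eq_zero]
    intro x hx
    have h1 := hA0 (B x) x
    have h2 : A0 x = 0 := hx
    rw [h2, inner_zero_right, B.symm_apply_apply] at h1
    rcases mul_eq_zero.1 h1.symm with h3 | h3
    · exact absurd h3 hsv.ne'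
    · exact inner_self_eq_zero.1 h3
  let A1 : EuclideanSpace ℝ (Fin k) ≃ₗ[ℝ] EuclideanSpace ℝ (Fin k) :=
    LinearEquiv.ofInjectiveEndo A0.toLinearMap hinj
  let A : EuclideanSpace ℝ (Fin k) ≃L[ℝ] EuclideanSpace ℝ (Fin k) := A1.toContinuousLinearEquiv
  have hA : ∀ x, A x = A0 x := fun x => rfl
  have hS := h.image A
  obtain ⟨c0, hc0, hc1, -⟩ := cov1 A
  have h1 : c0 * (volume (A '' D)).toReal = v := by
    have h2 := hc1 ((A '' D).indicator fun _ => 1)
    simp only [img_ind] at h2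
    rw [integral_indicator h.meas, integral_indicator hS.meas, setIntegral_const,
      setIntegral_const, smul_eq_mul, smul_eq_mul, mul_one, mul_one] at h2
    rw [hve]
    exact h2.symm
  have h3 : ∀ c, c0 * ∫ s in A '' D, ⟪c, s⟫_ℝ ^ 2 = v * ‖c‖ ^ 2 := by
    intro c
    have h2 := hc1 ((A '' D).indicator fun s => ⟪c, s⟫_ℝ ^ 2)
    simp only [img_ind] at h2
    rw [integral_indicator h.meas, integral_indicator hS.meas] at h2
    rw [← h2]
    have h4 : ∀ s, ⟪c, A s⟫_ℝ ^ 2 = v * ⟪B.symm c, s⟫_ℝ ^ 2 := by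
      intro s
      rw [hA, hA0, mul_pow, Real.sq_sqrt hv.le]
    simp only [h4]
    rw [integral_const_mul, ← hB, B.apply_symm_apply]
  have h5 : ∀ c, ‖c‖ ^ 2 * (volume (A '' D)).toReal = ∫ s in A '' D, ⟪c, s⟫_ℝ ^ 2 := by
    intro c
    refine mul_left_cancel₀ hc0.ne' ?_
    rw [h3, ← h1]
    ring
  refine ⟨A, hS, h5, fun u hu => ?_⟩
  have h6 := hS.width u u hu
  rw [← h5, real_inner_self_eq_norm_sq] at h6
  have hvol := hS.volr_pos
  rcases eq_or_ne u 0 with h0 | h0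
  · rw [h0, norm_zero]; positivity
  · have hu0 : 0 < ‖u‖ := norm_pos_iff.2 h0
    have h7 : ‖u‖ ^ 2 ≤ (2 * ((k : ℝ) + 1)) ^ 2 := by
      have h8 : (‖u‖ ^ 2) * (‖u‖ ^ 2 * (volume (A '' D)).toReal) ≤
          (2 * ((k : ℝ) + 1)) ^ 2 * (‖u‖ ^ 2 * (volume (A '' D)).toReal) := by
        calc _ = (‖u‖ ^ 2) ^ 2 * (volume (A '' D)).toReal := by ring
          _ ≤ _ := h6
          _ = _ := by ring
      exact le_of_mul_le_mul_right h8 (by positivity)
    exact (pow_le_pow_iff_left₀ (norm_nonneg _) (by positivity) two_ne_zero).1 h7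

end Pool.Agent.Y506.KS
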