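import Pool.Agent.H59.L.S8.Y506.KS.Body
import Pool.Agent.H59.L.S8.W695.KH.Defs

/-!
# Poincare inequality for `{x | ∀ i, Q i x ∈ D i}`
-/

set_option autoImplicit false
set_option linter.unusedSectionVars false

namespace Pool.Agent.Y506.KS

open MeasureTheory Set
open scoped ENNReal InnerProductSpace Pointwise
open Pool.Agent.W695.KH (EV VV)

variable {ι : Type} [Fintype ι] [DecidableEq ι] {m : ι → ℕ} {κ : Type} [Fintype κ]

/-- the set of all `x` with `Q i x ∈ D i` for all `i` -/
def KK (Q : ∀ i, EuclideanSpace ℝ κ →L[ℝ] Xb m i) (D : ∀ i, Set (Xb m i)) :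
    Set (EuclideanSpace ℝ κ) := {x | ∀ i, Q i x ∈ D i}

theorem fam_ind {D : ∀ i, Set (Xb m i)} (hD : ∀ i, SB (D i)) (R : ℝ)
    (hR : ∀ i, ∀ s ∈ D i, ‖s‖ ≤ R) : Fam (fun i => (D i).indicator fun _ => (1 : ℝ)) R := by
  refine ⟨fun i s => indicator_nonneg (fun _ _ => zero_le_one) _, fun i =>
    measurable_const.indicator (hD i).meas, ?_, ?_, ?_, ?_⟩
  · intro i s u t ht0 ht1
    have h1 : 0 < 1 - t := by linarith
    by_cases hs : s ∈ D i
    · by_cases hu : u ∈ D i
      · have hm : (1 - t) • s + t • u ∈ D i := (hD i).conv hs hu h1.le ht0.le (by ring)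
        simp only [indicator_of_mem hs, indicator_of_mem hu, indicator_of_mem hm, Real.one_rpow,
          mul_one, le_refl]
      · simp only [indicator_of_notMem hu, Real.zero_rpow ht0.ne', mul_zero]
        exact indicator_nonneg (fun _ _ => zero_le_one) _
    · simp only [indicator_of_notMem hs, Real.zero_rpow h1.ne', zero_mul]
      exact indicator_nonneg (fun _ _ => zero_le_one) _
  · intro i s hs
    exact indicator_of_notMem (fun hn => absurd (hR i s hn) (not_le.2 hs)) _
  · exact ⟨1, one_pos, fun i s => indicator_le_self' (fun _ _ => zero_le_one) _⟩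
  · have h1 : ∀ i, ∃ r : ℝ, 0 < r ∧ Metric.ball (0 : Xb m i) r ⊆ D i := fun i => (hD i).ball
    choose r hr hb using h1
    have h2 : ∀ᶠ x in nhdsWithin (0 : ℝ) (Ioi 0), ∀ i, x < r i := by
      rw [Filter.eventually_all]
      intro i
      exact Filter.mem_of_superset (Ioo_mem_nhdsGT (hr i)) fun x hx => hx.2
    obtain ⟨x, hx, hx0⟩ := (h2.and self_mem_nhdsWithin).exists
    refine ⟨1, x, one_pos, hx0, fun i s hs => ?_⟩
    have : s ∈ D i := hb i (by simpa using hs.trans (hx i))
    simp only [indicator_of_mem this, le_refl]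

theorem dn_ind (Q : ∀ i, EuclideanSpace ℝ κ →L[ℝ] Xb m i) (D : ∀ i, Set (Xb m i))
    (x : EuclideanSpace ℝ κ) : dn Q (fun i => (D i).indicator fun _ => (1 : ℝ)) x =
      (KK Q D).indicator (fun _ => (1 : ℝ)) x := by
  unfold dn
  by_cases hx : x ∈ KK Q D
  · rw [indicator_of_mem hx]
    exact Finset.prod_eq_one fun i _ => indicator_of_mem (hx i) _
  · rw [indicator_of_notMem hx]
    have : ∃ i, Q i x ∉ D i := by
      by_contra hn
      push Not at hn
      exact hx hn
    obtain ⟨i, hi⟩ := this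
    exact Finset.prod_eq_zero (Finset.mem_univ i) (indicator_of_notMem hi _)

theorem KK_meas (Q : ∀ i, EuclideanSpace ℝ κ →L[ℝ] Xb m i) {D : ∀ i, Set (Xb m i)}
    (hD : ∀ i, SB (D i)) : MeasurableSet (KK Q D) := by
  have : KK Q D = ⋂ i, Q i ⁻¹' D i := by
    ext x
    simp [KK]
  rw [this]
  exact MeasurableSet.iInter fun i => (Q i).continuous.measurable (hD i).meas

theorem int_ind {S : Set (EuclideanSpace ℝ κ)} (hS : MeasurableSet S)
    (g : EuclideanSpace ℝ κ → ℝ) :
    ∫ x, g x * S.indicator (fun _ => (1 : ℝ)) x = ∫ x in S, g x := by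
  rw [← integral_indicator hS]
  refine integral_congr_ae (Filter.Eventually.of_forall fun x => ?_)
  by_cases hx : x ∈ S
  · simp only [indicator_of_mem hx, mul_one]
  · simp only [indicator_of_notMem hx, mul_zero]

/-- the constant -/
noncomputable def CB (M q : ℕ) : ℝ := 5505024 * ((M : ℝ) + 1) ^ 2 * ((q : ℝ) + 2) ^ 4

theorem CB_pos (M q : ℕ) : 0 < CB M q := by unfold CB; positivity

theorem body_poincare {Q : ∀ i, EuclideanSpace ℝ κ →L[ℝ] Xb m i}
    (hQ : ∀ x, (∀ i, Q i x = 0) → x = 0) {D : ∀ i, Set (Xb m i)} (hD : ∀ i, SB (D i))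
    (M : ℕ) (hM : ∀ i, m i ≤ M) (q : ℕ) (hq : ∑ i, m i ≤ Fintype.card κ + q)
    (s : ℝ) (hs : 0 < s) (hcov : ∀ e : EuclideanSpace ℝ κ, ∫ x in KK Q D, ⟪e, x⟫_ℝ ^ 2 ≤
      s * ‖e‖ ^ 2 * (volume (KK Q D)).toReal)
    (f : EuclideanSpace ℝ κ → ℝ) (hf : ContDiff ℝ 1 f) (h0 : ∫ x in KK Q D, f x = 0) :
    ∫ x in KK Q D, f x ^ 2 ≤ CB M q * s * ∫ x in KK Q D, ‖fderiv ℝ f x‖ ^ 2 := by
  choose A hA1 hA2 hA3 using fun i => (hD i).iso
  let Q' : ∀ i, EuclideanSpace ℝ κ →L[ℝ] Xb m i := fun i =>
    (A i).toContinuousLinearMap.comp (Q i)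
  have hQ'a : ∀ i x, Q' i x = A i (Q i x) := fun i x => rfl
  have hKK : KK Q' (fun i => A i '' D i) = KK Q D := by
    ext x
    refine forall_congr' fun i => ?_
    rw [hQ'a]
    exact (A i).injective.mem_set_image
  have hQ' : ∀ x, (∀ i, Q' i x = 0) → x = 0 := fun x hx => hQ x fun i => by
    have h1 := hx i
    rw [hQ'a] at h1
    exact (A i).injective (h1.trans (map_zero (A i)).symm)
  have hR : ∀ i, ∀ s ∈ A i '' D i, ‖s‖ ≤ 2 * ((M : ℝ) + 1) := fun i s hs => by
    have h1 := hA3 i s hs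
    have h2 : (m i : ℝ) ≤ M := by exact_mod_cast hM i
    linarith
  have hF := fam_ind hA1 _ hR
  have hmS := KK_meas Q' hA1
  have hdn := dn_ind Q' fun i => A i '' D i
  have hone : ∀ i, ∫ s, (A i '' D i).indicator (fun _ => (1 : ℝ)) s =
      (volume (A i '' D i)).toReal := fun i => by
    rw [integral_indicator (hA1 i).meas, setIntegral_const, smul_eq_mul, mul_one]
    rfl
  have h1 := gen_poincare hQ' (by positivity : 0 < 2 * ((M : ℝ) + 1)) hF (fun i s => by
      by_cases hs : s ∈ A i '' D i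
      · rw [indicator_of_mem hs, indicator_of_mem ((hA1 i).symm s hs)]
      · have : -s ∉ A i '' D i := fun hn => hs (by simpa using (hA1 i).symm _ hn)
        rw [indicator_of_notMem hs, indicator_of_notMem this]) 1 one_pos (fun i c => by
      rw [hone, one_mul, hA2, ← integral_indicator (hA1 i).meas]
      refine le_of_eq (integral_congr_ae (Filter.Eventually.of_forall fun s => ?_))
      by_cases hs : s ∈ A i '' D i
      · simp only [indicator_of_mem hs, mul_one]
      · simp only [indicator_of_notMem hs, mul_zero]) q hq s hs (fun e => by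
      simp only [hdn]
      rw [int_ind hmS, integral_indicator hmS, setIntegral_const, smul_eq_mul, mul_one, hKK]
      exact hcov e) f hf (by
      simp only [hdn]
      rw [int_ind hmS, hKK]
      exact h0)
  simp only [hdn] at h1
  rw [int_ind hmS, int_ind hmS, hKK] at h1
  refine h1.trans (le_of_eq ?_)
  unfold CB
  ring

end Pool.Agent.Y506.KS
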