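import Pool.Agent.H59.L.S8.Y506.KS.Bp
import Pool.Agent.H59.L.S8.Y506.KS.Tr

/-!
# The class of bodies `{x | ∀ i, Q i x ∈ D i}`
-/

set_option autoImplicit false
set_option linter.unusedSectionVars false

namespace Pool.Agent.Y506.KS

open MeasureTheory Set
open scoped ENNReal InnerProductSpace Pointwise
open Pool.Agent.W695.KH (EV VV)

variable {ι : Type} [Fintype ι] [DecidableEq ι] {m : ι → ℕ} {κ : Type} [Fintype κ]

theorem exists_fam {D : ∀ i, Set (Xb m i)} (hD : ∀ i, SB (D i)) :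
    ∃ R : ℝ, Fam (fun i => (D i).indicator fun _ => (1 : ℝ)) R := by
  have h1 : ∀ i, ∃ R : ℝ, 0 ≤ R ∧ ∀ s ∈ D i, ‖s‖ ≤ R := fun i => by
    obtain ⟨R, hR0, hR⟩ := (hD i).bdd.exists_pos_norm_le
    exact ⟨R, hR0.le, hR⟩
  choose R hR0 hR using h1
  refine ⟨∑ i, R i, fam_ind hD _ fun i s hs => (hR i s hs).trans ?_⟩
  exact Finset.single_le_sum (f := R) (fun j _ => hR0 j) (Finset.mem_univ i)

theorem KK_intg {Q : ∀ i, EuclideanSpace ℝ κ →L[ℝ] Xb m i}
    (hQ : ∀ x, (∀ i, Q i x = 0) → x = 0) {D : ∀ i, Set (Xb m i)} (hD : ∀ i, SB (D i))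
    (g : EuclideanSpace ℝ κ → ℝ) (hg : Continuous g) : IntegrableOn g (KK Q D) := by
  obtain ⟨R, hR⟩ := exists_fam hD
  have h1 := gen_int hQ hR g hg
  simp only [dn_ind] at h1
  rw [← integrable_indicator_iff (KK_meas Q hD)]
  refine h1.congr (Filter.Eventually.of_forall fun x => ?_)
  by_cases hx : x ∈ KK Q D
  · simp only [indicator_of_mem hx, mul_one]
  · simp only [indicator_of_notMem hx, mul_zero]

theorem KK_vol {Q : ∀ i, EuclideanSpace ℝ κ →L[ℝ] Xb m i}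
    (hQ : ∀ x, (∀ i, Q i x = 0) → x = 0) {D : ∀ i, Set (Xb m i)} (hD : ∀ i, SB (D i)) :
    0 < (volume (KK Q D)).toReal := by
  obtain ⟨R, hR⟩ := exists_fam hD
  have h1 := gen_pos hQ hR
  simp only [dn_ind] at h1
  rw [integral_indicator (KK_meas Q hD), setIntegral_const, smul_eq_mul, mul_one] at h1
  exact h1

theorem KK_PoK {Q : ∀ i, EuclideanSpace ℝ κ →L[ℝ] Xb m i}
    (hQ : ∀ x, (∀ i, Q i x = 0) → x = 0) {D : ∀ i, Set (Xb m i)} (hD : ∀ i, SB (D i))
    (M : ℕ) (hM : ∀ i, m i ≤ M) (q : ℕ) (hq : ∑ i, m i ≤ Fintype.card κ + q) :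
    PoK (KK Q D) (CB M q) := by
  intro s hs hcov v hv
  have hV := KK_vol hQ hD
  obtain ⟨V, hVe⟩ : ∃ V : ℝ, V = (volume (KK Q D)).toReal := ⟨_, rfl⟩
  have i1 := KK_intg hQ hD v hv.continuous
  have i2 := KK_intg hQ hD (fun x => v x ^ 2) (hv.continuous.pow 2)
  have i3 := KK_intg hQ hD (fun _ => (1 : ℝ)) continuous_const
  obtain ⟨a, ha⟩ : ∃ a : ℝ, a = EV (KK Q D) v := ⟨_, rfl⟩
  have hone : ∫ x in KK Q D, (1 : ℝ) = V := by
    rw [setIntegral_const, smul_eq_mul, mul_one, hVe]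
    rfl
  rw [← hVe] at hV
  have hmean : ∫ x in KK Q D, v x = a * V := by
    rw [ha]
    unfold EV
    rw [← hVe, div_mul_cancel₀ _ hV.ne']
  have h0 : ∫ x in KK Q D, (v x - a) = 0 := by
    have : ∀ x, v x - a = v x - a * 1 := fun x => by ring
    simp only [this]
    rw [integral_sub i1 (i3.const_mul a), integral_const_mul, hone, hmean, sub_self]
  have h1 := body_poincare hQ hD M hM q hq s hs (fun e => by
    have h2 := hcov e
    unfold EV at h2
    rw [← hVe, div_le_iff₀ hV] at h2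
    rw [← hVe]
    exact h2) (fun x => v x - a) (hv.sub contDiff_const) h0
  have e1 : ∀ x, fderiv ℝ (fun x => v x - a) x = fderiv ℝ v x := fun x => by
    rw [fderiv_sub_const]
  simp only [e1] at h1
  have e2 : ∫ x in KK Q D, (v x - a) ^ 2 = (∫ x in KK Q D, v x ^ 2) - a ^ 2 * V := by
    have e3 : ∀ x, (v x - a) ^ 2 = v x ^ 2 - 2 * a * v x + a ^ 2 * 1 := fun x => by ring
    have i4 : IntegrableOn (fun x => v x ^ 2 - 2 * a * v x) (KK Q D) :=
      i2.sub (i1.const_mul _)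
    simp only [e3]
    rw [integral_add i4 (i3.const_mul _), integral_sub i2 (i1.const_mul _), integral_const_mul,
      integral_const_mul, hone, hmean]
    ring
  rw [e2] at h1
  unfold VV
  rw [← ha]
  unfold EV
  rw [← hVe, mul_div_assoc', le_div_iff₀ hV, sub_mul, div_mul_cancel₀ _ hV.ne']
  exact h1

end Pool.Agent.Y506.KS
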