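import Pool.Agent.H59.L.S8.H888R2.KT.N8
import Pool.Agent.H59.L.S8.H888R2.KT.N2
import Pool.Agent.H59.L.S8.H888R2.KT.N5b

/-!
# Poincare inequality from a bound for the covariances of the Gaussian posteriors
-/

set_option autoImplicit false

namespace Pool.Agent.Y506.KS

open MeasureTheory Set
open scoped ENNReal InnerProductSpace
open Pool.Agent.H212R2.KLS (mu Bdd)
open Pool.Agent.H888R2.KT

variable {κ : Type} [Fintype κ]

/-- all posteriors of the Gaussian channel of variance `h` have covariance at most `h / 4` -/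
def PC (ρ : EuclideanSpace ℝ κ → ℝ) (h : ℝ) : Prop := ∀ y w : EuclideanSpace ℝ κ,
  pst h ρ (fun x => ⟪x, w⟫_ℝ ^ 2) y - (pst h ρ (fun x => ⟪x, w⟫_ℝ) y) ^ 2 ≤ h / 4 * ‖w‖ ^ 2

theorem grad4 {ρ : EuclideanSpace ℝ κ → ℝ} (hρ : LC ρ) (h : ℝ) (hh : 0 < h) (hc : PC ρ h)
    (u : EuclideanSpace ℝ κ → ℝ) (hu : ContDiff ℝ 1 u) (y : EuclideanSpace ℝ κ) :
    ‖fderiv ℝ (pst h ρ u) y‖ ^ 2 ≤ 1 / 4 * pst h ρ (fun x => ‖fderiv ℝ u x‖ ^ 2) y := by
  have huc : Continuous u := hu.continuous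
  have hdc : Continuous fun x => fderiv ℝ u x := hu.continuous_fderiv (by norm_num)
  set A := fderiv ℝ (pst h ρ u) y with hA
  set a : EuclideanSpace ℝ κ := (InnerProductSpace.toDual ℝ (EuclideanSpace ℝ κ)).symm A with ha
  have ha1 : ∀ w, ⟪a, w⟫_ℝ = A w := fun w => by
    rw [ha, InnerProductSpace.toDual_symm_apply]
  have ha2 : ‖a‖ = ‖A‖ := by
    rw [ha, LinearIsometryEquiv.norm_map]
  set w : EuclideanSpace ℝ κ := (4 : ℝ) • a with hw
  have haw : A w = 4 * ‖A‖ ^ 2 := by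
    rw [← ha1, hw, inner_smul_right, real_inner_self_eq_norm_sq, ha2]
  have hww : ‖w‖ ^ 2 = 16 * ‖A‖ ^ 2 := by
    rw [hw, norm_smul, ha2, mul_pow]
    norm_num
  set l : EuclideanSpace ℝ κ → ℝ := fun x => ⟪x, w⟫_ℝ with hl
  have hlc : Continuous l := by rw [hl]; fun_prop
  have v1 := var_contr hρ h hh u hu y
  have v2 := hc y w
  have hd := (pst_deriv hρ h hh u huc y).2 w
  rw [← hA, haw] at hd
  have hcov : pst h ρ (fun x => u x * l x) y - pst h ρ u y * pst h ρ l y = h * (4 * ‖A‖ ^ 2) := by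
    rw [hd, ← mul_assoc, mul_inv_cancel₀ hh.ne', one_mul]
  have hv := N5x.var_nonneg hρ h hh y (fun x => u x + (-1) * l x) (by fun_prop)
  have e1 : pst h ρ (fun x => u x + (-1) * l x) y = pst h ρ u y + (-1) * pst h ρ l y := by
    rw [N5x.pst_add hρ h hh y _ _ (by fun_prop) (by fun_prop), N5x.pst_smul]
  have e2 : pst h ρ (fun x => (u x + (-1) * l x) ^ 2) y =
      pst h ρ (fun x => u x ^ 2) y + (-2) * pst h ρ (fun x => u x * l x) y +
      pst h ρ (fun x => l x ^ 2) y := by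
    have e3 : (fun x => (u x + (-1) * l x) ^ 2) =
        fun x => (u x ^ 2 + (-2) * (u x * l x)) + l x ^ 2 := by
      funext x
      ring
    rw [e3, N5x.pst_add hρ h hh y _ _ (by fun_prop) (by fun_prop),
      N5x.pst_add hρ h hh y _ _ (by fun_prop) (by fun_prop), N5x.pst_smul]
  rw [e1, e2] at hv
  rw [hww] at v2
  have hfin : h * (4 * ‖A‖ ^ 2) ≤ h * pst h ρ (fun x => ‖fderiv ℝ u x‖ ^ 2) y := by
    nlinarith
  have := le_of_mul_le_mul_left hfin hh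
  linarith

theorem gs_grad (h : ℝ) (hh : 0 < h) (g : EuclideanSpace ℝ κ → ℝ) (hg2 : ContDiff ℝ 2 g) (B : ℝ)
    (hB : ∀ y, |g y| ≤ B ∧ ‖fderiv ℝ g y‖ ≤ B ∧
      ∀ w, ‖w‖ ≤ 1 → ‖fderiv ℝ (fun z => fderiv ℝ g z w) y‖ ≤ B) (x : EuclideanSpace ℝ κ) :
    ‖fderiv ℝ (gs h g) x‖ ^ 2 ≤ gs h (fun y => ‖fderiv ℝ g y‖ ^ 2) x := by
  classical
  have hB0 : 0 ≤ B := (abs_nonneg _).trans (hB 0).1
  have hg1 : ContDiff ℝ 1 g := hg2.of_le (by norm_num)
  have hgf : ContDiff ℝ 1 (fderiv ℝ g) := hg2.fderiv_right (by norm_num)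
  have hφ1 : ∀ w, ContDiff ℝ 1 (fun y => fderiv ℝ g y w) := fun w =>
    hgf.clm_apply contDiff_const
  have hφb : ∀ w, ‖w‖ ≤ 1 → ∀ y, |fderiv ℝ g y w| ≤ B := by
    intro w hw y
    rw [← Real.norm_eq_abs]
    calc ‖fderiv ℝ g y w‖ ≤ ‖fderiv ℝ g y‖ * ‖w‖ := (fderiv ℝ g y).le_opNorm w
      _ ≤ B * 1 := by gcongr; exact (hB y).2.1
      _ = B := mul_one B
  have hφb' : ∀ w, ‖w‖ ≤ 1 → ∀ y, ‖fderiv ℝ (fun y => fderiv ℝ g y w) y‖ ≤ B :=
    fun w hw y => (hB y).2.2 w hw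
  obtain ⟨hv1, hvd⟩ := gs_deriv h hh g hg1 B (fun y => (hB y).1) (fun y => (hB y).2.1)
  have hns : ∀ i : κ, ‖(EuclideanSpace.single i (1 : ℝ) : EuclideanSpace ℝ κ)‖ ≤ 1 := by
    intro i
    simp
  have hsqb : ∀ w, ‖w‖ ≤ 1 → ∀ y, |(fderiv ℝ g y w) ^ 2| ≤ B ^ 2 := by
    intro w hw y
    rw [abs_pow]
    exact pow_le_pow_left₀ (abs_nonneg _) (hφb w hw y) 2
  have hsqc : ∀ w, Continuous fun y => (fderiv ℝ g y w) ^ 2 := fun w =>
    (hφ1 w).continuous.pow 2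
  have e1 : (fun y => ‖fderiv ℝ g y‖ ^ 2) =
      fun y => ∑ i : κ, (fderiv ℝ g y (EuclideanSpace.single i 1)) ^ 2 :=
    funext fun y => N8x.norm_sq_clm _
  rw [e1, N8x.gs_sum h hh _ (fun i => hsqc _) (B ^ 2) (fun i y => hsqb _ (hns i) y) x,
    N8x.norm_sq_clm]
  refine Finset.sum_le_sum (fun i _ => ?_)
  have := gs_bessel h hh _ (hφ1 (EuclideanSpace.single i 1)) B (hφb _ (hns i)) (hφb' _ (hns i)) x
  rw [hvd]
  have h2 : 0 ≤ h * ‖fderiv ℝ (gs h fun y => fderiv ℝ g y (EuclideanSpace.single i 1)) x‖ ^ 2 := by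
    positivity
  linarith

theorem crit_step {ρ : EuclideanSpace ℝ κ → ℝ} (hρ : LC ρ) (h : ℝ) (hh : 0 < h) (hc : PC ρ h)
    (u : EuclideanSpace ℝ κ → ℝ) (hu : ContDiff ℝ 1 u) :
    ∃ v : EuclideanSpace ℝ κ → ℝ, ContDiff ℝ 1 v ∧
      ∫ x, v x ∂(mu ρ) = ∫ x, u x ∂(mu ρ) ∧
      ∫ x, ‖fderiv ℝ v x‖ ^ 2 ∂(mu ρ) ≤ 1 / 4 * ∫ x, ‖fderiv ℝ u x‖ ^ 2 ∂(mu ρ) ∧
      ∫ x, u x ^ 2 ∂(mu ρ) ≤ h * (∫ x, ‖fderiv ℝ u x‖ ^ 2 ∂(mu ρ)) +
        ∫ x, u x * v x ∂(mu ρ) := by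
  obtain ⟨hg2, B, hB⟩ := pst_smooth hρ h hh u hu.continuous
  set g := pst h ρ u with hg
  have hB0 : 0 ≤ B := (abs_nonneg _).trans (hB 0).1
  have hg1 : ContDiff ℝ 1 g := hg2.of_le (by norm_num)
  have hgf : ContDiff ℝ 1 (fderiv ℝ g) := hg2.fderiv_right (by norm_num)
  have hgfc : Continuous fun y => ‖fderiv ℝ g y‖ ^ 2 := (hgf.continuous.norm).pow 2
  have hgfb : ∀ y, |‖fderiv ℝ g y‖ ^ 2| ≤ B ^ 2 := by
    intro y
    rw [abs_pow, abs_norm]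
    exact pow_le_pow_left₀ (norm_nonneg _) (hB y).2.1 2
  obtain ⟨hv1, hvd⟩ := gs_deriv h hh g hg1 B (fun y => (hB y).1) (fun y => (hB y).2.1)
  have hgc := (gc_pos (κ := κ) h hh).1
  have hufc : Continuous fun x => ‖fderiv ℝ u x‖ ^ 2 :=
    ((hu.continuous_fderiv (by norm_num)).norm).pow 2
  have hp1 : ∀ y, pst h ρ (fun _ => 1) y = 1 := by
    intro y
    unfold pst
    simp only [one_mul]
    exact div_self (zz_pos hρ h hh y).1.ne'
  have hg1' : ∀ x : EuclideanSpace ℝ κ, gs h (fun _ => 1) x = 1 := by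
    intro x
    unfold gs
    simp only [one_mul]
    rw [(gc_pos (κ := κ) h hh).2.1 x]
    exact div_self (gc_pos (κ := κ) h hh).1.ne'
  obtain ⟨hi1, hc1, hf1⟩ := fub hρ h hh (fun _ => 1) (fun y => ‖fderiv ℝ g y‖ ^ 2)
    continuous_const hgfc _ hgfb
  obtain ⟨hi2, hc2, hf2⟩ := fub hρ h hh (fun x => ‖fderiv ℝ u x‖ ^ 2) (fun _ => 1) hufc
    continuous_const 1 (fun y => by simp)
  obtain ⟨hi3, hc3, hf3⟩ := fub hρ h hh u g hu.continuous hg1.continuous B (fun y => (hB y).1)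
  obtain ⟨hi4, hc4, hf4⟩ := fub hρ h hh (fun x => u x ^ 2) (fun _ => 1) (hu.continuous.pow 2)
    continuous_const 1 (fun y => by simp)
  obtain ⟨hi5, hc5, hf5⟩ := fub hρ h hh (fun _ => 1) g continuous_const hg1.continuous B
    (fun y => (hB y).1)
  obtain ⟨hi6, hc6, hf6⟩ := fub hρ h hh u (fun _ => 1) hu.continuous
    continuous_const 1 (fun y => by simp)
  simp only [hp1, one_mul] at hi1 hf1 hi5 hf5
  simp only [hg1', mul_one] at hi2 hf2 hi4 hf4 hi6 hf6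
  refine ⟨gs h g, hv1, ?_, ?_, ?_⟩
  · rw [hf5, hf6]
  · calc ∫ x, ‖fderiv ℝ (gs h g) x‖ ^ 2 ∂(mu ρ)
        ≤ ∫ x, gs h (fun y => ‖fderiv ℝ g y‖ ^ 2) x ∂(mu ρ) := by
          refine integral_mono_of_nonneg (Filter.Eventually.of_forall fun x => ?_)
            (N8x.cont_int hρ _ hc1)
            (Filter.Eventually.of_forall fun x => gs_grad h hh g hg2 B hB x)
          positivity
      _ = (gc κ h)⁻¹ * ∫ y, ‖fderiv ℝ g y‖ ^ 2 * zz h ρ y := hf1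
      _ ≤ (gc κ h)⁻¹ * ∫ y, 1 / 4 * (pst h ρ (fun x => ‖fderiv ℝ u x‖ ^ 2) y * zz h ρ y) := by
          refine mul_le_mul_of_nonneg_left ?_ (inv_nonneg.mpr hgc.le)
          refine integral_mono hi1 (hi2.const_mul _) fun y => ?_
          simp only
          rw [← mul_assoc]
          exact mul_le_mul_of_nonneg_right (grad4 hρ h hh hc u hu y) (zz_pos hρ h hh y).1.le
      _ = 1 / 4 * ∫ x, ‖fderiv ℝ u x‖ ^ 2 ∂(mu ρ) := by
          rw [integral_const_mul, hf2]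
          ring
  · have h1 : (gc κ h)⁻¹ * ∫ y, pst h ρ (fun x => u x ^ 2) y * zz h ρ y ≤
        (gc κ h)⁻¹ * ∫ y, (h * (pst h ρ (fun x => ‖fderiv ℝ u x‖ ^ 2) y * zz h ρ y) +
          g y * g y * zz h ρ y) := by
      refine mul_le_mul_of_nonneg_left ?_ (inv_nonneg.mpr hgc.le)
      refine integral_mono hi4 ((hi2.const_mul _).add hi3) fun y => ?_
      simp only
      have h2 := var_contr hρ h hh u hu y
      have h3 := (zz_pos hρ h hh y).1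
      have h4 : pst h ρ (fun x => u x ^ 2) y ≤
          h * pst h ρ (fun x => ‖fderiv ℝ u x‖ ^ 2) y + g y * g y := by
        rw [hg]; linarith
      calc _ ≤ (h * pst h ρ (fun x => ‖fderiv ℝ u x‖ ^ 2) y + g y * g y) * zz h ρ y :=
            mul_le_mul_of_nonneg_right h4 h3.le
        _ = _ := by ring
    rw [integral_add (hi2.const_mul _) hi3, integral_const_mul, mul_add] at h1
    rw [hf4, hf3, hf2]
    refine h1.trans (le_of_eq ?_)
    ring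

theorem mean_poincare {ρ : EuclideanSpace ℝ κ → ℝ} (hρ : LC ρ) (C : ℝ)
    (H : ∀ f : EuclideanSpace ℝ κ → ℝ, ContDiff ℝ 1 f → ∃ c : ℝ,
      ∫ x, (f x - c) ^ 2 ∂(mu ρ) ≤ C * ∫ x, ‖fderiv ℝ f x‖ ^ 2 ∂(mu ρ))
    (f : EuclideanSpace ℝ κ → ℝ) (hf : ContDiff ℝ 1 f) (h0 : ∫ x, f x ∂(mu ρ) = 0) :
    ∫ x, f x ^ 2 ∂(mu ρ) ≤ C * ∫ x, ‖fderiv ℝ f x‖ ^ 2 ∂(mu ρ) := by
  obtain ⟨c, hc⟩ := H f hf
  refine le_trans ?_ hc
  have i1 : Integrable (fun x => f x ^ 2) (mu ρ) := N8x.cont_int hρ _ (hf.continuous.pow 2)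
  have i2 := N8x.cont_int hρ _ hf.continuous
  have i3 := N8x.cont_int hρ (fun _ => c ^ 2) continuous_const
  have e1 : ∫ x, (f x - c) ^ 2 ∂(mu ρ) = ∫ x, f x ^ 2 ∂(mu ρ) - 2 * c * ∫ x, f x ∂(mu ρ) +
      ∫ x, c ^ 2 ∂(mu ρ) := by
    have i12 : Integrable (fun x => f x ^ 2 - 2 * c * f x) (mu ρ) := i1.sub (i2.const_mul _)
    rw [← integral_const_mul, ← integral_sub i1 (i2.const_mul _), ← integral_add i12 i3]
    refine integral_congr_ae (Filter.Eventually.of_forall fun x => ?_)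
    simp only
    ring
  rw [e1, h0]
  have : 0 ≤ ∫ x, c ^ 2 ∂(mu ρ) := integral_nonneg fun x => sq_nonneg c
  linarith

/-- **criterion**: Poincare inequality with constant `2 h` -/
theorem crit {ρ : EuclideanSpace ℝ κ → ℝ} (hρ : LC ρ) (h : ℝ) (hh : 0 < h) (hc : PC ρ h)
    (f : EuclideanSpace ℝ κ → ℝ) (hf : ContDiff ℝ 1 f) (h0 : ∫ x, f x ∂(mu ρ) = 0) :
    ∫ x, f x ^ 2 ∂(mu ρ) ≤ 2 * h * ∫ x, ‖fderiv ℝ f x‖ ^ 2 ∂(mu ρ) := by
  obtain ⟨R0, hR0⟩ := hρ.bdd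
  set R := max R0 1 with hR
  have hRpos : 0 < R := lt_of_lt_of_le one_pos (le_max_right _ _)
  have hs : ∀ x, R < ‖x‖ → ρ x = 0 := fun x hx => hR0 x (lt_of_le_of_lt (le_max_left _ _) hx)
  set C0 := 2 * R ^ 2 with hC0
  have hP : ∀ k : ℕ, ∀ f : EuclideanSpace ℝ κ → ℝ, ContDiff ℝ 1 f → ∫ x, f x ∂(mu ρ) = 0 →
      ∫ x, f x ^ 2 ∂(mu ρ) ≤ (2 * h + (C0 - 2 * h) * (1 / 2) ^ k) *
        ∫ x, ‖fderiv ℝ f x‖ ^ 2 ∂(mu ρ) := by
    intro k
    induction k with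
    | zero =>
      intro f hf h0
      have := mean_poincare hρ C0 (fun f hf => ball_poincare hρ R hRpos hs f hf) f hf h0
      simpa using this
    | succ k ih =>
      intro f hf h0
      obtain ⟨v, hv1, hv2, hv3, hv4⟩ := crit_step hρ h hh hc f hf
      set C := 2 * h + (C0 - 2 * h) * (1 / 2) ^ k with hC
      set D := ∫ x, ‖fderiv ℝ f x‖ ^ 2 ∂(mu ρ) with hD
      have hD0 : 0 ≤ D := integral_nonneg fun x => by positivity
      have k1 := ih f hf h0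
      have k2 := ih v hv1 (by rw [hv2, h0])
      have hCpos : 0 ≤ C := by
        have h1 : 0 < C0 := by positivity
        have h2 : (0 : ℝ) < (1 / 2) ^ k := by positivity
        have h3 : ((1 : ℝ) / 2) ^ k ≤ 1 := pow_le_one₀ (by norm_num) (by norm_num)
        have e : C = 2 * h * (1 - (1 / 2) ^ k) + C0 * (1 / 2) ^ k := by rw [hC]; ring
        rw [e]
        have h4 : 0 ≤ 1 - ((1 : ℝ) / 2) ^ k := by linarith
        positivity
      have k3 : ∫ x, v x ^ 2 ∂(mu ρ) ≤ C * (1 / 4 * D) :=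
        k2.trans (mul_le_mul_of_nonneg_left hv3 hCpos)
      have i1 : Integrable (fun x => f x ^ 2) (mu ρ) :=
        N8x.cont_int hρ _ (hf.continuous.pow 2)
      have i2 : Integrable (fun x => v x ^ 2) (mu ρ) :=
        N8x.cont_int hρ _ (hv1.continuous.pow 2)
      have i3 : Integrable (fun x => f x * v x) (mu ρ) :=
        N8x.cont_int hρ _ (hf.continuous.mul hv1.continuous)
      have k4 : ∫ x, f x * v x ∂(mu ρ) ≤ 1 / 4 * (∫ x, f x ^ 2 ∂(mu ρ)) +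
          ∫ x, v x ^ 2 ∂(mu ρ) := by
        rw [← integral_const_mul, ← integral_add (i1.const_mul _) i2]
        refine integral_mono i3 ((i1.const_mul _).add i2) fun x => ?_
        simp only
        nlinarith [sq_nonneg (1 / 2 * f x - v x)]
      have e : 2 * h + (C0 - 2 * h) * (1 / 2) ^ (k + 1) = h + C / 2 := by
        rw [hC, pow_succ]; ring
      rw [e]
      nlinarith
  have hlim : Filter.Tendsto (fun k : ℕ => (2 * h + (C0 - 2 * h) * (1 / 2 : ℝ) ^ k) *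
      ∫ x, ‖fderiv ℝ f x‖ ^ 2 ∂(mu ρ)) Filter.atTop
      (nhds ((2 * h + (C0 - 2 * h) * 0) * ∫ x, ‖fderiv ℝ f x‖ ^ 2 ∂(mu ρ))) := by
    refine Filter.Tendsto.mul_const _ (Filter.Tendsto.const_add _ (Filter.Tendsto.const_mul _ ?_))
    exact tendsto_pow_atTop_nhds_zero_of_lt_one (by norm_num) (by norm_num)
  have := ge_of_tendsto' hlim fun k => hP k f hf h0
  simpa using this

end Pool.Agent.Y506.KS
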