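import Pool.Agent.H59.L.S8.Y506.KS.Pk

/-!
# General position
-/

set_option autoImplicit false
set_option linter.unusedSectionVars false

namespace Pool.Agent.Y506.KS

open MeasureTheory Set
open scoped ENNReal InnerProductSpace
open Pool.Agent.H212R2.KLS (mu Bdd)
open Pool.Agent.H888R2.KT

variable {ι : Type} [Fintype ι] [DecidableEq ι] {m : ι → ℕ} {κ : Type} [Fintype κ]

/-- an injective linear map into an inner product space has the norms of an automorphism -/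
theorem exists_T {H : Type} [NormedAddCommGroup H] [InnerProductSpace ℝ H]
    (Q : EuclideanSpace ℝ κ →ₗ[ℝ] H) (hQ : Function.Injective Q) :
    ∃ T : EuclideanSpace ℝ κ ≃L[ℝ] EuclideanSpace ℝ κ, ∀ x, ‖T x‖ = ‖Q x‖ := by
  have hfr : Module.finrank ℝ (LinearMap.range Q) = Fintype.card κ := by
    rw [LinearMap.finrank_range_of_inj hQ, finrank_euclideanSpace]
  let b := stdOrthonormalBasis ℝ (LinearMap.range Q)
  let e : Fin (Module.finrank ℝ (LinearMap.range Q)) ≃ κ :=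
    (finCongr hfr).trans (Fintype.equivFin κ).symm
  let J : LinearMap.range Q ≃ₗᵢ[ℝ] EuclideanSpace ℝ κ := (b.reindex e).repr
  let T0 : EuclideanSpace ℝ κ ≃ₗ[ℝ] EuclideanSpace ℝ κ :=
    (LinearEquiv.ofInjective Q hQ).trans J.toLinearEquiv
  refine ⟨T0.toContinuousLinearEquiv, fun x => ?_⟩
  have h1 : ‖T0 x‖ = ‖LinearEquiv.ofInjective Q hQ x‖ := by
    simp only [T0]
    exact J.norm_map _
  have h2 : ‖LinearEquiv.ofInjective Q hQ x‖ = ‖Q x‖ := rfl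
  rw [← h2, ← h1]
  rfl

/-- change of variables -/
theorem cov1 (T : EuclideanSpace ℝ κ ≃L[ℝ] EuclideanSpace ℝ κ) : ∃ c : ℝ, 0 < c ∧
    (∀ F : EuclideanSpace ℝ κ → ℝ, ∫ x, F (T x) = c * ∫ y, F y) ∧
    (∀ F : EuclideanSpace ℝ κ → ℝ, Integrable F → Integrable fun x => F (T x)) := by
  obtain ⟨μ, hμ⟩ : ∃ μ : Measure (EuclideanSpace ℝ κ), μ = Measure.map T volume := ⟨_, rfl⟩
  have hH : μ.IsAddHaarMeasure := by rw [hμ]; exact T.isAddHaarMeasure_map volume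
  obtain ⟨a, ha, hc⟩ : ∃ a : NNReal, 0 < a ∧ μ = a • (volume : Measure (EuclideanSpace ℝ κ)) :=
    ⟨_, Measure.addHaarScalarFactor_pos_of_isAddHaarMeasure μ volume,
      Measure.isAddLeftInvariant_eq_smul μ (volume : Measure (EuclideanSpace ℝ κ))⟩
  have hemb : MeasurableEmbedding T := T.toHomeomorph.measurableEmbedding
  refine ⟨a, NNReal.coe_pos.2 ha, fun F => ?_, fun F hF => ?_⟩
  · have h1 := hemb.integral_map (μ := volume) F
    rw [← h1, ← hμ, hc, integral_smul_nnreal_measure]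
    rfl
  · have h1 := hemb.integrable_map_iff (μ := volume) (g := F)
    refine h1.1 ?_
    rw [← hμ, hc]
    exact hF.smul_measure_nnreal

/-- the system in the new coordinates -/
noncomputable def pull (Q : ∀ i, EuclideanSpace ℝ κ →L[ℝ] Xb m i)
    (T : EuclideanSpace ℝ κ ≃L[ℝ] EuclideanSpace ℝ κ) (i : ι) :
    EuclideanSpace ℝ κ →L[ℝ] Xb m i := (Q i).comp T.symm.toContinuousLinearMap

theorem pull_apply (Q : ∀ i, EuclideanSpace ℝ κ →L[ℝ] Xb m i)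
    (T : EuclideanSpace ℝ κ ≃L[ℝ] EuclideanSpace ℝ κ) (i : ι) (x : EuclideanSpace ℝ κ) :
    pull Q T i (T x) = Q i x := by
  simp [pull]

theorem exists_pars {Q : ∀ i, EuclideanSpace ℝ κ →L[ℝ] Xb m i}
    (hQ : ∀ x, (∀ i, Q i x = 0) → x = 0) :
    ∃ T : EuclideanSpace ℝ κ ≃L[ℝ] EuclideanSpace ℝ κ, Pars (pull Q T) := by
  let L : EuclideanSpace ℝ κ →ₗ[ℝ] PiLp 2 (Xb m) :=
    (WithLp.linearEquiv 2 ℝ (∀ i, Xb m i)).symm.toLinearMap ∘ₗ
      (LinearMap.pi fun i => (Q i).toLinearMap)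
  have hL : ∀ x i, L x i = Q i x := fun x i => rfl
  have hinj : Function.Injective L := by
    rw [injective_iff_map_eq_zero]
    intro x hx
    refine hQ x fun i => ?_
    rw [← hL, hx]
    rfl
  obtain ⟨T, hT⟩ := exists_T L hinj
  refine ⟨T, fun y => ?_⟩
  obtain ⟨x, rfl⟩ := T.surjective y
  rw [hT, PiLp.norm_sq_eq_of_L2]
  refine Finset.sum_congr rfl fun i _ => ?_
  rw [pull_apply, hL]

theorem dn_pull (Q : ∀ i, EuclideanSpace ℝ κ →L[ℝ] Xb m i) (φ : ∀ i, Xb m i → ℝ)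
    (T : EuclideanSpace ℝ κ ≃L[ℝ] EuclideanSpace ℝ κ) (x : EuclideanSpace ℝ κ) :
    dn (pull Q T) φ (T x) = dn Q φ x := by
  unfold dn
  simp only [pull_apply]

theorem gen_int {Q : ∀ i, EuclideanSpace ℝ κ →L[ℝ] Xb m i} (hQ : ∀ x, (∀ i, Q i x = 0) → x = 0)
    {φ : ∀ i, Xb m i → ℝ} {R : ℝ} (h : Fam φ R) (g : EuclideanSpace ℝ κ → ℝ) (hg : Continuous g) :
    Integrable fun x => g x * dn Q φ x := by
  obtain ⟨T, hT⟩ := exists_pars hQ
  obtain ⟨c, hc, hc1, hc2⟩ := cov1 T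
  have h1 := hc2 _ (dn_int hT h (fun y => g (T.symm y)) (hg.comp T.symm.continuous))
  refine h1.congr (Filter.Eventually.of_forall fun x => ?_)
  simp only [dn_pull]
  rw [T.symm_apply_apply]

theorem gen_pos {Q : ∀ i, EuclideanSpace ℝ κ →L[ℝ] Xb m i} (hQ : ∀ x, (∀ i, Q i x = 0) → x = 0)
    {φ : ∀ i, Xb m i → ℝ} {R : ℝ} (h : Fam φ R) : 0 < ∫ x, dn Q φ x := by
  obtain ⟨T, hT⟩ := exists_pars hQ
  obtain ⟨c, hc, hc1, hc2⟩ := cov1 T
  have h1 := hc1 (dn (pull Q T) φ)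
  simp only [dn_pull] at h1
  rw [h1]
  exact mul_pos hc (dn_pos hT h)

theorem gen_poincare {Q : ∀ i, EuclideanSpace ℝ κ →L[ℝ] Xb m i}
    (hQ : ∀ x, (∀ i, Q i x = 0) → x = 0) {φ : ∀ i, Xb m i → ℝ} {R : ℝ} (hR : 0 < R) (h : Fam φ R)
    (hev : ∀ i s, φ i (-s) = φ i s) (r : ℝ) (hr : 0 < r)
    (hvar : ∀ i (c : Xb m i), r * ‖c‖ ^ 2 * ∫ s, φ i s ≤ ∫ s, ⟪c, s⟫_ℝ ^ 2 * φ i s)
    (q : ℕ) (hq : ∑ i, m i ≤ Fintype.card κ + q) (s : ℝ) (hs : 0 < s)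
    (hcov : ∀ e : EuclideanSpace ℝ κ, ∫ x, ⟪e, x⟫_ℝ ^ 2 * dn Q φ x ≤
      s * ‖e‖ ^ 2 * ∫ x, dn Q φ x)
    (f : EuclideanSpace ℝ κ → ℝ) (hf : ContDiff ℝ 1 f) (h0 : ∫ x, f x * dn Q φ x = 0) :
    ∫ x, f x ^ 2 * dn Q φ x ≤ 1376256 * ((q : ℝ) + 2) ^ 4 * (R ^ 2 / r) * s *
      ∫ x, ‖fderiv ℝ f x‖ ^ 2 * dn Q φ x := by
  obtain ⟨T, hT⟩ := exists_pars hQ
  obtain ⟨c, hc, hc1, hc2⟩ := cov1 T
  have hL := dn_LC hT h
  obtain ⟨k, hk⟩ : ∃ k : ℕ, k = Module.finrank ℝ (Fc (pull Q T)) := ⟨_, rfl⟩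
  have hkq : (k : ℝ) ≤ q := by
    have h1 := finrank_Fc hT
    have : k ≤ q := by omega
    exact_mod_cast this
  let g : EuclideanSpace ℝ κ → ℝ := fun y => f (T.symm y)
  have hgd : ContDiff ℝ 1 g := hf.comp T.symm.contDiff
  have hgT : ∀ x, g (T x) = f x := fun x => by simp only [g]; rw [T.symm_apply_apply]
  have hg0 : ∫ y, g y ∂(mu (dn (pull Q T) φ)) = 0 := by
    rw [int_mu' hL.nonneg hL.meas]
    have h1 := hc1 fun y => g y * dn (pull Q T) φ y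
    simp only [dn_pull, hgT] at h1
    rw [h0] at h1
    rcases mul_eq_zero.1 h1.symm with h2 | h2
    · exact absurd h2 hc.ne'
    · exact h2
  have hP := pars_poincare hT hR h g hgd hg0
  rw [int_mu' hL.nonneg hL.meas, int_mu' hL.nonneg hL.meas, ← hk] at hP
  have e1 := hc1 fun y => g y ^ 2 * dn (pull Q T) φ y
  have e2 := hc1 fun y => ‖fderiv ℝ g y‖ ^ 2 * dn (pull Q T) φ y
  simp only [dn_pull, hgT] at e1 e2
  -- the gradients
  have hgrad : ∀ x, ‖fderiv ℝ g (T x)‖ ^ 2 ≤ 2688 * ((k : ℝ) + 2) ^ 2 * s / r *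
      ‖fderiv ℝ f x‖ ^ 2 := by
    intro x
    have hfd : fderiv ℝ g (T x) = (fderiv ℝ f x).comp T.symm.toContinuousLinearMap := by
      have h1 : HasFDerivAt g ((fderiv ℝ f (T.symm (T x))).comp T.symm.toContinuousLinearMap)
          (T x) :=
        ((hf.differentiable (by norm_num)) (T.symm (T x))).hasFDerivAt.comp (T x)
          T.symm.hasFDerivAt
      rw [h1.fderiv, T.symm_apply_apply]
    obtain ⟨a, ha⟩ : ∃ a : EuclideanSpace ℝ κ, a =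
      (InnerProductSpace.toDual ℝ (EuclideanSpace ℝ κ)).symm (fderiv ℝ f x) := ⟨_, rfl⟩
    obtain ⟨w, hw⟩ : ∃ w : EuclideanSpace ℝ κ, w =
      (InnerProductSpace.toDual ℝ (EuclideanSpace ℝ κ)).symm (fderiv ℝ g (T x)) := ⟨_, rfl⟩
    have ha1 : ∀ y, ⟪a, y⟫_ℝ = fderiv ℝ f x y := fun y => by
      rw [ha, InnerProductSpace.toDual_symm_apply]
    have hw1 : ∀ y, ⟪w, y⟫_ℝ = fderiv ℝ g (T x) y := fun y => by
      rw [hw, InnerProductSpace.toDual_symm_apply]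
    have ha2 : ‖a‖ = ‖fderiv ℝ f x‖ := by rw [ha, LinearIsometryEquiv.norm_map]
    have hw2 : ‖w‖ = ‖fderiv ℝ g (T x)‖ := by rw [hw, LinearIsometryEquiv.norm_map]
    have hwa : ∀ y, ⟪w, T y⟫_ℝ = ⟪a, y⟫_ℝ := fun y => by
      rw [hw1, ha1, hfd]
      simp
    rw [← ha2, ← hw2]
    rcases eq_or_ne a 0 with h3 | h3
    · have hw0 : w = 0 := by
        rw [← inner_self_eq_zero (𝕜 := ℝ)]
        have h4 := hwa (T.symm w)
        rw [T.apply_symm_apply, h3, inner_zero_left] at h4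
        exact h4
      rw [h3, hw0]
      simp
    · have hapos : 0 < ‖a‖ := norm_pos_iff.2 h3
      have hV : ∫ y, ⟪w, y⟫_ℝ ^ 2 * dn (pull Q T) φ y ≤ (s * ‖a‖ ^ 2) *
          ∫ y, dn (pull Q T) φ y := by
        have e3 := hc1 fun y => ⟪w, y⟫_ℝ ^ 2 * dn (pull Q T) φ y
        have e4 := hc1 fun y => dn (pull Q T) φ y
        simp only [dn_pull, hwa] at e3 e4
        have h5 := hcov a
        rw [e3, e4] at h5
        have h6 : c * ∫ y, ⟪w, y⟫_ℝ ^ 2 * dn (pull Q T) φ y ≤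
            c * ((s * ‖a‖ ^ 2) * ∫ y, dn (pull Q T) φ y) := by
          calc _ ≤ _ := h5
            _ = _ := by ring
        exact le_of_mul_le_mul_left h6 hc
      have h7 := lowerP hT h hev r hr.le hvar w (s * ‖a‖ ^ 2) (by positivity) hV
      rw [← hk] at h7
      calc ‖w‖ ^ 2 = (r * ‖w‖ ^ 2) / r := by field_simp
        _ ≤ (2688 * ((k : ℝ) + 2) ^ 2 * (s * ‖a‖ ^ 2)) / r := by gcongr
        _ = _ := by ring
  have hc3 : Continuous fun x => ‖fderiv ℝ f x‖ ^ 2 :=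
    (hf.continuous_fderiv (by norm_num)).norm.pow 2
  have hc4 : Continuous fun x => ‖fderiv ℝ g (T x)‖ ^ 2 :=
    (((hgd.continuous_fderiv (by norm_num)).comp T.continuous).norm.pow 2)
  have i1 := gen_int hQ h _ hc3
  have i2 := gen_int hQ h _ hc4
  have hnn : ∀ x, 0 ≤ dn Q φ x := fun x => Finset.prod_nonneg fun i _ => h.nonneg i _
  have e5 : ∫ x, ‖fderiv ℝ g (T x)‖ ^ 2 * dn Q φ x ≤ 2688 * ((k : ℝ) + 2) ^ 2 * s / r *
      ∫ x, ‖fderiv ℝ f x‖ ^ 2 * dn Q φ x := by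
    rw [← integral_const_mul]
    refine integral_mono i2 (i1.const_mul _) fun x => ?_
    simp only
    rw [← mul_assoc]
    exact mul_le_mul_of_nonneg_right (hgrad x) (hnn x)
  have hE : 0 ≤ ∫ x, ‖fderiv ℝ f x‖ ^ 2 * dn Q φ x :=
    integral_nonneg fun x => mul_nonneg (sq_nonneg _) (hnn x)
  calc ∫ x, f x ^ 2 * dn Q φ x = c * ∫ y, g y ^ 2 * dn (pull Q T) φ y := e1
    _ ≤ c * (512 * ((k : ℝ) + 2) ^ 2 * R ^ 2 *
        ∫ y, ‖fderiv ℝ g y‖ ^ 2 * dn (pull Q T) φ y) := mul_le_mul_of_nonneg_left hP hc.le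
    _ = 512 * ((k : ℝ) + 2) ^ 2 * R ^ 2 * ∫ x, ‖fderiv ℝ g (T x)‖ ^ 2 * dn Q φ x := by
        rw [e2]; ring
    _ ≤ 512 * ((k : ℝ) + 2) ^ 2 * R ^ 2 * (2688 * ((k : ℝ) + 2) ^ 2 * s / r *
        ∫ x, ‖fderiv ℝ f x‖ ^ 2 * dn Q φ x) := mul_le_mul_of_nonneg_left e5 (by positivity)
    _ = 1376256 * ((k : ℝ) + 2) ^ 4 * (R ^ 2 / r) * s *
        ∫ x, ‖fderiv ℝ f x‖ ^ 2 * dn Q φ x := by ring
    _ ≤ _ := by
        refine mul_le_mul_of_nonneg_right ?_ hE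
        have h8 : ((k : ℝ) + 2) ^ 4 ≤ ((q : ℝ) + 2) ^ 4 :=
          pow_le_pow_left₀ (by positivity) (by linarith) 4
        gcongr

end Pool.Agent.Y506.KS
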