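import Pool.Agent.H59.L.S8.Y506.KS.Upc
import Pool.Agent.H59.L.S8.H888R2.KC.T3

/-!
# Lower bound for the covariance of `∏ φ i (P i x)` in Parseval position (even case)
-/

set_option autoImplicit false
set_option linter.unusedSectionVars false

namespace Pool.Agent.Y506.KS

open MeasureTheory Set
open scoped ENNReal InnerProductSpace
open Pool.Agent.H212R2.KLS (mu Bdd)
open Pool.Agent.H888R2.KT

variable {ι : Type} [Fintype ι] [DecidableEq ι] {m : ι → ℕ} {κ : Type} [Fintype κ]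

theorem exp_pt (y : ℝ) : ENNReal.ofReal (Real.exp y) ≤
    ∑' k : ℕ, (if (k : ℝ) ≤ |y| then ENNReal.ofReal (Real.exp (k + 1)) else 0) := by
  have h1 : ((⌊|y|⌋₊ : ℕ) : ℝ) ≤ |y| := Nat.floor_le (abs_nonneg _)
  have h2 : |y| < ⌊|y|⌋₊ + 1 := Nat.lt_floor_add_one _
  have h3 := ENNReal.le_tsum (f := fun k : ℕ => (if (k : ℝ) ≤ |y| then
    ENNReal.ofReal (Real.exp (k + 1)) else 0)) ⌊|y|⌋₊
  refine le_trans ?_ h3
  simp only [h1, if_true]
  exact ENNReal.ofReal_le_ofReal (Real.exp_le_exp.2 (by linarith [le_abs_self y]))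

theorem exp_mom (ρ : EuclideanSpace ℝ κ → ℝ) (h0 : ∀ x, 0 ≤ ρ x) (hm : Measurable ρ)
    (hlc : ∀ x y : EuclideanSpace ℝ κ, ∀ t : ℝ, 0 < t → t < 1 →
      ρ x ^ (1 - t) * ρ y ^ t ≤ ρ ((1 - t) • x + t • y)) (h1 : mu ρ univ = 1)
    (e : EuclideanSpace ℝ κ) (s : ℝ) (hs : 0 < s)
    (hint : Integrable (fun x => ⟪e, x⟫_ℝ ^ 2) (mu ρ)) (hmom : ∫ x, ⟪e, x⟫_ℝ ^ 2 ∂(mu ρ) ≤ s) :
    ∫⁻ x, ENNReal.ofReal (Real.exp ((8 * Real.sqrt s)⁻¹ * ⟪e, x⟫_ℝ)) ∂(mu ρ) ≤ 9 := by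
  have hq0 : 0 < Real.sqrt s := Real.sqrt_pos.2 hs
  have hlm : Measurable fun x : EuclideanSpace ℝ κ => |(8 * Real.sqrt s)⁻¹ * ⟪e, x⟫_ℝ| := by
    have : Continuous fun x : EuclideanSpace ℝ κ => |(8 * Real.sqrt s)⁻¹ * ⟪e, x⟫_ℝ| := by
      fun_prop
    exact this.measurable
  have hms : ∀ k : ℕ, MeasurableSet {x : EuclideanSpace ℝ κ |
      (k : ℝ) ≤ |(8 * Real.sqrt s)⁻¹ * ⟪e, x⟫_ℝ|} := fun k =>
    measurableSet_le measurable_const hlm
  have hset : ∀ k : ℕ, {x : EuclideanSpace ℝ κ | (k : ℝ) ≤ |(8 * Real.sqrt s)⁻¹ * ⟪e, x⟫_ℝ|} =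
      {x | 8 * Real.sqrt s * k ≤ |⟪e, x⟫_ℝ|} := by
    intro k
    ext x
    simp only [mem_ofPred_eq]
    rw [abs_mul, abs_of_pos (by positivity : 0 < (8 * Real.sqrt s)⁻¹), inv_mul_eq_div,
      le_div_iff₀ (by positivity), mul_comm]
  calc ∫⁻ x, ENNReal.ofReal (Real.exp ((8 * Real.sqrt s)⁻¹ * ⟪e, x⟫_ℝ)) ∂(mu ρ)
      ≤ ∫⁻ x, ∑' k : ℕ, (if (k : ℝ) ≤ |(8 * Real.sqrt s)⁻¹ * ⟪e, x⟫_ℝ| then
          ENNReal.ofReal (Real.exp (k + 1)) else 0) ∂(mu ρ) := lintegral_mono fun x => exp_pt _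
    _ = ∑' k : ℕ, ∫⁻ x, (if (k : ℝ) ≤ |(8 * Real.sqrt s)⁻¹ * ⟪e, x⟫_ℝ| then
          ENNReal.ofReal (Real.exp (k + 1)) else 0) ∂(mu ρ) := by
        rw [lintegral_tsum]
        intro k
        exact (Measurable.ite (hms k) measurable_const measurable_const).aemeasurable
    _ ≤ ∑' k : ℕ, ENNReal.ofReal (2 * Real.exp 1 * (3 / 8) ^ k) := by
        refine ENNReal.tsum_le_tsum fun k => ?_
        have e1 : ∀ x : EuclideanSpace ℝ κ, (if (k : ℝ) ≤ |(8 * Real.sqrt s)⁻¹ * ⟪e, x⟫_ℝ| then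
            ENNReal.ofReal (Real.exp (k + 1)) else 0) =
            {x : EuclideanSpace ℝ κ | (k : ℝ) ≤ |(8 * Real.sqrt s)⁻¹ * ⟪e, x⟫_ℝ|}.indicator
              (fun _ => ENNReal.ofReal (Real.exp (k + 1))) x := by
          intro x
          rfl
        simp only [e1]
        rw [lintegral_indicator_const (hms k), hset]
        refine (mul_le_mul' le_rfl (Pool.Agent.H888R2.KC.lin_tail ρ h0 hm hlc h1 e s hs hint hmom
          (8 * Real.sqrt s * k) (by positivity))).trans ?_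
        have e2 : 8 * Real.sqrt s * k / (4 * Real.sqrt s) = 2 * k := by
          field_simp
          ring
        have h2 : (2 : ℝ≥0∞) = ENNReal.ofReal 2 := by norm_num
        rw [e2, h2, ← ENNReal.ofReal_mul (by norm_num), ← ENNReal.ofReal_mul (Real.exp_pos _).le]
        refine ENNReal.ofReal_le_ofReal ?_
        have e3 : Real.exp (k + 1) * (2 * Real.exp (-(2 * k))) = 2 * Real.exp 1 *
            (Real.exp (-1)) ^ k := by
          rw [← Real.exp_nat_mul]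
          have : Real.exp (k + 1) * (2 * Real.exp (-(2 * k))) =
            2 * (Real.exp (k + 1) * Real.exp (-(2 * k))) := by ring
          rw [this, mul_assoc, ← Real.exp_add, ← Real.exp_add]
          congr 2
          ring
        rw [e3]
        have e4 : Real.exp (-1) ≤ 3 / 8 := by
          rw [Real.exp_neg, inv_le_comm₀ (Real.exp_pos _) (by norm_num)]
          have := Real.exp_one_gt_d9
          linarith
        gcongr
    _ = ENNReal.ofReal (∑' k : ℕ, 2 * Real.exp 1 * (3 / 8) ^ k) := by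
        rw [ENNReal.ofReal_tsum_of_nonneg (fun k => by positivity)
          ((summable_geometric_of_lt_one (by norm_num) (by norm_num)).mul_left _)]
    _ ≤ 9 := by
        rw [tsum_mul_left, tsum_geometric_of_lt_one (by norm_num) (by norm_num)]
        have h9 : (9 : ℝ≥0∞) = ENNReal.ofReal 9 := by norm_num
        rw [h9]
        refine ENNReal.ofReal_le_ofReal ?_
        have := exp1_le
        norm_num
        linarith

theorem dn_LC {P : ∀ i, EuclideanSpace ℝ κ →L[ℝ] Xb m i} (hP : Pars P) {φ : ∀ i, Xb m i → ℝ}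
    {R : ℝ} (h : Fam φ R) : LC (dn P φ) := by
  have hz : ∀ x, rh P φ x 0 = ENNReal.ofReal (dn P φ x) := rh_zero h
  obtain ⟨C, hC, hC'⟩ := hh_fin hP h (fun _ => 1) continuous_const
  obtain ⟨δ, r, hδ, hr, hlow⟩ := hh_low hP h (fun _ => 1) continuous_const fun _ => one_pos
  have h1 := hC' 0
  have h2 := hlow 0 (by rw [norm_zero]; exact hr)
  simp only [hz, ENNReal.ofReal_one, mul_one] at h1 h2
  have hu : mu (dn P φ) univ = ∫⁻ x, ENNReal.ofReal (dn P φ x) := by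
    unfold mu
    rw [withDensity_apply _ MeasurableSet.univ, setLIntegral_univ]
  have hnn : ∀ x, 0 ≤ dn P φ x := fun x => Finset.prod_nonneg fun i _ => h.nonneg i _
  refine ⟨hnn, ?_, ?_, ?_, ?_, ?_⟩
  · exact Finset.measurable_prod _ fun i _ => (h.meas i).comp (P i).continuous.measurable
  · intro x y t ht0 ht1
    unfold dn
    rw [← Real.finsetProd_rpow _ _ fun i _ => h.nonneg i _,
      ← Real.finsetProd_rpow _ _ fun i _ => h.nonneg i _, ← Finset.prod_mul_distrib]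
    refine Finset.prod_le_prod (fun i _ => mul_nonneg (Real.rpow_nonneg (h.nonneg _ _) _)
      (Real.rpow_nonneg (h.nonneg _ _) _)) fun i _ => ?_
    rw [map_add, map_smul, map_smul]
    exact h.logc i _ _ t ht0 ht1
  · refine ⟨Real.sqrt ((Fintype.card ι : ℝ) * R ^ 2), fun x hx => ?_⟩
    have h3 := rh_supp hP h x 0 ((Real.sqrt_lt' ((Real.sqrt_nonneg _).trans_lt hx)).1 hx)
    rw [hz, ENNReal.ofReal_eq_zero] at h3
    exact le_antisymm h3 (hnn x)
  · rw [hu]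
    exact (h1.trans_lt (lt_top_iff_ne_top.2 hC)).ne
  · intro h0
    rw [h0] at hu
    rw [← hu] at h2
    simp only [Measure.coe_zero, Pi.zero_apply] at h2
    exact absurd h2 (not_le.2 (ENNReal.ofReal_pos.2 hδ))

theorem dn_int {P : ∀ i, EuclideanSpace ℝ κ →L[ℝ] Xb m i} (hP : Pars P) {φ : ∀ i, Xb m i → ℝ}
    {R : ℝ} (h : Fam φ R) (g : EuclideanSpace ℝ κ → ℝ) (hg : Continuous g) :
    Integrable fun x => g x * dn P φ x := by
  have hL := dn_LC hP h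
  have h1 := N8x.cont_int hL g hg
  unfold mu at h1
  have hmm : Measurable fun x => ENNReal.ofReal (dn P φ x) :=
    ENNReal.measurable_ofReal.comp hL.meas
  rw [integrable_withDensity_iff_integrable_smul' hmm
    (Filter.Eventually.of_forall fun x => ENNReal.ofReal_lt_top)] at h1
  refine h1.congr (Filter.Eventually.of_forall fun x => ?_)
  simp only [smul_eq_mul]
  rw [ENNReal.toReal_ofReal (hL.nonneg x), mul_comm]

theorem dn_pos {P : ∀ i, EuclideanSpace ℝ κ →L[ℝ] Xb m i} (hP : Pars P) {φ : ∀ i, Xb m i → ℝ}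
    {R : ℝ} (h : Fam φ R) : 0 < ∫ x, dn P φ x := by
  have hL := dn_LC hP h
  have h1 := dn_int hP h (fun _ => 1) continuous_const
  simp only [one_mul] at h1
  have h2 : ENNReal.ofReal (∫ x, dn P φ x) = mu (dn P φ) univ := by
    rw [ofReal_integral_eq_lintegral_ofReal h1 (Filter.Eventually.of_forall hL.nonneg)]
    unfold mu
    rw [withDensity_apply _ MeasurableSet.univ, setLIntegral_univ]
  have h3 : mu (dn P φ) univ ≠ 0 := by
    rw [Measure.measure_univ_ne_zero]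
    exact hL.ne
  rw [← h2] at h3
  exact ENNReal.ofReal_pos.1 (pos_iff_ne_zero.2 h3)

theorem int_mu' {ρ : EuclideanSpace ℝ κ → ℝ} (h0 : ∀ x, 0 ≤ ρ x) (hm : Measurable ρ)
    (g : EuclideanSpace ℝ κ → ℝ) : ∫ x, g x ∂(mu ρ) = ∫ x, g x * ρ x := by
  unfold mu
  have hmm : Measurable fun x => ENNReal.ofReal (ρ x) := ENNReal.measurable_ofReal.comp hm
  rw [integral_withDensity_eq_integral_toReal_smul hmm
    (Filter.Eventually.of_forall fun x => ENNReal.ofReal_lt_top)]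
  refine integral_congr_ae (Filter.Eventually.of_forall fun x => ?_)
  simp only [smul_eq_mul]
  rw [ENNReal.toReal_ofReal (h0 x), mul_comm]

/-- exponential moments for `∏ φ i (P i x)` -/
theorem dn_exp {P : ∀ i, EuclideanSpace ℝ κ →L[ℝ] Xb m i} (hP : Pars P) {φ : ∀ i, Xb m i → ℝ}
    {R : ℝ} (h : Fam φ R) (w : EuclideanSpace ℝ κ) (V : ℝ) (hV : 0 < V)
    (hw : ∫ x, ⟪w, x⟫_ℝ ^ 2 * dn P φ x ≤ V * ∫ x, dn P φ x) :
    ∫⁻ x, ENNReal.ofReal (dn P φ x) * ENNReal.ofReal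
      (Real.exp ((8 * Real.sqrt V)⁻¹ * ⟪w, x⟫_ℝ)) ≤ 9 * ∫⁻ x, ENNReal.ofReal (dn P φ x) := by
  have hL := dn_LC hP h
  have hM := dn_pos hP h
  have hi := dn_int hP h (fun _ => 1) continuous_const
  simp only [one_mul] at hi
  obtain ⟨M, hMe⟩ : ∃ M, M = ∫ x, dn P φ x := ⟨_, rfl⟩
  rw [← hMe] at hM hw
  let ρ : EuclideanSpace ℝ κ → ℝ := fun x => M⁻¹ * dn P φ x
  have h0 : ∀ x, 0 ≤ ρ x := fun x => mul_nonneg (inv_nonneg.2 hM.le) (hL.nonneg x)
  have hm : Measurable ρ := measurable_const.mul hL.meas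
  have hlc : ∀ x y : EuclideanSpace ℝ κ, ∀ t : ℝ, 0 < t → t < 1 →
      ρ x ^ (1 - t) * ρ y ^ t ≤ ρ ((1 - t) • x + t • y) := by
    intro x y t ht0 ht1
    simp only [ρ]
    have hi0 : 0 < M⁻¹ := inv_pos.2 hM
    rw [Real.mul_rpow hi0.le (hL.nonneg _), Real.mul_rpow hi0.le (hL.nonneg _)]
    calc _ = (M⁻¹ ^ (1 - t) * M⁻¹ ^ t) * (dn P φ x ^ (1 - t) * dn P φ y ^ t) := by ring
      _ = M⁻¹ * (dn P φ x ^ (1 - t) * dn P φ y ^ t) := by
          rw [← Real.rpow_add hi0]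
          norm_num
      _ ≤ _ := mul_le_mul_of_nonneg_left (hL.logc x y t ht0 ht1) hi0.le
  have e1 : ∀ x, ENNReal.ofReal (ρ x) = ENNReal.ofReal M⁻¹ * ENNReal.ofReal (dn P φ x) := by
    intro x
    simp only [ρ]
    rw [ENNReal.ofReal_mul (inv_nonneg.2 hM.le)]
  have hmd : Measurable fun x => ENNReal.ofReal (dn P φ x) :=
    ENNReal.measurable_ofReal.comp hL.meas
  have hmass : ∫⁻ x, ENNReal.ofReal (dn P φ x) = ENNReal.ofReal M := by
    rw [hMe, ofReal_integral_eq_lintegral_ofReal hi (Filter.Eventually.of_forall hL.nonneg)]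
  have h1 : mu ρ univ = 1 := by
    unfold mu
    rw [withDensity_apply _ MeasurableSet.univ, setLIntegral_univ]
    simp only [e1]
    rw [lintegral_const_mul _ hmd, hmass, ← ENNReal.ofReal_mul (inv_nonneg.2 hM.le),
      inv_mul_cancel₀ hM.ne', ENNReal.ofReal_one]
  have hL' : LC ρ := by
    refine ⟨h0, hm, hlc, ?_, ?_, ?_⟩
    · obtain ⟨R0, hR0⟩ := hL.bdd
      exact ⟨R0, fun x hx => by simp only [ρ]; rw [hR0 x hx, mul_zero]⟩
    · rw [h1]; exact ENNReal.one_ne_top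
    · intro h2
      rw [h2] at h1
      simp at h1
  have hint := N8x.cont_int hL' (fun x => ⟪w, x⟫_ℝ ^ 2) (by fun_prop)
  have hmom : ∫ x, ⟪w, x⟫_ℝ ^ 2 ∂(mu ρ) ≤ V := by
    rw [int_mu' h0 hm]
    have : ∀ x, ⟪w, x⟫_ℝ ^ 2 * ρ x = M⁻¹ * (⟪w, x⟫_ℝ ^ 2 * dn P φ x) := fun x => by
      simp only [ρ]; ring
    simp only [this]
    rw [integral_const_mul, inv_mul_le_iff₀ hM, mul_comm]
    exact hw
  have h2 := exp_mom ρ h0 hm hlc h1 w V hV hint hmom
  have hme : Measurable fun x : EuclideanSpace ℝ κ => ENNReal.ofReal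
      (Real.exp ((8 * Real.sqrt V)⁻¹ * ⟪w, x⟫_ℝ)) := by
    have : Continuous fun x : EuclideanSpace ℝ κ =>
      Real.exp ((8 * Real.sqrt V)⁻¹ * ⟪w, x⟫_ℝ) := by fun_prop
    exact ENNReal.measurable_ofReal.comp this.measurable
  unfold mu at h2
  have hmρ : Measurable fun x => ENNReal.ofReal (ρ x) := ENNReal.measurable_ofReal.comp hm
  rw [lintegral_withDensity_eq_lintegral_mul _ hmρ hme] at h2
  simp only [Pi.mul_apply, e1, mul_assoc] at h2
  have hmm2 : Measurable fun x => ENNReal.ofReal (dn P φ x) * ENNReal.ofReal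
    (Real.exp ((8 * Real.sqrt V)⁻¹ * ⟪w, x⟫_ℝ)) := hmd.mul hme
  rw [lintegral_const_mul _ hmm2] at h2
  rw [hmass]
  have h3 := mul_le_mul' (le_refl (ENNReal.ofReal M)) h2
  rw [← mul_assoc, ← ENNReal.ofReal_mul hM.le, mul_inv_cancel₀ hM.ne', ENNReal.ofReal_one,
    one_mul] at h3
  rw [mul_comm (9 : ℝ≥0∞)]
  exact h3

theorem lowerP {P : ∀ i, EuclideanSpace ℝ κ →L[ℝ] Xb m i} (hP : Pars P) {φ : ∀ i, Xb m i → ℝ}
    {R : ℝ} (h : Fam φ R) (hev : ∀ i s, φ i (-s) = φ i s) (r : ℝ) (hr : 0 ≤ r)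
    (hvar : ∀ i (c : Xb m i), r * ‖c‖ ^ 2 * ∫ s, φ i s ≤ ∫ s, ⟪c, s⟫_ℝ ^ 2 * φ i s)
    (w : EuclideanSpace ℝ κ) (V : ℝ) (hV : 0 < V)
    (hw : ∫ x, ⟪w, x⟫_ℝ ^ 2 * dn P φ x ≤ V * ∫ x, dn P φ x) :
    r * ‖w‖ ^ 2 ≤ 2688 * ((Module.finrank ℝ (Fc P) : ℝ) + 2) ^ 2 * V := by
  obtain ⟨q, hq⟩ : ∃ q : ℕ, q = Module.finrank ℝ (Fc P) := ⟨_, rfl⟩
  have hsV : 0 < Real.sqrt V := Real.sqrt_pos.2 hV
  obtain ⟨s0, hs0⟩ : ∃ s0 : ℝ, s0 = (8 * Real.sqrt V)⁻¹ := ⟨_, rfl⟩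
  have hs0p : 0 < s0 := by rw [hs0]; positivity
  have hs0s : s0 ^ 2 * (64 * V) = 1 := by
    rw [hs0, inv_pow, mul_pow, Real.sq_sqrt hV.le]
    field_simp
    norm_num
  have hexp := dn_exp hP h w V hV hw
  rw [← hs0] at hexp
  -- the linear functional
  let l : EuclideanSpace ℝ κ →L[ℝ] ℝ := s0 • innerSL ℝ w
  have hl : ∀ x, l x = s0 * ⟪w, x⟫_ℝ := fun x => by
    simp only [l]
    rw [_root_.smul_apply, innerSL_apply_apply, smul_eq_mul]
  have hev' : ∀ (x : EuclideanSpace ℝ κ) (z : Fc P), rh P φ (-x) (-z) = rh P φ x z := by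
    intro x z
    unfold rh
    refine Finset.prod_congr rfl fun i _ => ?_
    have : P i (-x) + ((-z : Fc P) : ∀ i, Xb m i) i = -(P i x + (z : ∀ i, Xb m i) i) := by
      have e : ((-z : Fc P) : ∀ i, Xb m i) i = -((z : ∀ i, Xb m i) i) := rfl
      rw [e, map_neg]
      abel
    rw [this, hev]
  obtain ⟨C, hC, hC'⟩ := hh_fin hP h (fun _ => 1) continuous_const
  obtain ⟨C2, hC2, hC2'⟩ := hh_fin hP h (fun x => Real.exp (l x)) (Real.continuous_exp.comp
    l.continuous)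
  obtain ⟨δ, ra, hδ, hra, hlow⟩ := hh_low hP h (fun x => Real.exp (l x))
    (Real.continuous_exp.comp l.continuous) fun _ => Real.exp_pos _
  simp only [ENNReal.ofReal_one, mul_one] at hC'
  have hz : ∀ x, rh P φ x 0 = ENNReal.ofReal (dn P φ x) := rh_zero h
  obtain ⟨ν, hν⟩ : ∃ ν : Measure (Fc P), ν.IsAddHaarMeasure := ⟨Measure.addHaar, inferInstance⟩
  have ht0 : (0 : ℝ) < ((q : ℝ) + 1) / ((q : ℝ) + 2) := by positivity
  have ht1 : ((q : ℝ) + 1) / ((q : ℝ) + 2) < 1 := by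
    rw [div_lt_one (by positivity)]; linarith
  obtain ⟨θ, hθ⟩ := lower volume ν l (rh P φ) (rh_meas P h) (rh_lce P h) hev'
    (((q : ℝ) + 1) / ((q : ℝ) + 2)) ht0 ht1
    (fun z => ((hC' z).trans_lt (lt_top_iff_ne_top.2 hC)).ne)
    (fun z => ((hC2' z).trans_lt (lt_top_iff_ne_top.2 hC2)).ne) δ ra hδ hra hlow 9 (by
      unfold hh
      simp only [hz, hl]
      exact hexp)
  obtain ⟨t, ht⟩ := exists_t hP θ
  have htP : ∀ x, ∑ i, ⟪t i, P i x⟫_ℝ = 0 := by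
    intro x
    have h1 := ht x 0
    rw [map_zero] at h1
    rw [← h1]
    refine Finset.sum_congr rfl fun i _ => ?_
    have : ((0 : Fc P) : ∀ i, Xb m i) i = 0 := rfl
    rw [this, add_zero]
  obtain ⟨c, hc0, hc1, hcov⟩ := cov hP ν
  let ψ : ∀ i, Xb m i → ℝ := fun i s => ⟪s0 • P i w - t i, s⟫_ℝ
  have hψc : ∀ i, Continuous (ψ i) := fun i => by
    simp only [ψ]
    fun_prop
  have hz0 : ∀ i, ∫ s, ψ i s * φ i s = 0 := by
    intro i
    have h1 : ∫ s, ψ i (-s) * φ i (-s) = ∫ s, ψ i s * φ i s :=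
      integral_neg_eq_self (fun s => ψ i s * φ i s) volume
    have h2 : ∀ s, ψ i (-s) * φ i (-s) = -(ψ i s * φ i s) := fun s => by
      simp only [ψ]
      rw [inner_neg_right, hev]
      ring
    simp only [h2] at h1
    rw [integral_neg] at h1
    linarith
  have ha : ∀ i, (r * ‖s0 • P i w - t i‖ ^ 2) * ∫ s, φ i s ≤ ∫ s, ψ i s ^ 2 * φ i s :=
    fun i => hvar i _
  have hlo := base_lower (fun i => (volume : Measure (Xb m i))) φ ψ h.nonneg h.int0
    (fun i => h.int i _ (hψc i)) (fun i => h.int i _ ((hψc i).pow 2)) hz0 _ ha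
  have hmass := base_mass (fun i => (volume : Measure (Xb m i))) φ h.nonneg h.int0
  have hPp : 0 < ∏ i, ∫ s, φ i s := Finset.prod_pos fun i _ => h.ipos i
  have hm1 : Measurable fun s : ∀ i, Xb m i => ∏ i, ENNReal.ofReal (φ i (s i)) :=
    Finset.measurable_prod _ fun i _ => ENNReal.measurable_ofReal.comp
      ((h.meas i).comp (measurable_pi_apply i))
  have hm2 : Measurable fun s : ∀ i, Xb m i => ENNReal.ofReal ((∑ i, ψ i (s i)) ^ 2) :=
    ENNReal.measurable_ofReal.comp ((Finset.measurable_sum _ fun i _ =>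
      (hψc i).measurable.comp (measurable_pi_apply i)).pow_const 2)
  have hA : ∫⁻ z, hh volume (rh P φ) z ∂ν = c * ENNReal.ofReal (∏ i, ∫ s, φ i s) := by
    rw [← hmass, ← hcov _ hm1]
    refine lintegral_congr fun z => lintegral_congr fun x => ?_
    unfold rh
    refine Finset.prod_congr rfl fun i _ => ?_
    rw [Psi_apply]
  have hB : ∫⁻ z, ∫⁻ x, ENNReal.ofReal ((l x - θ z) ^ 2) * rh P φ x z
      ∂(volume : Measure (EuclideanSpace ℝ κ)) ∂ν =
      c * ∫⁻ s : ∀ i, Xb m i, ENNReal.ofReal ((∑ i, ψ i (s i)) ^ 2) *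
        ∏ k, ENNReal.ofReal (φ k (s k)) ∂(Measure.pi fun i => (volume : Measure (Xb m i))) := by
    have hm3 : Measurable fun s : ∀ i, Xb m i => ENNReal.ofReal ((∑ i, ψ i (s i)) ^ 2) *
      ∏ k, ENNReal.ofReal (φ k (s k)) := hm2.mul hm1
    rw [← hcov _ hm3]
    refine lintegral_congr fun z => lintegral_congr fun x => ?_
    have e9 : (∑ i, ψ i (Psi hP (x, z) i)) = l x - θ z := by
      simp only [ψ, Psi_apply, inner_sub_left, Finset.sum_sub_distrib]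
      rw [ht x z, hl]
      simp only [inner_add_right, Finset.sum_add_distrib, real_inner_smul_left, ← Finset.mul_sum]
      rw [pars_inner hP]
      have : ∑ i, ⟪P i w, (z : ∀ i, Xb m i) i⟫_ℝ = 0 := by
        rw [← Fc_mem z w]
        exact Finset.sum_congr rfl fun i _ => real_inner_comm _ _
      rw [this, mul_zero, add_zero]
    rw [e9]
    unfold rh
    refine congrArg₂ _ rfl (Finset.prod_congr rfl fun i _ => ?_)
    rw [Psi_apply]
  have hfin : c * ENNReal.ofReal (∏ i, ∫ s, φ i s) ≠ ∞ :=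
    ENNReal.mul_ne_top hc1 ENNReal.ofReal_ne_top
  have hne : c * ENNReal.ofReal (∏ i, ∫ s, φ i s) ≠ 0 :=
    mul_ne_zero hc0 (ENNReal.ofReal_pos.2 hPp).ne'
  have hsq : 0 ≤ ∑ i, r * ‖s0 • P i w - t i‖ ^ 2 :=
    Finset.sum_nonneg fun i _ => mul_nonneg hr (sq_nonneg _)
  rw [hB, hA, ← hq] at hθ
  have h1 : ENNReal.ofReal (∑ i, r * ‖s0 • P i w - t i‖ ^ 2) *
      (c * ENNReal.ofReal (∏ i, ∫ s, φ i s)) ≤
      ENNReal.ofReal (42 * ((q : ℝ) + 2) ^ 2) * (c * ENNReal.ofReal (∏ i, ∫ s, φ i s)) := by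
    calc _ = c * ENNReal.ofReal ((∑ i, r * ‖s0 • P i w - t i‖ ^ 2) * ∏ i, ∫ s, φ i s) := by
          rw [ENNReal.ofReal_mul hsq]; ring
      _ ≤ _ := mul_le_mul' le_rfl hlo
      _ ≤ _ := hθ
      _ ≤ _ := by
          refine mul_le_mul' ?_ le_rfl
          rw [num4]
          have h8 : (8 : ℝ≥0∞) = ENNReal.ofReal 8 := by norm_num
          have h9 : (9 : ℝ≥0∞) = ENNReal.ofReal 9 := by norm_num
          rw [h8, h9, ← ENNReal.ofReal_mul (by positivity), ← ENNReal.ofReal_mul (by positivity),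
            ← ENNReal.ofReal_mul (by positivity), ← ENNReal.ofReal_add (by positivity)
            (by positivity)]
          refine ENNReal.ofReal_le_ofReal ?_
          have h11 := (num3 q).trans exp1_le
          have h12 : (0 : ℝ) ≤ (q : ℝ) := Nat.cast_nonneg q
          have h13 : (4 : ℝ) ≤ ((q : ℝ) + 2) ^ 2 := by nlinarith
          nlinarith [mul_le_mul_of_nonneg_left h11 (sq_nonneg ((q : ℝ) + 2))]
  have h2 : ENNReal.ofReal (∑ i, r * ‖s0 • P i w - t i‖ ^ 2) ≤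
      ENNReal.ofReal (42 * ((q : ℝ) + 2) ^ 2) := (ENNReal.mul_le_mul_iff_left hne hfin).1 h1
  have h3 : ∑ i, r * ‖s0 • P i w - t i‖ ^ 2 ≤ 42 * ((q : ℝ) + 2) ^ 2 :=
    (ENNReal.ofReal_le_ofReal_iff (by positivity)).1 h2
  have h4 : r * (s0 ^ 2 * ‖w‖ ^ 2) ≤ ∑ i, r * ‖s0 • P i w - t i‖ ^ 2 := by
    rw [← Finset.mul_sum]
    refine mul_le_mul_of_nonneg_left ?_ hr
    have h5 : ∀ i, ‖s0 • P i w - t i‖ ^ 2 = s0 ^ 2 * ‖P i w‖ ^ 2 - 2 * s0 * ⟪t i, P i w⟫_ℝ +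
        ‖t i‖ ^ 2 := by
      intro i
      rw [norm_sub_sq_real, norm_smul, mul_pow, Real.norm_eq_abs, sq_abs, real_inner_smul_left,
        real_inner_comm]
      ring
    simp only [h5, Finset.sum_add_distrib, Finset.sum_sub_distrib, ← Finset.mul_sum]
    rw [htP w, hP w, mul_zero, sub_zero]
    have : 0 ≤ ∑ i, ‖t i‖ ^ 2 := Finset.sum_nonneg fun _ _ => sq_nonneg _
    linarith
  rw [← hq]
  have h6 : r * ‖w‖ ^ 2 = (r * (s0 ^ 2 * ‖w‖ ^ 2)) * (64 * V) := by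
    calc r * ‖w‖ ^ 2 = r * ‖w‖ ^ 2 * (s0 ^ 2 * (64 * V)) := by rw [hs0s, mul_one]
      _ = _ := by ring
  rw [h6]
  calc (r * (s0 ^ 2 * ‖w‖ ^ 2)) * (64 * V) ≤ (42 * ((q : ℝ) + 2) ^ 2) * (64 * V) :=
        mul_le_mul_of_nonneg_right (h4.trans h3) (by positivity)
    _ = _ := by ring

end Pool.Agent.Y506.KS
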