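import Pool.Agent.H59.L.S8.Y506.KS.Ru
import Pool.Agent.H59.L.S8.Y506.KS.Bq

/-!
# The class of bodies `{x | ∀ i, |Q i x| ≤ 1}`
-/

set_option autoImplicit false
set_option linter.unusedSectionVars false

namespace Pool.Agent.Y506.KS

open MeasureTheory Set
open scoped ENNReal InnerProductSpace
open Pool.Agent.W695.KH (EV VV)

variable {ι : Type} [Fintype ι] [DecidableEq ι] {m : ι → ℕ} {κ : Type} [Fintype κ]

theorem PoK_of {Q : ∀ i, EuclideanSpace ℝ κ →L[ℝ] Xb m i}
    (hQ : ∀ x, (∀ i, Q i x = 0) → x = 0) {φ : ∀ i, Xb m i → ℝ} {R : ℝ} (hR : Fam φ R)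
    {S : Set (EuclideanSpace ℝ κ)} (hS : MeasurableSet S)
    (hdn : ∀ x, dn Q φ x = S.indicator (fun _ => (1 : ℝ)) x) (C : ℝ)
    (hP : ∀ s : ℝ, 0 < s → (∀ e : EuclideanSpace ℝ κ, ∫ x, ⟪e, x⟫_ℝ ^ 2 * dn Q φ x ≤
      s * ‖e‖ ^ 2 * ∫ x, dn Q φ x) → ∀ f : EuclideanSpace ℝ κ → ℝ, ContDiff ℝ 1 f →
      ∫ x, f x * dn Q φ x = 0 → ∫ x, f x ^ 2 * dn Q φ x ≤
        C * s * ∫ x, ‖fderiv ℝ f x‖ ^ 2 * dn Q φ x) : PoK S C := by
  have hintg : ∀ g : EuclideanSpace ℝ κ → ℝ, Continuous g → IntegrableOn g S := by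
    intro g hg
    have h1 := gen_int hQ hR g hg
    simp only [hdn] at h1
    rw [← integrable_indicator_iff hS]
    refine h1.congr (Filter.Eventually.of_forall fun x => ?_)
    by_cases hx : x ∈ S
    · simp only [indicator_of_mem hx, mul_one]
    · simp only [indicator_of_notMem hx, mul_zero]
  have hone0 : ∫ x, S.indicator (fun _ => (1 : ℝ)) x = (volume S).toReal := by
    rw [integral_indicator hS, setIntegral_const, smul_eq_mul, mul_one]
    rfl
  have hV0 : 0 < (volume S).toReal := by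
    have h1 := gen_pos hQ hR
    simp only [hdn] at h1
    rwa [hone0] at h1
  intro s hs hcov v hv
  obtain ⟨V, hVe⟩ : ∃ V : ℝ, V = (volume S).toReal := ⟨_, rfl⟩
  have i1 := hintg v hv.continuous
  have i2 := hintg (fun x => v x ^ 2) (hv.continuous.pow 2)
  have i3 := hintg (fun _ => (1 : ℝ)) continuous_const
  obtain ⟨a, ha⟩ : ∃ a : ℝ, a = EV S v := ⟨_, rfl⟩
  have hone : ∫ x in S, (1 : ℝ) = V := by
    rw [setIntegral_const, smul_eq_mul, mul_one, hVe]
    rfl
  have hV := hV0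
  rw [← hVe] at hV
  have hmean : ∫ x in S, v x = a * V := by
    rw [ha]
    unfold EV
    rw [← hVe, div_mul_cancel₀ _ hV.ne']
  have h0 : ∫ x in S, (v x - a) = 0 := by
    have : ∀ x, v x - a = v x - a * 1 := fun x => by ring
    simp only [this]
    rw [integral_sub i1 (i3.const_mul a), integral_const_mul, hone, hmean, sub_self]
  have h1 := hP s hs (fun e => by
    simp only [hdn]
    rw [int_ind hS, hone0]
    have h2 := hcov e
    unfold EV at h2
    rw [← hVe, div_le_iff₀ hV] at h2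
    rw [← hVe]
    exact h2) (fun x => v x - a) (hv.sub contDiff_const) (by
      simp only [hdn]
      rw [int_ind hS]
      exact h0)
  simp only [hdn] at h1
  rw [int_ind hS, int_ind hS] at h1
  have e1 : ∀ x, fderiv ℝ (fun x => v x - a) x = fderiv ℝ v x := fun x => by
    rw [fderiv_sub_const]
  simp only [e1] at h1
  have e2 : ∫ x in S, (v x - a) ^ 2 = (∫ x in S, v x ^ 2) - a ^ 2 * V := by
    have e3 : ∀ x, (v x - a) ^ 2 = v x ^ 2 - 2 * a * v x + a ^ 2 * 1 := fun x => by ring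
    have i4 : IntegrableOn (fun x => v x ^ 2 - 2 * a * v x) S := i2.sub (i1.const_mul _)
    simp only [e3]
    rw [integral_add i4 (i3.const_mul _), integral_sub i2 (i1.const_mul _), integral_const_mul,
      integral_const_mul, hone, hmean]
    ring
  rw [e2] at h1
  unfold VV
  rw [← ha]
  unfold EV
  rw [← hVe, mul_div_assoc', le_div_iff₀ hV, sub_mul, div_mul_cancel₀ _ hV.ne']
  exact h1

/-- indicators of `[0, 1]` or `[0, 1)` -/
structure IJ (J : ℝ → ℝ) : Prop where
  one : ∀ t, 0 ≤ t → t < 1 → J t = 1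
  zero : ∀ t, 1 < t → J t = 0
  or : ∀ t, J t = 0 ∨ J t = 1
  anti : Antitone J

theorem IJ.lf {J : ℝ → ℝ} (h : IJ J) : LF J 1 := by
  have hn : ∀ t, 0 ≤ J t := fun t => by
    rcases h.or t with h1 | h1 <;> rw [h1]
    norm_num
  refine ⟨fun t _ => hn t, fun s t _ hst => h.anti hst, ?_, fun t _ ht => h.zero t ht,
    ⟨1 / 2, by norm_num, by rw [h.one _ (by norm_num) (by norm_num)]; norm_num⟩⟩
  intro x y t _ _ h0 h1
  have h2 : 0 < 1 - t := by linarith
  rcases h.or x with hx | hx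
  · rw [hx, Real.zero_rpow h2.ne', zero_mul]
    exact hn _
  · rcases h.or y with hy | hy
    · rw [hy, Real.zero_rpow h0.ne', mul_zero]
      exact hn _
    · rw [hx, hy, Real.one_rpow, Real.one_rpow, mul_one]
      rcases le_total x y with hxy | hxy
      · rw [← hy]
        refine h.anti ?_
        nlinarith
      · rw [← hx]
        refine h.anti ?_
        nlinarith

theorem ij_closed : IJ (fun t => if t ≤ 1 then 1 else 0) := by
  refine ⟨fun t _ h => if_pos h.le, fun t h => if_neg (not_le.2 h), fun t => ?_, ?_⟩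
  · by_cases h : t ≤ 1
    · exact Or.inr (if_pos h)
    · exact Or.inl (if_neg h)
  · intro s t hst
    by_cases h : t ≤ 1
    · simp only [if_pos h, if_pos (hst.trans h), le_refl]
    · simp only [if_neg h]
      split_ifs <;> norm_num

theorem ij_open : IJ (fun t => if t < 1 then 1 else 0) := by
  refine ⟨fun t _ h => if_pos h, fun t h => if_neg (not_lt.2 h.le), fun t => ?_, ?_⟩
  · by_cases h : t < 1
    · exact Or.inr (if_pos h)
    · exact Or.inl (if_neg h)
  · intro s t hst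
    by_cases h : t < 1
    · simp only [if_pos h, if_pos (lt_of_le_of_lt hst h), le_refl]
    · simp only [if_neg h]
      split_ifs <;> norm_num

theorem IJ.width {J : ℝ → ℝ} (h : IJ J) {k : ℕ} (hk : 0 < k) :
    1 * ∫ s : EuclideanSpace ℝ (Fin k), J (‖s‖ ^ 2) ≤
      Real.sqrt 8 ^ 2 * ∫ s : EuclideanSpace ℝ (Fin k), ‖s‖ ^ 2 * J (‖s‖ ^ 2) := by
  rw [Real.sq_sqrt (by norm_num), one_mul]
  have hlf := h.lf
  have hrf := hlf.rf (by norm_num : (0 : ℝ) ≤ 1)
  have hext : ∀ s : EuclideanSpace ℝ (Fin k), ext0 J (‖s‖ ^ 2) = J (‖s‖ ^ 2) := fun s =>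
    ext0_of_nonneg _ (sq_nonneg _)
  have i1 : Integrable fun s : EuclideanSpace ℝ (Fin k) => J (‖s‖ ^ 2) := by
    have := rf_int (k := k) hrf (fun _ => 1) continuous_const
    simpa only [hext, one_mul] using this
  have i2 : Integrable fun s : EuclideanSpace ℝ (Fin k) => ‖s‖ ^ 2 * J (‖s‖ ^ 2) := by
    have := rf_int (k := k) hrf (fun s => ‖s‖ ^ 2) (by fun_prop)
    simpa only [hext] using this
  have hn : ∀ t, 0 ≤ J t := fun t => by
    rcases h.or t with h1 | h1 <;> rw [h1]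
    norm_num
  have hle1 : ∀ t, J t ≤ 1 := fun t => by
    rcases h.or t with h1 | h1 <;> rw [h1]
    norm_num
  obtain ⟨V, hV⟩ : ∃ V : ℝ, V = (volume (Metric.ball (0 : EuclideanSpace ℝ (Fin k)) 1)).toReal :=
    ⟨_, rfl⟩
  have hV0 : 0 ≤ V := by rw [hV]; exact ENNReal.toReal_nonneg
  have v1 : (volume (Metric.closedBall (0 : EuclideanSpace ℝ (Fin k)) 1)).toReal = V := by
    rw [Measure.addHaar_closedBall _ _ (by norm_num : (0 : ℝ) ≤ 1), one_pow, ENNReal.ofReal_one,
      one_mul, hV]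
  have v2 : (volume (Metric.closedBall (0 : EuclideanSpace ℝ (Fin k)) (1 / 2))).toReal =
      (1 / 2) ^ k * V := by
    rw [Measure.addHaar_closedBall _ _ (by norm_num : (0 : ℝ) ≤ 1 / 2), ENNReal.toReal_mul,
      ENNReal.toReal_ofReal (by positivity), finrank_euclideanSpace, Fintype.card_fin, hV]
  have iI : ∀ S : Set (EuclideanSpace ℝ (Fin k)), MeasurableSet S → Bornology.IsBounded S →
      Integrable (S.indicator fun _ => (1 : ℝ)) ∧
      ∫ s, S.indicator (fun _ => (1 : ℝ)) s = (volume S).toReal := by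
    intro S hS hb
    refine ⟨(integrable_indicator_iff hS).2 (integrableOn_const hb.measure_lt_top.ne), ?_⟩
    rw [integral_indicator hS, setIntegral_const, smul_eq_mul, mul_one]
    rfl
  obtain ⟨ic, ec⟩ := iI _ (measurableSet_closedBall (x := (0 : EuclideanSpace ℝ (Fin k)))
    (ε := 1)) Metric.isBounded_closedBall
  obtain ⟨ib, eb⟩ := iI _ (measurableSet_ball (x := (0 : EuclideanSpace ℝ (Fin k)))
    (ε := 1)) Metric.isBounded_ball
  obtain ⟨id, ed⟩ := iI _ (measurableSet_closedBall (x := (0 : EuclideanSpace ℝ (Fin k)))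
    (ε := 1 / 2)) Metric.isBounded_closedBall
  have hup : ∫ s : EuclideanSpace ℝ (Fin k), J (‖s‖ ^ 2) ≤ V := by
    rw [← v1, ← ec]
    refine integral_mono i1 ic fun s => ?_
    simp only
    by_cases hs : s ∈ Metric.closedBall (0 : EuclideanSpace ℝ (Fin k)) 1
    · rw [indicator_of_mem hs]
      exact hle1 _
    · rw [indicator_of_notMem hs, h.zero]
      rw [mem_closedBall_zero_iff, not_le] at hs
      nlinarith
  have hlo : (1 / 4) * (V - (1 / 2) ^ k * V) ≤
      ∫ s : EuclideanSpace ℝ (Fin k), ‖s‖ ^ 2 * J (‖s‖ ^ 2) := by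
    rw [← v2, hV, ← eb, ← ed, ← integral_sub ib id, ← integral_const_mul]
    refine integral_mono ((ib.sub id).const_mul _) i2 fun s => ?_
    simp only
    have hnn : 0 ≤ ‖s‖ ^ 2 * J (‖s‖ ^ 2) := mul_nonneg (sq_nonneg _) (hn _)
    by_cases hs : s ∈ Metric.ball (0 : EuclideanSpace ℝ (Fin k)) 1
    · rw [indicator_of_mem hs]
      rw [mem_ball_zero_iff] at hs
      by_cases hs2 : s ∈ Metric.closedBall (0 : EuclideanSpace ℝ (Fin k)) (1 / 2)
      · rw [indicator_of_mem hs2, sub_self, mul_zero]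
        exact hnn
      · rw [indicator_of_notMem hs2, h.one _ (sq_nonneg _) (by nlinarith [norm_nonneg s])]
        rw [mem_closedBall_zero_iff, not_le] at hs2
        nlinarith
    · rw [indicator_of_notMem hs]
      have : 0 ≤ (Metric.closedBall (0 : EuclideanSpace ℝ (Fin k)) (1 / 2)).indicator
        (fun _ => (1 : ℝ)) s := indicator_nonneg (fun _ _ => zero_le_one) _
      linarith
  have hpow : ((1 : ℝ) / 2) ^ k ≤ 1 / 2 := by
    calc ((1 : ℝ) / 2) ^ k ≤ (1 / 2) ^ 1 :=
          pow_le_pow_of_le_one (by norm_num) (by norm_num) hk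
      _ = 1 / 2 := pow_one _
  have h3 := mul_le_mul_of_nonneg_right hpow hV0
  linarith

/-- the constant -/
noncomputable def CE (q : ℕ) : ℝ := 44040192 * ((q : ℝ) + 2) ^ 4

theorem CE_pos (q : ℕ) : 0 < CE q := by unfold CE; positivity

theorem ball_PoK {J : ℝ → ℝ} (hJ : IJ J) {Q : ∀ i, EuclideanSpace ℝ κ →L[ℝ] Xb m i}
    (hQ : ∀ x, (∀ i, Q i x = 0) → x = 0) (hm : ∀ i, 0 < m i) (q : ℕ)
    (hq : ∑ i, m i ≤ Fintype.card κ + q) : PoK {x | ∀ i, J (‖Q i x‖ ^ 2) = 1} (CE q) := by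
  obtain ⟨R, hR⟩ := rd_fam (m := m) (F := fun _ : ι => J) (T := fun _ => 1) fun _ => hJ.lf
  have hJm : Measurable J := hJ.anti.measurable
  refine PoK_of hQ hR ?_ ?_ _ ?_
  · have e : {x : EuclideanSpace ℝ κ | ∀ i, J (‖Q i x‖ ^ 2) = 1} =
        ⋂ i, {x | J (‖Q i x‖ ^ 2) = 1} := by
      ext x
      simp
    rw [e]
    refine MeasurableSet.iInter fun i => measurableSet_eq_fun ?_ measurable_const
    exact hJm.comp (((Q i).continuous.norm).pow 2).measurable
  · intro x
    unfold dn rd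
    by_cases hx : x ∈ {x | ∀ i, J (‖Q i x‖ ^ 2) = 1}
    · rw [indicator_of_mem hx]
      exact Finset.prod_eq_one fun i _ => hx i
    · rw [indicator_of_notMem hx]
      have : ∃ i, J (‖Q i x‖ ^ 2) ≠ 1 := by
        by_contra hn
        push Not at hn
        exact hx hn
      obtain ⟨i, hi⟩ := this
      exact Finset.prod_eq_zero (Finset.mem_univ i) ((hJ.or _).resolve_right hi)
  · intro s hs hcov f hf h0
    have h1 := rad_poincare hQ (F := fun _ : ι => J) (T := fun _ => 1) (fun _ => hJ.lf) hm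
      (Real.sqrt 8) (Real.sqrt_pos.2 (by norm_num)) (fun i => hJ.width (hm i)) q hq s hs hcov
      f hf h0
    refine h1.trans (le_of_eq ?_)
    rw [Real.sq_sqrt (by norm_num)]
    unfold CE
    ring

end Pool.Agent.Y506.KS
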