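import Pool.Agent.H59.L.S8.Y506.KS.Pe

/-!
# Lower bound for the second moments of the bodies `∑ |s_j| ^ (p_j) ≤ M`
-/

set_option autoImplicit false
set_option linter.unusedSectionVars false

namespace Pool.Agent.Y506.KS

open MeasureTheory Set
open scoped ENNReal InnerProductSpace

variable {k : ℕ}

theorem gam_int {M s : ℝ} (hM : 0 < M) (hs : 0 < s) :
    ∫⁻ t in Ioi (0 : ℝ), ENNReal.ofReal (M * Real.exp (-(M * t)) * t ^ (s - 1)) =
      ENNReal.ofReal (M * ((1 / M) ^ s * Real.Gamma s)) := by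
  have h1 := Real.integral_rpow_mul_exp_neg_mul_Ioi hs hM
  have hpos : 0 < (1 / M) ^ s * Real.Gamma s := mul_pos (by positivity) (Real.Gamma_pos_of_pos hs)
  have i1 : IntegrableOn (fun t : ℝ => t ^ (s - 1) * Real.exp (-(M * t))) (Ioi 0) := by
    by_contra hn
    have h2 := integral_undef hn
    rw [h1] at h2
    exact absurd h2 hpos.ne'
  have i2 : IntegrableOn (fun t : ℝ => M * Real.exp (-(M * t)) * t ^ (s - 1)) (Ioi 0) :=
    (i1.const_mul M).congr (Filter.Eventually.of_forall fun t => by simp only; ring)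
  rw [← ofReal_integral_eq_lintegral_ofReal i2]
  · congr 1
    rw [← h1, ← integral_const_mul]
    refine integral_congr_ae (Filter.Eventually.of_forall fun t => ?_)
    simp only
    ring
  · refine ae_restrict_of_forall_mem measurableSet_Ioi fun t ht => ?_
    have : (0 : ℝ) ≤ t ^ (s - 1) := Real.rpow_nonneg (le_of_lt ht) _
    simp only [Pi.zero_apply]
    positivity

theorem cake {J : ℝ → ℝ} (hJ : IJ J) {M g : ℝ} (hM : 0 < M) (hg : 0 ≤ g) :
    ENNReal.ofReal (Real.exp (-(M * g))) =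
      ∫⁻ t in Ioi (0 : ℝ), ENNReal.ofReal (M * Real.exp (-(M * t)) * J (g / t)) := by
  have h1 : ∫⁻ t in Ioi (0 : ℝ), ENNReal.ofReal (M * Real.exp (-(M * t)) * J (g / t)) =
      ∫⁻ t in Ioi (0 : ℝ), (Ioi g).indicator
        (fun t => ENNReal.ofReal (M * Real.exp (-M * t))) t := by
    refine lintegral_congr_ae ?_
    have h2 : ∀ᵐ t ∂(volume.restrict (Ioi (0 : ℝ))), t ≠ g :=
      ae_restrict_of_ae (compl_mem_ae_iff.2 (measure_singleton _))
    filter_upwards [h2, ae_restrict_mem measurableSet_Ioi] with t ht ht0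
    have ht0' : 0 < t := ht0
    by_cases h : t ∈ Ioi g
    · have h3 : g < t := h
      rw [indicator_of_mem h, hJ.one' ((div_lt_one ht0').2 h3), mul_one, neg_mul]
    · rw [indicator_of_notMem h, hJ.zero _ ?_, mul_zero, ENNReal.ofReal_zero]
      have h3 : t ≤ g := not_lt.1 h
      exact (one_lt_div ht0').2 (lt_of_le_of_ne h3 ht)
  rw [h1, lintegral_indicator measurableSet_Ioi, Measure.restrict_restrict measurableSet_Ioi]
  have h2 : Ioi g ∩ Ioi (0 : ℝ) = Ioi g := by
    ext t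
    simp only [mem_inter_iff, mem_Ioi]
    exact ⟨fun h => h.1, fun h => ⟨h, lt_of_le_of_lt hg h⟩⟩
  have hM' : -M < 0 := by linarith
  have i1 : IntegrableOn (fun t : ℝ => M * Real.exp (-M * t)) (Ioi g) :=
    (integrableOn_exp_mul_Ioi hM' g).const_mul M
  rw [h2, ← ofReal_integral_eq_lintegral_ofReal i1 (Filter.Eventually.of_forall fun t =>
    mul_nonneg hM.le (Real.exp_pos _).le), integral_const_mul, integral_exp_mul_Ioi hM']
  congr 1
  have e : -M * g = -(M * g) := by ring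
  rw [e]
  field_simp

theorem layer {J : ℝ → ℝ} (hJ : IJ J) {p : Fin k → ℝ} (hk : 0 < k) (hp : ∀ j, 2 ≤ p j)
    (g : EuclideanSpace ℝ (Fin k) → ℝ) (hg : Continuous g) (hg0 : ∀ x, 0 ≤ g x) {σ : ℝ}
    (hσ : 0 ≤ σ) (hom : ∀ (t : ℝ) (x : EuclideanSpace ℝ (Fin k)), 0 < t →
      g (sc (fun j => t ^ (p j)⁻¹) x) = t ^ σ * g x) :
    ∫⁻ x, ENNReal.ofReal (g x * Real.exp (-(MM p * GG p x))) =
      ENNReal.ofReal (MM p * ((1 / MM p) ^ (MM p + σ + 1) * Real.Gamma (MM p + σ + 1))) *
        ∫⁻ x, ENNReal.ofReal (g x * J (GG p x)) := by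
  have hM := MM_pos hk hp
  have hGc := GG_cont hp
  have hJ1 : Measurable J := hJ.anti.measurable
  have hmeas : Measurable (Function.uncurry fun (x : EuclideanSpace ℝ (Fin k)) (t : ℝ) =>
      ENNReal.ofReal (g x * (MM p * Real.exp (-(MM p * t)) * J (GG p x / t)))) := by
    refine ENNReal.measurable_ofReal.comp ?_
    refine (hg.measurable.comp measurable_fst).mul (Measurable.mul ?_ ?_)
    · exact (by fun_prop : Continuous fun q : EuclideanSpace ℝ (Fin k) × ℝ =>
        MM p * Real.exp (-(MM p * q.2))).measurable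
    · exact hJ1.comp ((hGc.measurable.comp measurable_fst).div measurable_snd)
  have h1 : ∫⁻ x, ENNReal.ofReal (g x * Real.exp (-(MM p * GG p x))) =
      ∫⁻ x, ∫⁻ t in Ioi (0 : ℝ),
        ENNReal.ofReal (g x * (MM p * Real.exp (-(MM p * t)) * J (GG p x / t))) := by
    refine lintegral_congr fun x => ?_
    rw [ENNReal.ofReal_mul (hg0 x), cake hJ hM (GG_nonneg hk hp x), ← lintegral_const_mul']
    · refine lintegral_congr fun t => ?_
      rw [← ENNReal.ofReal_mul (hg0 x)]
    · exact ENNReal.ofReal_ne_top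
  rw [h1, lintegral_lintegral_swap hmeas.aemeasurable]
  have h2 : ∫⁻ t in Ioi (0 : ℝ), ∫⁻ x,
      ENNReal.ofReal (g x * (MM p * Real.exp (-(MM p * t)) * J (GG p x / t))) =
      ∫⁻ t in Ioi (0 : ℝ), ENNReal.ofReal (MM p * Real.exp (-(MM p * t)) *
        t ^ (MM p + σ + 1 - 1)) * ∫⁻ x, ENNReal.ofReal (g x * J (GG p x)) := by
    refine setLIntegral_congr_fun measurableSet_Ioi fun t ht => ?_
    have ht0 : 0 < t := ht
    have hE : 0 ≤ MM p * Real.exp (-(MM p * t)) := mul_nonneg hM.le (Real.exp_pos _).le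
    have e1 : ∀ x, ENNReal.ofReal (g x * (MM p * Real.exp (-(MM p * t)) * J (GG p x / t))) =
        ENNReal.ofReal (MM p * Real.exp (-(MM p * t))) *
          ENNReal.ofReal (g x * J (GG p x / t)) := fun x => by
      rw [← ENNReal.ofReal_mul hE]
      congr 1
      ring
    have hm2 : Measurable fun x => ENNReal.ofReal (g x * J (GG p x / t)) :=
      (hg.measurable.mul (hJ1.comp (hGc.measurable.div_const t))).ennreal_ofReal
    simp only [e1]
    rw [lintegral_const_mul _ hm2, lint_sc (fun j => t ^ (p j)⁻¹)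
      (fun j => Real.rpow_pos_of_pos ht0 _) _ hm2, prod_sc ht0]
    have e2 : ∀ x, ENNReal.ofReal (g (sc (fun j => t ^ (p j)⁻¹) x) *
        J (GG p (sc (fun j => t ^ (p j)⁻¹) x) / t)) = ENNReal.ofReal (t ^ σ) *
        ENNReal.ofReal (g x * J (GG p x)) := fun x => by
      rw [hom t x ht0, GG_sc hp ht0, mul_div_cancel_left₀ _ ht0.ne', mul_assoc,
        ENNReal.ofReal_mul (Real.rpow_nonneg ht0.le _)]
    simp only [e2]
    have hm3 : Measurable fun x => ENNReal.ofReal (g x * J (GG p x)) :=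
      (hg.measurable.mul (hJ1.comp hGc.measurable)).ennreal_ofReal
    rw [lintegral_const_mul _ hm3, ← mul_assoc, ← mul_assoc,
      ← ENNReal.ofReal_mul hE, ← ENNReal.ofReal_mul (mul_nonneg hE (Real.rpow_nonneg ht0.le _)),
      mul_assoc (MM p * Real.exp (-(MM p * t))), ← Real.rpow_add ht0]
    congr 3
    ring_nf
  rw [h2, lintegral_mul_const, gam_int hM (by linarith)]
  refine ENNReal.measurable_ofReal.comp ?_
  exact ((by fun_prop : Continuous fun t : ℝ => MM p * Real.exp (-(MM p * t))).measurable).mul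
    (measurable_id.pow_const _)

/-- the Gamma function does not grow too fast -/
theorem gamma_le {s σ : ℝ} (hs : 0 < s) (h0 : 0 < σ) (h1 : σ ≤ 1) :
    Real.Gamma (s + σ) ≤ Real.Gamma s * s ^ σ := by
  rcases eq_or_lt_of_le h1 with h | h
  · rw [h, Real.Gamma_add_one hs.ne', Real.rpow_one, mul_comm]
  · have h2 := Real.Gamma_mul_add_mul_le_rpow_Gamma_mul_rpow_Gamma hs
      (by linarith : 0 < s + 1) (by linarith : 0 < 1 - σ) h0 (by ring)
    have e1 : (1 - σ) * s + σ * (s + 1) = s + σ := by ring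
    have hG := Real.Gamma_pos_of_pos hs
    rw [e1, Real.Gamma_add_one hs.ne', Real.mul_rpow hs.le hG.le, mul_left_comm,
      ← Real.rpow_add hG, sub_add_cancel, Real.rpow_one] at h2
    rw [mul_comm]
    exact h2

theorem ratio_low {M σ : ℝ} (h0 : 0 < σ) (hM : σ / 2 ≤ M) :
    (1 / 8) * (M + 1) ^ σ ≤ M ^ σ := by
  have hM0 : 0 < M := by linarith
  have h1 : ((M + 1) / M) ^ σ ≤ 8 := by
    have h2 : (M + 1) / M ≤ 1 + 2 / σ := by
      rw [add_div, div_self hM0.ne']
      have : 1 / M ≤ 2 / σ := by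
        rw [div_le_div_iff₀ hM0 h0]
        linarith
      linarith
    have h3 : 1 + 2 / σ ≤ Real.exp (2 / σ) := by
      have := Real.add_one_le_exp (2 / σ)
      linarith
    have h4 : ((M + 1) / M) ^ σ ≤ (Real.exp (2 / σ)) ^ σ :=
      Real.rpow_le_rpow (by positivity) (h2.trans h3) h0.le
    rw [← Real.exp_mul, div_mul_cancel₀ _ h0.ne'] at h4
    have h5 : Real.exp 2 ≤ 8 := by
      have h6 : Real.exp 2 = Real.exp 1 * Real.exp 1 := by
        rw [← Real.exp_add]
        norm_num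
      have h7 := Real.exp_one_lt_d9
      have h8 := Real.exp_pos 1
      rw [h6]
      nlinarith
    exact h4.trans h5
  rw [Real.div_rpow (by linarith) hM0.le, div_le_iff₀ (Real.rpow_pos_of_pos hM0 _)] at h1
  linarith

/-- the second moments of the product density -/
theorem prod_low {p : Fin k → ℝ} (hp : ∀ j, 2 ≤ p j) (j : Fin k) :
    ENNReal.ofReal (1 / 20) * ∫⁻ x : EuclideanSpace ℝ (Fin k),
        ENNReal.ofReal (Real.exp (-(∑ i, |x i| ^ p i))) ≤
      ∫⁻ x : EuclideanSpace ℝ (Fin k),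
        ENNReal.ofReal (x j ^ 2 * Real.exp (-(∑ i, |x i| ^ p i))) := by
  let κ : Fin k → ℝ → ℝ := fun i t => Real.exp (-(1 * |t| ^ p i))
  have hk0 : ∀ i t, 0 ≤ κ i t := fun i t => (Real.exp_pos _).le
  have hi : ∀ (i : Fin k) (n : ℕ), Integrable fun t : ℝ => t ^ n * κ i t := fun i n => by
    have := int_one (a := 0) (b := 0) (hp i) one_pos le_rfl n
    simpa only [zero_mul, add_zero, sub_zero] using this
  have hi0 : ∀ i, Integrable (κ i) := fun i => by
    have := hi i 0
    simpa only [pow_zero, one_mul] using this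
  have hexp : ∀ x : Fin k → ℝ, ∏ i, ENNReal.ofReal (κ i (x i)) =
      ENNReal.ofReal (Real.exp (-(∑ i, |x i| ^ p i))) := fun x => by
    rw [← ENNReal.ofReal_prod_of_nonneg fun i _ => hk0 i _, ← Real.exp_sum,
      Finset.sum_neg_distrib]
    simp only [one_mul]
  have hmass := base_mass (fun _ : Fin k => (volume : Measure ℝ)) κ hk0 hi0
  have hlo := base_lower (fun _ : Fin k => (volume : Measure ℝ)) κ
    (fun i t => if i = j then t else 0) hk0 hi0
    (fun i => by
      by_cases h : i = j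
      · simp only [if_pos h]
        have := hi i 1
        simpa only [pow_one] using this
      · simp only [if_neg h, zero_mul]
        exact integrable_zero _ _ _)
    (fun i => by
      by_cases h : i = j
      · simp only [if_pos h]
        exact hi i 2
      · simp only [if_neg h, ne_eq, OfNat.ofNat_ne_zero, not_false_eq_true, zero_pow, zero_mul]
        exact integrable_zero _ _ _)
    (fun i => by
      by_cases h : i = j
      · simp only [if_pos h]
        have h1 := integral_neg_eq_self (fun t : ℝ => t * κ i t) volume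
        have h2 : ∀ t : ℝ, -t * κ i (-t) = -(t * κ i t) := fun t => by
          simp only [κ]
          rw [abs_neg]
          ring
        simp only [h2] at h1
        rw [integral_neg] at h1
        linarith
      · simp only [if_neg h, zero_mul, integral_zero])
    (fun i => if i = j then 1 / 20 else 0)
    (fun i => by
      by_cases h : i = j
      · simp only [if_pos h]
        exact mom_low (hp i)
      · simp only [if_neg h, zero_mul]
        exact le_of_eq (by simp))
  have e1 : (∑ i, if i = j then (1 / 20 : ℝ) else 0) = 1 / 20 := by simp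
  have e2 : ∀ s : Fin k → ℝ, (∑ i, if i = j then s i else 0) = s j := fun s => by simp
  rw [e1] at hlo
  simp only [e2, hexp] at hlo hmass
  rw [lint_pi, lint_pi]
  have e3 : (∫⁻ y : Fin k → ℝ, ENNReal.ofReal (Real.exp (-(∑ i, |(WithLp.toLp 2 y :
      EuclideanSpace ℝ (Fin k)) i| ^ p i)))) = ENNReal.ofReal (∏ i, ∫ t, κ i t) := hmass
  rw [e3, ← ENNReal.ofReal_mul (by norm_num)]
  refine hlo.trans (le_of_eq (lintegral_congr fun y => ?_))
  rw [← ENNReal.ofReal_mul (sq_nonneg _)]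

theorem coord_low {J : ℝ → ℝ} (hJ : IJ J) {p : Fin k → ℝ} (hk : 0 < k) (hp : ∀ j, 2 ≤ p j)
    (j : Fin k) : (1 / 160) * ∫ s, J (GG p s) ≤ ∫ s : EuclideanSpace ℝ (Fin k),
      s j ^ 2 * J (GG p s) := by
  have hM := MM_pos hk hp
  have hpj : 0 < p j := by linarith [hp j]
  obtain ⟨σ, hσ⟩ : ∃ σ : ℝ, σ = 2 * (p j)⁻¹ := ⟨_, rfl⟩
  have hσ0 : 0 < σ := by rw [hσ]; positivity
  have hσ1 : σ ≤ 1 := by
    rw [hσ, ← div_eq_mul_inv, div_le_one hpj]
    exact hp j
  have hσM : σ / 2 ≤ MM p := by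
    rw [hσ, mul_div_cancel_left₀ _ (two_ne_zero)]
    exact Finset.single_le_sum (f := fun j => (p j)⁻¹)
      (fun i _ => inv_nonneg.2 (by linarith [hp i])) (Finset.mem_univ j)
  have L0 := layer hJ hk hp (fun _ => (1 : ℝ)) continuous_const (fun _ => zero_le_one) le_rfl
    (fun t x _ => by rw [Real.rpow_zero, one_mul])
  have L2 := layer hJ hk hp (fun x => x j ^ 2) (by fun_prop) (fun x => sq_nonneg _) hσ0.le
    (fun t x ht => by
      rw [sc_apply, mul_pow]
      congr 1
      rw [← Real.rpow_natCast, ← Real.rpow_mul ht.le, hσ]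
      congr 1
      push_cast
      ring)
  have hMG : ∀ x, MM p * GG p x = ∑ i, |x i| ^ p i := fun x => by
    unfold GG
    rw [mul_div_cancel₀ _ hM.ne']
  simp only [one_mul, hMG, add_zero] at L0 L2
  have i0 : Integrable fun s => J (GG p s) := by
    have := JG_int hJ hk hp (fun _ => (1 : ℝ)) continuous_const
    simpa only [one_mul] using this
  have i2 := JG_int hJ hk hp (fun s => s j ^ 2) (by fun_prop)
  have h1 := prod_low hp j
  rw [L0, L2, ← ofReal_integral_eq_lintegral_ofReal i0 (Filter.Eventually.of_forall fun s =>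
      hJ.nn _), ← ofReal_integral_eq_lintegral_ofReal i2 (Filter.Eventually.of_forall fun s =>
      mul_nonneg (sq_nonneg _) (hJ.nn _))] at h1
  obtain ⟨V0, hV0⟩ : ∃ V : ℝ, V = ∫ s, J (GG p s) := ⟨_, rfl⟩
  obtain ⟨V2, hV2⟩ : ∃ V : ℝ, V = ∫ s : EuclideanSpace ℝ (Fin k), s j ^ 2 * J (GG p s) :=
    ⟨_, rfl⟩
  have hV00 : 0 ≤ V0 := by rw [hV0]; exact integral_nonneg fun s => hJ.nn _
  have hV20 : 0 ≤ V2 := by
    rw [hV2]
    exact integral_nonneg fun s => mul_nonneg (sq_nonneg _) (hJ.nn _)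
  rw [← hV0, ← hV2] at h1 ⊢
  obtain ⟨M, hMM⟩ : ∃ M : ℝ, M = MM p := ⟨_, rfl⟩
  rw [← hMM] at h1 hσM hM
  have hG0 : 0 < Real.Gamma (M + 1) := Real.Gamma_pos_of_pos (by linarith)
  have hG2 : 0 < Real.Gamma (M + σ + 1) := Real.Gamma_pos_of_pos (by linarith)
  have hR0 : 0 < (1 / M) ^ (M + 1) := by positivity
  have hc0 : 0 ≤ M * ((1 / M) ^ (M + 1) * Real.Gamma (M + 1)) := by positivity
  have hc2 : 0 ≤ M * ((1 / M) ^ (M + σ + 1) * Real.Gamma (M + σ + 1)) := by positivity
  rw [← ENNReal.ofReal_mul hc0, ← ENNReal.ofReal_mul hc2, ← ENNReal.ofReal_mul (by norm_num),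
    ENNReal.ofReal_le_ofReal_iff (mul_nonneg hc2 hV20)] at h1
  have hpw : (1 / M) ^ (M + σ + 1) = (1 / M) ^ (M + 1) * (M ^ σ)⁻¹ := by
    have e : M + σ + 1 = (M + 1) + σ := by ring
    rw [e, Real.rpow_add (by positivity), one_div M, Real.inv_rpow hM.le σ]
  have hgam := gamma_le (by linarith : 0 < M + 1) hσ0 hσ1
  have e3 : M + 1 + σ = M + σ + 1 := by ring
  rw [e3] at hgam
  have hrat := ratio_low hσ0 hσM
  have hMσ : 0 < M ^ σ := Real.rpow_pos_of_pos hM _
  have hM1σ : 0 < (M + 1) ^ σ := Real.rpow_pos_of_pos (by linarith) _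
  rw [hpw] at h1
  -- cancel the common factor
  obtain ⟨K, hK⟩ : ∃ K : ℝ, K = M * (1 / M) ^ (M + 1) * Real.Gamma (M + 1) := ⟨_, rfl⟩
  have hK0 : 0 < K := by rw [hK]; positivity
  have h2 : (1 / 20) * (K * V0) ≤ K * (8 * V2) := by
    calc (1 / 20) * (K * V0) = 1 / 20 * (M * ((1 / M) ^ (M + 1) * Real.Gamma (M + 1)) * V0) := by
          rw [hK]; ring
      _ ≤ M * ((1 / M) ^ (M + 1) * (M ^ σ)⁻¹ * Real.Gamma (M + σ + 1)) * V2 := h1
      _ ≤ M * ((1 / M) ^ (M + 1) * (M ^ σ)⁻¹ * (Real.Gamma (M + 1) * (M + 1) ^ σ)) * V2 := by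
          gcongr
      _ = K * (((M + 1) ^ σ * (M ^ σ)⁻¹) * V2) := by rw [hK]; ring
      _ ≤ K * (8 * V2) := by
          refine mul_le_mul_of_nonneg_left (mul_le_mul_of_nonneg_right ?_ hV20) hK0.le
          rw [← div_eq_mul_inv, div_le_iff₀ hMσ]
          linarith
  have h3 : K * ((1 / 20) * V0) ≤ K * (8 * V2) := by
    calc K * ((1 / 20) * V0) = (1 / 20) * (K * V0) := by ring
      _ ≤ _ := h2
  have h4 := le_of_mul_le_mul_left h3 hK0
  linarith

theorem pd_low {J : ℝ → ℝ} (hJ : IJ J) {p : Fin k → ℝ} (hk : 0 < k) (hp : ∀ j, 2 ≤ p j)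
    (c : EuclideanSpace ℝ (Fin k)) : (1 / 160) * ‖c‖ ^ 2 * ∫ s, J (GG p s) ≤
      ∫ s, ⟪c, s⟫_ℝ ^ 2 * J (GG p s) := by
  rw [Q_exp (fun s => J (GG p s)) ⟨0, hk⟩ (fun i j => JG_int hJ hk hp (fun x => x i * x j)
    (by fun_prop)) (fun i _ x => by simp only [GG_fl]) c, EuclideanSpace.real_norm_sq_eq,
    Finset.mul_sum, Finset.sum_mul]
  refine Finset.sum_le_sum fun j _ => ?_
  have h1 := mul_le_mul_of_nonneg_left (coord_low hJ hk hp j) (sq_nonneg (c j))
  calc _ = c j ^ 2 * ((1 / 160) * ∫ s, J (GG p s)) := by ring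
    _ ≤ _ := h1

end Pool.Agent.Y506.KS
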