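import Pool.Agent.H59.L.S8.Y506.KS.Pi

/-!
# Linear images of a uniform random vector
-/

set_option autoImplicit false
set_option linter.unusedSectionVars false

namespace Pool.Agent.Y506.KS

open MeasureTheory Set Filter Topology
open scoped ENNReal InnerProductSpace Pointwise
open Pool.Agent.W695.KH

variable {κ : Type} [Fintype κ]

/-- a linear isomorphism `A` with `|A x|² = |T x|² + ε² |x|²` -/
theorem exists_iso {n : ℕ} (T : Eu κ →ₗ[ℝ] Eu (Fin n)) (ε : ℝ) (hε : 0 < ε) :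
    ∃ A : Eu κ ≃L[ℝ] Eu κ, (∀ x, ‖T x‖ ≤ ‖A x‖) ∧
      ∀ θ : Eu κ, ∃ (a : Eu (Fin n)) (b : Eu κ), ‖a‖ ^ 2 + ‖b‖ ^ 2 = ‖θ‖ ^ 2 ∧
        ∀ x, ⟪A x, θ⟫_ℝ = ⟪T x, a⟫_ℝ + ε * ⟪x, b⟫_ℝ := by
  let J : Eu κ →ₗ[ℝ] WithLp 2 (Eu (Fin n) × Eu κ) :=
    { toFun := fun x => WithLp.toLp 2 (T x, ε • x)
      map_add' := fun x y => by
        rw [map_add, smul_add]
        rfl
      map_smul' := fun c x => by
        rw [map_smul, smul_comm]
        rfl }
  have hinj : Function.Injective J := by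
    intro x y hxy
    have h1 : (J x).snd = (J y).snd := by rw [hxy]
    have h2 : ε • x = ε • y := h1
    exact smul_right_injective _ hε.ne' h2
  let W := LinearMap.range J
  let J' : Eu κ ≃ₗ[ℝ] W := LinearEquiv.ofInjective J hinj
  have hfr : Module.finrank ℝ W = Fintype.card κ := by
    rw [LinearMap.finrank_range_of_inj hinj, finrank_euclideanSpace]
  let e : Fin (Module.finrank ℝ W) ≃ κ := (finCongr hfr).trans (Fintype.equivFin κ).symm
  let U : W ≃ₗᵢ[ℝ] Eu κ := ((stdOrthonormalBasis ℝ W).reindex e).repr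
  let A : Eu κ ≃L[ℝ] Eu κ := (J'.trans U.toLinearEquiv).toContinuousLinearEquiv
  have hA : ∀ x, A x = U (J' x) := fun x => rfl
  have hJ' : ∀ x, ((J' x : W) : WithLp 2 (Eu (Fin n) × Eu κ)) = WithLp.toLp 2 (T x, ε • x) :=
    fun x => rfl
  refine ⟨A, fun x => ?_, fun θ => ?_⟩
  · rw [hA, LinearIsometryEquiv.norm_map]
    have h1 : ‖J' x‖ ^ 2 = ‖T x‖ ^ 2 + ‖ε • x‖ ^ 2 := by
      have h2 : ‖J' x‖ = ‖(WithLp.toLp 2 (T x, ε • x) : WithLp 2 (Eu (Fin n) × Eu κ))‖ := by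
        rw [← hJ']
        rfl
      rw [h2, WithLp.prod_norm_sq_eq_of_L2]
      rfl
    exact abs_le_of_sq_le_sq' (by nlinarith [sq_nonneg ‖ε • x‖]) (norm_nonneg _) |>.2
  · obtain ⟨w, hw⟩ : ∃ w : WithLp 2 (Eu (Fin n) × Eu κ), w = ((U.symm θ : W) :
        WithLp 2 (Eu (Fin n) × Eu κ)) := ⟨_, rfl⟩
    refine ⟨w.fst, w.snd, ?_, fun x => ?_⟩
    · rw [← WithLp.prod_norm_sq_eq_of_L2, hw]
      have h2 : ‖((U.symm θ : W) : WithLp 2 (Eu (Fin n) × Eu κ))‖ = ‖U.symm θ‖ := rfl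
      rw [h2, LinearIsometryEquiv.norm_map]
    · have h1 : ⟪A x, θ⟫_ℝ = ⟪J' x, U.symm θ⟫_ℝ := by
        rw [hA, ← U.inner_map_map (J' x) (U.symm θ), LinearIsometryEquiv.apply_symm_apply]
      have h3 : ⟪J' x, U.symm θ⟫_ℝ = ⟪((J' x : W) : WithLp 2 (Eu (Fin n) × Eu κ)), w⟫_ℝ := by
        rw [hw]
        rfl
      rw [h1, h3, hJ', WithLp.prod_inner_apply]
      have h4 : ε * ⟪x, w.snd⟫_ℝ = ⟪ε • x, w.snd⟫_ℝ := by
        rw [real_inner_smul_left]
      rw [h4]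
      rfl

theorem unif_image {K : Set (Eu κ)} (hK : MeasurableSet K) (A : Eu κ ≃L[ℝ] Eu κ) :
    (volume (A '' K))⁻¹ • volume.restrict (A '' K) =
      Measure.map A ((volume K)⁻¹ • volume.restrict K) := by
  have hd0 : |LinearMap.det ((A : Eu κ →L[ℝ] Eu κ) : Eu κ →ₗ[ℝ] Eu κ)| ≠ 0 := by
    rw [Ne, abs_eq_zero]
    exact (LinearEquiv.isUnit_det' A.toLinearEquiv).ne_zero
  obtain ⟨d, hd⟩ : ∃ d : ℝ≥0∞, d = ENNReal.ofReal
    |LinearMap.det ((A : Eu κ →L[ℝ] Eu κ) : Eu κ →ₗ[ℝ] Eu κ)| := ⟨_, rfl⟩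
  have hd1 : d ≠ 0 := by
    rw [hd, Ne, ENNReal.ofReal_eq_zero, not_le]
    exact lt_of_le_of_ne (abs_nonneg _) (Ne.symm hd0)
  have hd2 : d ≠ ⊤ := by rw [hd]; exact ENNReal.ofReal_ne_top
  have hvol : ∀ s : Set (Eu κ), volume (A '' s) = d * volume s := fun s => by
    rw [hd]
    exact Measure.addHaar_image_continuousLinearEquiv volume A s
  have hmA : Measurable A := A.continuous.measurable
  ext B hB
  rw [Measure.map_apply hmA hB]
  have e1 : ((volume (A '' K))⁻¹ • volume.restrict (A '' K)) B =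
      (volume (A '' K))⁻¹ * volume.restrict (A '' K) B := rfl
  have e2 : ((volume K)⁻¹ • volume.restrict K) (A ⁻¹' B) =
      (volume K)⁻¹ * volume.restrict K (A ⁻¹' B) := rfl
  rw [e1, e2, Measure.restrict_apply hB, Measure.restrict_apply (hmA hB)]
  have e3 : B ∩ A '' K = A '' (A ⁻¹' B ∩ K) := by
    ext y
    constructor
    · rintro ⟨hy, x, hx, rfl⟩
      exact ⟨x, ⟨hy, hx⟩, rfl⟩
    · rintro ⟨x, ⟨hx1, hx2⟩, rfl⟩
      exact ⟨hx1, x, hx2, rfl⟩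
  rw [e3, hvol, hvol, ENNReal.mul_inv (Or.inl hd1) (Or.inl hd2)]
  calc d⁻¹ * (volume K)⁻¹ * (d * volume (A ⁻¹' B ∩ K))
      = (d⁻¹ * d) * ((volume K)⁻¹ * volume (A ⁻¹' B ∩ K)) := by ring
    _ = _ := by rw [ENNReal.inv_mul_cancel hd1 hd2, one_mul]

/-- the Cheeger inequality for linear images -/
theorem cheegerT [Nonempty κ] {K : Set (Eu κ)} (hco : Convex ℝ K) (hcp : IsCompact K)
    (hint : (interior K).Nonempty) (hsym : ∀ x ∈ K, -x ∈ K) (k : ℝ) (hk : 0 < k)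
    (hyp : ∀ A : Eu κ ≃L[ℝ] Eu κ, PoK (A '' K) k) {n : ℕ} (T : Eu κ →ₗ[ℝ] Eu (Fin n))
    (μ : Measure (Eu (Fin n))) (hμ : μ = Measure.map T ((volume K)⁻¹ • volume.restrict K))
    (s : ℝ) (hs : 0 < s)
    (hcov : ∀ θ : Eu (Fin n), ‖θ‖ = 1 → ProbabilityTheory.variance (fun x => ⟪x, θ⟫_ℝ) μ ≤ s)
    (S : Set (Eu (Fin n))) (hS : MeasurableSet S) :
    ENNReal.ofReal (1 / (2 * Real.sqrt (80 * k)) / Real.sqrt (2 * s)) * min (μ S) (μ Sᶜ) ≤
      liminf (fun ε : ℝ => (μ (Metric.thickening ε S) - μ S) / ENNReal.ofReal ε) (𝓝[>] 0) := by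
  have hvol : 0 < volume K :=
    lt_of_lt_of_le (isOpen_interior.measure_pos volume hint) (measure_mono interior_subset)
  have hfin : volume K ≠ ⊤ := hcp.measure_lt_top.ne
  obtain ⟨ν, hν⟩ : ∃ ν : Measure (Eu κ), ν = (volume K)⁻¹ • volume.restrict K := ⟨_, rfl⟩
  have hprob : IsProbabilityMeasure ν := by rw [hν]; exact unif_prob hvol hfin
  rw [← hν] at hμ
  have hTc : Continuous T := T.continuous_of_finiteDimensional
  have hTm : Measurable T := hTc.measurable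
  -- a bound for `K`
  obtain ⟨R, hR0, hR⟩ : ∃ R : ℝ, 0 < R ∧ ∀ x ∈ K, ‖x‖ ≤ R := by
    obtain ⟨R, hR⟩ := hcp.isBounded.exists_norm_le
    exact ⟨|R| + 1, by positivity, fun x hx => (hR x hx).trans (by linarith [le_abs_self R])⟩
  have hae : ∀ᵐ x ∂ν, x ∈ K := by
    rw [hν]
    refine Measure.ae_smul_measure ?_ _
    exact ae_restrict_mem hcp.measurableSet
  have hInt : ∀ g : Eu κ → ℝ, Continuous g → Integrable g ν := by
    intro g hg
    rw [hν]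
    refine Integrable.smul_measure ?_ (ENNReal.inv_ne_top.2 hvol.ne')
    exact hg.continuousOn.integrableOn_compact hcp
  obtain ⟨ε, hε⟩ : ∃ ε : ℝ, ε = Real.sqrt s / R := ⟨_, rfl⟩
  have hε0 : 0 < ε := by rw [hε]; positivity
  have hεR : ε ^ 2 * R ^ 2 = s := by
    rw [hε, div_pow, Real.sq_sqrt hs.le, div_mul_cancel₀ _ (by positivity)]
  obtain ⟨A, hA1, hA2⟩ := exists_iso T ε hε0
  -- the second moments of `T X`
  have hsec : ∀ a : Eu (Fin n), ∫ x, ⟪T x, a⟫_ℝ ^ 2 ∂ν ≤ s * ‖a‖ ^ 2 := by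
    intro a
    by_cases h0 : a = 0
    · rw [h0]
      have e : (fun x : Eu κ => ⟪T x, (0 : Eu (Fin n))⟫_ℝ ^ 2) = fun _ => (0 : ℝ) := by
        funext x
        rw [inner_zero_right]
        norm_num
      rw [e]
      simp
    · have hn : 0 < ‖a‖ := norm_pos_iff.2 h0
      have h1 := hcov (‖a‖⁻¹ • a) (by
        rw [norm_smul, norm_inv, norm_norm, inv_mul_cancel₀ hn.ne'])
      have hm1 : Measurable fun x : Eu (Fin n) => ⟪x, ‖a‖⁻¹ • a⟫_ℝ := by fun_prop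
      rw [hμ, ProbabilityTheory.variance_map hm1.aemeasurable hTm.aemeasurable] at h1
      have hmean : ∫ x, ((fun x : Eu (Fin n) => ⟪x, ‖a‖⁻¹ • a⟫_ℝ) ∘ T) x ∂ν = 0 := by
        have h2 : ∀ x, ((fun x : Eu (Fin n) => ⟪x, ‖a‖⁻¹ • a⟫_ℝ) ∘ T) x =
            ⟪x, (LinearMap.adjoint T) (‖a‖⁻¹ • a)⟫_ℝ := fun x => by
          rw [LinearMap.adjoint_inner_right]
          rfl
        simp only [h2]
        rw [hν, unif_int, mean_zero hcp.measurableSet hsym]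
      rw [ProbabilityTheory.variance_of_integral_eq_zero
        (hm1.comp hTm).aemeasurable hmean] at h1
      have e : (fun x : Eu κ => ((fun x : Eu (Fin n) => ⟪x, ‖a‖⁻¹ • a⟫_ℝ) ∘ T) x ^ 2) =
          fun x => (‖a‖⁻¹) ^ 2 * ⟪T x, a⟫_ℝ ^ 2 := by
        funext x
        rw [Function.comp_apply, real_inner_smul_right, mul_pow]
      rw [e, integral_const_mul] at h1
      calc ∫ x, ⟪T x, a⟫_ℝ ^ 2 ∂ν
          = ‖a‖ ^ 2 * ((‖a‖⁻¹) ^ 2 * ∫ x, ⟪T x, a⟫_ℝ ^ 2 ∂ν) := by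
            field_simp
        _ ≤ ‖a‖ ^ 2 * s := mul_le_mul_of_nonneg_left h1 (by positivity)
        _ = s * ‖a‖ ^ 2 := by ring
  -- the body `A K`
  have hsymA : ∀ y ∈ A '' K, -y ∈ A '' K := by
    rintro y ⟨x, hx, rfl⟩
    exact ⟨-x, hsym x hx, map_neg _ _⟩
  have hcoA : Convex ℝ (A '' K) := hco.linear_image (A : Eu κ →L[ℝ] Eu κ).toLinearMap
  have hcpA : IsCompact (A '' K) := hcp.image A.continuous
  have hintA : (interior (A '' K)).Nonempty := by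
    have h1 : A '' interior K ⊆ interior (A '' K) := by
      refine interior_maximal (image_mono interior_subset) ?_
      exact A.toHomeomorph.isOpenMap _ isOpen_interior
    exact (hint.image A).mono h1
  have hAm : Measurable A := A.continuous.measurable
  have hμA := unif_image hcp.measurableSet A
  rw [← hν] at hμA
  obtain ⟨ρ, hρ⟩ : ∃ ρ : Measure (Eu κ), ρ = (volume (A '' K))⁻¹ • volume.restrict (A '' K) :=
    ⟨_, rfl⟩
  rw [← hρ] at hμA
  have hcovA : ∀ θ : Eu κ, ‖θ‖ = 1 → ProbabilityTheory.variance (fun x => ⟪x, θ⟫_ℝ) ρ ≤ 2 * s := by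
    intro θ hθ
    obtain ⟨a, b, hab, hAx⟩ := hA2 θ
    have hm1 : Measurable fun x : Eu κ => ⟪x, θ⟫_ℝ := by fun_prop
    rw [hμA, ProbabilityTheory.variance_map hm1.aemeasurable hAm.aemeasurable]
    refine (ProbabilityTheory.variance_le_expectation_sq
      (hm1.comp hAm).aestronglyMeasurable).trans ?_
    have hc1 : Continuous fun x : Eu κ => ⟪T x, a⟫_ℝ ^ 2 := (hTc.inner continuous_const).pow 2
    have h1 : ∫ x, (((fun x => ⟪x, θ⟫_ℝ) ∘ A) ^ 2) x ∂ν ≤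
        ∫ x, (2 * ⟪T x, a⟫_ℝ ^ 2 + 2 * (s * ‖b‖ ^ 2)) ∂ν := by
      refine integral_mono_ae (hInt _ ?_) (hInt _ ?_) ?_
      · have : Continuous fun x : Eu κ => ⟪A x, θ⟫_ℝ := A.continuous.inner continuous_const
        exact this.pow 2
      · exact (hc1.const_mul 2).add continuous_const
      · filter_upwards [hae] with x hx
        have e1 : (((fun x => ⟪x, θ⟫_ℝ) ∘ A) ^ 2) x = (⟪T x, a⟫_ℝ + ε * ⟪x, b⟫_ℝ) ^ 2 := by
          rw [Pi.pow_apply, Function.comp_apply, hAx]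
        rw [e1]
        have h2 : (ε * ⟪x, b⟫_ℝ) ^ 2 ≤ s * ‖b‖ ^ 2 := by
          have h3 : |⟪x, b⟫_ℝ| ≤ R * ‖b‖ :=
            (abs_real_inner_le_norm x b).trans
              (mul_le_mul_of_nonneg_right (hR x hx) (norm_nonneg _))
          have h4 : ⟪x, b⟫_ℝ ^ 2 ≤ (R * ‖b‖) ^ 2 := by
            rw [← sq_abs]
            exact pow_le_pow_left₀ (abs_nonneg _) h3 2
          calc (ε * ⟪x, b⟫_ℝ) ^ 2 = ε ^ 2 * ⟪x, b⟫_ℝ ^ 2 := by ring
            _ ≤ ε ^ 2 * (R * ‖b‖) ^ 2 := mul_le_mul_of_nonneg_left h4 (by positivity)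
            _ = ε ^ 2 * R ^ 2 * ‖b‖ ^ 2 := by ring
            _ = s * ‖b‖ ^ 2 := by rw [hεR]
        nlinarith [sq_nonneg (⟪T x, a⟫_ℝ - ε * ⟪x, b⟫_ℝ)]
    refine h1.trans ?_
    rw [integral_add ((hInt _ hc1).const_mul 2) (integrable_const _), integral_const_mul,
      integral_const]
    simp only [probReal_univ, one_smul]
    have h5 := hsec a
    rw [hθ] at hab
    nlinarith
  -- sets
  obtain ⟨S', hS'⟩ : ∃ S' : Set (Eu κ), S' = (fun y => T (A.symm y)) ⁻¹' S := ⟨_, rfl⟩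
  have hTA : Continuous fun y => T (A.symm y) := hTc.comp A.symm.continuous
  have hS'm : MeasurableSet S' := by rw [hS']; exact hTA.measurable hS
  have hρ' : ∀ B : Set (Eu (Fin n)), MeasurableSet B →
      ρ ((fun y => T (A.symm y)) ⁻¹' B) = μ B := by
    intro B hB
    rw [hμA, hμ, Measure.map_apply hAm (hTA.measurable hB), Measure.map_apply hTm hB]
    congr 1
    ext x
    simp
  have hρS : ρ S' = μ S := by rw [hS']; exact hρ' S hS
  have hρSc : ρ S'ᶜ = μ Sᶜ := by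
    rw [hS', ← preimage_compl]
    exact hρ' Sᶜ hS.compl
  have key := cheegerS hcoA hcpA hintA hsymA k hk (hyp A) ρ hρ (2 * s) (by positivity) hcovA S' hS'm
  rw [hρS, hρSc] at key
  refine key.trans ?_
  refine liminf_le_liminf (Eventually.of_forall fun δ => ?_)
  refine ENNReal.div_le_div_right (tsub_le_tsub_right ?_ _) _
  rw [← hρ' _ Metric.isOpen_thickening.measurableSet]
  refine measure_mono ?_
  intro y hy
  obtain ⟨z, hz, hyz⟩ := Metric.mem_thickening_iff.1 hy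
  rw [hS'] at hz
  refine Metric.mem_thickening_iff.2 ⟨T (A.symm z), hz, ?_⟩
  refine lt_of_le_of_lt ?_ hyz
  rw [dist_eq_norm, dist_eq_norm, ← map_sub, ← map_sub]
  refine (hA1 _).trans (le_of_eq ?_)
  rw [ContinuousLinearEquiv.apply_symm_apply]

end Pool.Agent.Y506.KS
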