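import Pool.Agent.H59.L.S8.Y506.KS.Pj

/-!
# The bodies `{x | ∀ i, ∑ j, |L i j x| ^ (p i j) ≤ 1}` and their linear images
-/

set_option autoImplicit false
set_option linter.unusedSectionVars false

namespace Pool.Agent.Y506.KS

open MeasureTheory Set Filter Topology
open scoped ENNReal InnerProductSpace Pointwise
open Pool.Agent.W695.KH

variable {ι : Type} [Fintype ι] [DecidableEq ι] {m : ι → ℕ} {κ : Type} [Fintype κ]

/-- `{x | ∀ i, ∑ j, |L i j x| ^ (p i j) ≤ 1}` -/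
def PB (p : ∀ i, Fin (m i) → ℝ) (L : ∀ i, Fin (m i) → (EuclideanSpace ℝ κ →L[ℝ] ℝ)) :
    Set (EuclideanSpace ℝ κ) := {x | ∀ i, PS (p i) (L i) x ≤ 1}

variable {p : ∀ i, Fin (m i) → ℝ} {L : ∀ i, Fin (m i) → (EuclideanSpace ℝ κ →L[ℝ] ℝ)}

theorem PB_conv (hp : ∀ i j, 2 ≤ p i j) : Convex ℝ (PB p L) := by
  intro x hx y hy s t hs ht hst i
  refine (PS_conv (hp i) (L i) x y s t hs ht hst).trans ?_
  calc s * PS (p i) (L i) x + t * PS (p i) (L i) y ≤ s * 1 + t * 1 :=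
        add_le_add (mul_le_mul_of_nonneg_left (hx i) hs) (mul_le_mul_of_nonneg_left (hy i) ht)
    _ = 1 := by rw [mul_one, mul_one, hst]

theorem PB_closed (hp : ∀ i j, 2 ≤ p i j) : IsClosed (PB p L) := by
  have e : PB p L = ⋂ i, {x | PS (p i) (L i) x ≤ 1} := by
    ext x
    unfold PB
    simp
  rw [e]
  exact isClosed_iInter fun i => isClosed_le (PS_cont (hp i) (L i)) continuous_const

theorem PB_int (hp : ∀ i j, 2 ≤ p i j) : (interior (PB p L)).Nonempty := by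
  refine ⟨0, mem_interior.2 ⟨⋂ i, {x | PS (p i) (L i) x < 1}, ?_, ?_, ?_⟩⟩
  · intro x hx i
    have := mem_iInter.1 hx i
    exact le_of_lt this
  · exact isOpen_iInter_of_finite fun i => isOpen_lt (PS_cont (hp i) (L i)) continuous_const
  · refine mem_iInter.2 fun i => ?_
    change PS (p i) (L i) 0 < 1
    rw [PS_zero (hp i) (L i) (fun j => map_zero _)]
    exact zero_lt_one

theorem PB_sym : ∀ x ∈ PB p L, -x ∈ PB p L := by
  intro x hx i
  rw [PS_neg]
  exact hx i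

theorem PB_ker (hp : ∀ i j, 2 ≤ p i j) (hbd : Bornology.IsBounded (PB p L))
    (x : EuclideanSpace ℝ κ) (hx : ∀ i j, L i j x = 0) : x = 0 := by
  refine ker_triv hbd fun c i => ?_
  rw [PS_zero (hp i) (L i) (fun j => by rw [map_smul, hx i j, smul_zero])]
  exact zero_le_one

theorem PB_PoK (hm : ∀ i, 0 < m i) (hp : ∀ i j, 2 ≤ p i j)
    (hL : ∀ x, (∀ i j, L i j x = 0) → x = 0) (q : ℕ) (hq : ∑ i, m i ≤ Fintype.card κ + q) :
    PoK (PB p L) (CP q) := by
  have h1 := pow_PoK ij_closed hm hp hL q hq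
  have e : PB p L = {x | ∀ i, (fun t : ℝ => if t ≤ 1 then (1 : ℝ) else 0)
      (∑ j, |L i j x| ^ p i j) = 1} := by
    ext x
    unfold PB PS
    refine forall_congr' fun i => ?_
    by_cases h3 : ∑ j, |L i j x| ^ p i j ≤ 1
    · simp [h3]
    · simp [h3]
  rw [e]
  exact h1

theorem PB_image (A : EuclideanSpace ℝ κ ≃L[ℝ] EuclideanSpace ℝ κ) :
    A '' PB p L = PB p fun i j => (L i j).comp (A.symm : EuclideanSpace ℝ κ →L[ℝ] _) := by
  ext y
  constructor
  · rintro ⟨x, hx, rfl⟩ i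
    have h1 := hx i
    unfold PS at h1 ⊢
    simpa using h1
  · intro hy
    refine ⟨A.symm y, fun i => ?_, A.apply_symm_apply y⟩
    have h1 := hy i
    unfold PS at h1 ⊢
    simpa using h1

theorem PB_PoK_image (hm : ∀ i, 0 < m i) (hp : ∀ i j, 2 ≤ p i j)
    (hL : ∀ x, (∀ i j, L i j x = 0) → x = 0) (q : ℕ) (hq : ∑ i, m i ≤ Fintype.card κ + q)
    (A : EuclideanSpace ℝ κ ≃L[ℝ] EuclideanSpace ℝ κ) : PoK (A '' PB p L) (CP q) := by
  rw [PB_image]
  refine PB_PoK hm hp (fun y hy => ?_) q hq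
  have h1 := hL (A.symm y) fun i j => hy i j
  have h2 : A (A.symm y) = A 0 := by rw [h1]
  rwa [A.apply_symm_apply, map_zero] at h2

/-- the Cheeger inequality for linear images of a uniform random vector of the body -/
theorem PB_cheeger [Nonempty κ] (hm : ∀ i, 0 < m i) (hp : ∀ i j, 2 ≤ p i j) (q : ℕ)
    (hq : ∑ i, m i ≤ Fintype.card κ + q) (hbd : Bornology.IsBounded (PB p L)) {n : ℕ}
    (T : Eu κ →ₗ[ℝ] Eu (Fin n)) (μ : Measure (Eu (Fin n)))
    (hμ : μ = Measure.map T ((volume (PB p L))⁻¹ • volume.restrict (PB p L))) (s : ℝ) (hs : 0 < s)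
    (hcov : ∀ θ : Eu (Fin n), ‖θ‖ = 1 → ProbabilityTheory.variance (fun x => ⟪x, θ⟫_ℝ) μ ≤ s)
    (S : Set (Eu (Fin n))) (hS : MeasurableSet S) :
    ENNReal.ofReal (1 / (2 * Real.sqrt (80 * CP q)) / Real.sqrt (2 * s)) * min (μ S) (μ Sᶜ) ≤
      liminf (fun ε : ℝ => (μ (Metric.thickening ε S) - μ S) / ENNReal.ofReal ε) (𝓝[>] 0) :=
  cheegerT (PB_conv hp) (Metric.isCompact_of_isClosed_isBounded (PB_closed hp) hbd) (PB_int hp)
    PB_sym (CP q) (CP_pos q) (PB_PoK_image hm hp (PB_ker hp hbd) q hq) T μ hμ s hs hcov S hS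

theorem const_le (q : ℕ) : 1 / (2 * Real.sqrt 80 * (4 * Real.sqrt 116486307840)) / (1 + (q : ℝ)) ^ 2 ≤
    1 / (2 * Real.sqrt (80 * CP q)) := by
  rw [div_div]
  refine one_div_le_one_div_of_le (mul_pos two_pos (Real.sqrt_pos.2
    (mul_pos (by norm_num) (CP_pos q)))) ?_
  rw [Real.sqrt_mul (by norm_num), mul_assoc, mul_assoc]
  refine mul_le_mul_of_nonneg_left ?_ (by norm_num)
  rw [mul_assoc]
  refine mul_le_mul_of_nonneg_left ?_ (Real.sqrt_nonneg _)
  exact (sqrt_CP_le q).trans (le_of_eq (by ring))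

end Pool.Agent.Y506.KS
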