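import Pool.Agent.H59.L.S8.Y506.KS.Ts
import Pool.Agent.H59.L.S8.Y506.KS.Rb

/-!
# Covariance and pairs of independent copies
-/

set_option autoImplicit false

namespace Pool.Agent.Y506.KS

open MeasureTheory Set
open scoped ENNReal InnerProductSpace

variable {k : ℕ}

/-- change of variables `(x, y) = (z + u, z - u)` -/
theorem pair_cov (G : EuclideanSpace ℝ (Fin k) → EuclideanSpace ℝ (Fin k) → ℝ≥0∞)
    (hG : Measurable (Function.uncurry G)) :
    ∫⁻ x, ∫⁻ y, G x y = ENNReal.ofReal (2 ^ k) * ∫⁻ z, ∫⁻ u, G (z + u) (z - u) := by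
  have h1 : ∀ x, ∫⁻ y, G x y = ENNReal.ofReal (2 ^ k) * ∫⁻ u, G x (x - (2 : ℝ) • u) := by
    intro x
    have hGx : Measurable fun y => G x (x - y) :=
      hG.comp (measurable_const.prodMk (measurable_const.sub measurable_id))
    rw [← lintegral_sub_left_eq_self (fun y => G x y) x]
    have h2 := lintegral_map (μ := (volume : Measure (EuclideanSpace ℝ (Fin k)))) hGx
      (measurable_const_smul (2 : ℝ))
    rw [Measure.map_addHaar_smul _ (two_ne_zero), lintegral_smul_measure,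
      finrank_euclideanSpace, Fintype.card_fin, abs_of_pos (by positivity), smul_eq_mul] at h2
    rw [← h2, ← mul_assoc, ← ENNReal.ofReal_mul (by positivity),
      mul_inv_cancel₀ (by positivity), ENNReal.ofReal_one, one_mul]
  simp only [h1]
  have hm1 : Measurable fun p : EuclideanSpace ℝ (Fin k) × EuclideanSpace ℝ (Fin k) =>
      G p.1 (p.1 - (2 : ℝ) • p.2) :=
    hG.comp (measurable_fst.prodMk (measurable_fst.sub (measurable_snd.const_smul (2 : ℝ))))
  have hm2 : Measurable fun p : EuclideanSpace ℝ (Fin k) × EuclideanSpace ℝ (Fin k) =>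
      G (p.1 + p.2) (p.1 - p.2) :=
    hG.comp ((measurable_fst.add measurable_snd).prodMk (measurable_fst.sub measurable_snd))
  rw [lintegral_const_mul _ hm1.lintegral_prod_right']
  congr 1
  have s1 : ∫⁻ x, ∫⁻ u, G x (x - (2 : ℝ) • u) = ∫⁻ u, ∫⁻ x, G x (x - (2 : ℝ) • u) :=
    lintegral_lintegral_swap hm1.aemeasurable
  have s2 : ∫⁻ z, ∫⁻ u, G (z + u) (z - u) = ∫⁻ u, ∫⁻ z, G (z + u) (z - u) :=
    lintegral_lintegral_swap hm2.aemeasurable
  rw [s1, s2]
  refine lintegral_congr fun u => ?_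
  rw [← lintegral_add_right_eq_self (fun x => G x (x - (2 : ℝ) • u)) u]
  refine lintegral_congr fun z => ?_
  congr 1
  rw [two_smul]
  abel

theorem VB_of_pair (f : EuclideanSpace ℝ (Fin k) → ℝ) (h0 : ∀ s, 0 ≤ f s) (hm : Measurable f)
    (hi : ∀ g : EuclideanSpace ℝ (Fin k) → ℝ, Continuous g → Integrable fun s => g s * f s)
    (hpos : 0 < ∫ s, f s) (R : ℝ)
    (hp : ∀ z w : EuclideanSpace ℝ (Fin k),
      ∫⁻ u, ENNReal.ofReal (⟪w, u⟫_ℝ ^ 2) * (ENNReal.ofReal (f (z + u)) *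
        ENNReal.ofReal (f (z - u))) ≤ ENNReal.ofReal (R ^ 2 / 2 * ‖w‖ ^ 2) *
      ∫⁻ u, ENNReal.ofReal (f (z + u)) * ENNReal.ofReal (f (z - u))) : VB f R := by
  intro w
  obtain ⟨M, hM⟩ : ∃ M : ℝ, M = ∫ s, f s := ⟨_, rfl⟩
  obtain ⟨c, hc⟩ : ∃ c : ℝ, c = (∫ s, ⟪w, s⟫_ℝ * f s) / ∫ s, f s := ⟨_, rfl⟩
  obtain ⟨V, hV⟩ : ∃ V : ℝ, V = ∫ s, (⟪w, s⟫_ℝ - c) ^ 2 * f s := ⟨_, rfl⟩
  rw [← hc, ← hM, ← hV]
  rw [← hM] at hpos
  have i0 : Integrable f := by
    have := hi (fun _ => 1) continuous_const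
    simpa using this
  have i1 := hi (fun s => ⟪w, s⟫_ℝ) (by fun_prop)
  have iv := hi (fun s => (⟪w, s⟫_ℝ - c) ^ 2) (by fun_prop)
  have ic := hi (fun s => ⟪w, s⟫_ℝ - c) (by fun_prop)
  have hz : ∫ s, (⟪w, s⟫_ℝ - c) * f s = 0 := by
    have e : ∀ s, (⟪w, s⟫_ℝ - c) * f s = ⟪w, s⟫_ℝ * f s - c * f s := fun s => by ring
    simp only [e]
    rw [integral_sub i1 (i0.const_mul c), integral_const_mul, hc, ← hM,
      div_mul_cancel₀ _ hpos.ne', sub_self]
  have hV0 : 0 ≤ V := by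
    rw [hV]
    exact integral_nonneg fun s => mul_nonneg (sq_nonneg _) (h0 s)
  -- the double integral
  have hin : ∀ x, ∫⁻ y, ENNReal.ofReal (⟪w, x - y⟫_ℝ ^ 2) * (ENNReal.ofReal (f x) *
      ENNReal.ofReal (f y)) = ENNReal.ofReal (f x * ((⟪w, x⟫_ℝ - c) ^ 2 * M + V)) := by
    intro x
    have e1 : ∀ y, ENNReal.ofReal (⟪w, x - y⟫_ℝ ^ 2) * (ENNReal.ofReal (f x) *
        ENNReal.ofReal (f y)) = ENNReal.ofReal (f x * (⟪w, x - y⟫_ℝ ^ 2 * f y)) := by
      intro y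
      rw [← ENNReal.ofReal_mul (h0 x), ← ENNReal.ofReal_mul (sq_nonneg _)]
      congr 1
      ring
    simp only [e1]
    have e2 : ∀ y, f x * (⟪w, x - y⟫_ℝ ^ 2 * f y) = f x * ((⟪w, x⟫_ℝ - c) ^ 2 * f y -
        2 * (⟪w, x⟫_ℝ - c) * ((⟪w, y⟫_ℝ - c) * f y) + (⟪w, y⟫_ℝ - c) ^ 2 * f y) := by
      intro y
      rw [inner_sub_right]
      ring
    have i3 : Integrable fun y => (⟪w, x⟫_ℝ - c) ^ 2 * f y -
        2 * (⟪w, x⟫_ℝ - c) * ((⟪w, y⟫_ℝ - c) * f y) := (i0.const_mul _).sub (ic.const_mul _)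
    have i4 : Integrable fun y => f x * ((⟪w, x⟫_ℝ - c) ^ 2 * f y -
        2 * (⟪w, x⟫_ℝ - c) * ((⟪w, y⟫_ℝ - c) * f y) + (⟪w, y⟫_ℝ - c) ^ 2 * f y) :=
      (i3.add iv).const_mul _
    have e3 : ∫ y, f x * (⟪w, x - y⟫_ℝ ^ 2 * f y) = f x * ((⟪w, x⟫_ℝ - c) ^ 2 * M + V) := by
      simp only [e2]
      rw [integral_const_mul, integral_add i3 iv, integral_sub (i0.const_mul _)
        (ic.const_mul _), integral_const_mul, integral_const_mul, hz, ← hM, ← hV]
      ring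
    rw [← e3, ofReal_integral_eq_lintegral_ofReal]
    · simp only [e2]
      exact i4
    · exact Filter.Eventually.of_forall fun y => mul_nonneg (h0 x)
        (mul_nonneg (sq_nonneg _) (h0 y))
  have hout : ∫⁻ x, ∫⁻ y, ENNReal.ofReal (⟪w, x - y⟫_ℝ ^ 2) * (ENNReal.ofReal (f x) *
      ENNReal.ofReal (f y)) = ENNReal.ofReal (2 * (V * M)) := by
    simp only [hin]
    have e1 : ∀ x, f x * ((⟪w, x⟫_ℝ - c) ^ 2 * M + V) =
        M * ((⟪w, x⟫_ℝ - c) ^ 2 * f x) + V * f x := fun x => by ring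
    have e2 : ∫ x, f x * ((⟪w, x⟫_ℝ - c) ^ 2 * M + V) = 2 * (V * M) := by
      simp only [e1]
      rw [integral_add (iv.const_mul _) (i0.const_mul _), integral_const_mul, integral_const_mul,
        ← hM, ← hV]
      ring
    rw [← e2, ofReal_integral_eq_lintegral_ofReal]
    · simp only [e1]
      exact (iv.const_mul _).add (i0.const_mul _)
    · exact Filter.Eventually.of_forall fun x => mul_nonneg (h0 x)
        (add_nonneg (mul_nonneg (sq_nonneg _) hpos.le) hV0)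
  have hmass : ∫⁻ x, ∫⁻ y, ENNReal.ofReal (f x) * ENNReal.ofReal (f y) =
      ENNReal.ofReal (M * M) := by
    have e1 : ∀ x, ∫⁻ y, ENNReal.ofReal (f x) * ENNReal.ofReal (f y) =
        ENNReal.ofReal (f x) * ENNReal.ofReal M := by
      intro x
      rw [lintegral_const_mul _ hm.ennreal_ofReal, hM,
        ofReal_integral_eq_lintegral_ofReal i0 (Filter.Eventually.of_forall h0)]
    simp only [e1]
    rw [lintegral_mul_const _ hm.ennreal_ofReal,
      ← ofReal_integral_eq_lintegral_ofReal i0 (Filter.Eventually.of_forall h0), ← hM,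
      ENNReal.ofReal_mul hpos.le]
  have hmf : Measurable fun s => ENNReal.ofReal (f s) := ENNReal.measurable_ofReal.comp hm
  have hmp : Measurable (Function.uncurry fun x y : EuclideanSpace ℝ (Fin k) =>
      ENNReal.ofReal (f x) * ENNReal.ofReal (f y)) :=
    (hmf.comp measurable_fst).mul (hmf.comp measurable_snd)
  have hmq : Measurable (Function.uncurry fun x y : EuclideanSpace ℝ (Fin k) =>
      ENNReal.ofReal (⟪w, x - y⟫_ℝ ^ 2) * (ENNReal.ofReal (f x) * ENNReal.ofReal (f y))) := by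
    have hc1 : Continuous fun p : EuclideanSpace ℝ (Fin k) × EuclideanSpace ℝ (Fin k) =>
      ⟪w, p.1 - p.2⟫_ℝ ^ 2 := by fun_prop
    exact (ENNReal.measurable_ofReal.comp hc1.measurable).mul hmp
  rw [pair_cov _ hmq] at hout
  rw [pair_cov _ hmp] at hmass
  have hle : ENNReal.ofReal (2 * (V * M)) ≤ ENNReal.ofReal (2 * R ^ 2 * ‖w‖ ^ 2 * (M * M)) := by
    rw [← hout, ENNReal.ofReal_mul (by positivity : 0 ≤ 2 * R ^ 2 * ‖w‖ ^ 2), ← hmass,
      mul_left_comm]
    refine mul_le_mul' le_rfl ?_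
    have hmr : Measurable fun z : EuclideanSpace ℝ (Fin k) =>
        ∫⁻ u, ENNReal.ofReal (f (z + u)) * ENNReal.ofReal (f (z - u)) := by
      have : Measurable (Function.uncurry fun z u : EuclideanSpace ℝ (Fin k) =>
          ENNReal.ofReal (f (z + u)) * ENNReal.ofReal (f (z - u))) :=
        (hmf.comp (measurable_fst.add measurable_snd)).mul
          (hmf.comp (measurable_fst.sub measurable_snd))
      exact this.lintegral_prod_right
    rw [← lintegral_const_mul _ hmr]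
    refine lintegral_mono fun z => ?_
    have e1 : ∀ u, ENNReal.ofReal (⟪w, z + u - (z - u)⟫_ℝ ^ 2) * (ENNReal.ofReal (f (z + u)) *
        ENNReal.ofReal (f (z - u))) = ENNReal.ofReal 4 * (ENNReal.ofReal (⟪w, u⟫_ℝ ^ 2) *
          (ENNReal.ofReal (f (z + u)) * ENNReal.ofReal (f (z - u)))) := by
      intro u
      have e0 : z + u - (z - u) = (2 : ℝ) • u := by
        rw [two_smul]
        abel
      have e3 : ENNReal.ofReal 4 * ENNReal.ofReal (⟪w, u⟫_ℝ ^ 2) =
          ENNReal.ofReal (4 * ⟪w, u⟫_ℝ ^ 2) := (ENNReal.ofReal_mul (by norm_num)).symm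
      rw [← mul_assoc (ENNReal.ofReal 4), e3, e0, real_inner_smul_right]
      congr 2
      ring
    simp only [e1]
    rw [lintegral_const_mul' _ _ ENNReal.ofReal_ne_top]
    refine (mul_le_mul' le_rfl (hp z w)).trans (le_of_eq ?_)
    rw [← mul_assoc, ← ENNReal.ofReal_mul (by norm_num)]
    congr 2
    ring
  have h3 := (ENNReal.ofReal_le_ofReal_iff (by positivity)).1 hle
  have h4 : M * V ≤ M * (R ^ 2 * ‖w‖ ^ 2 * M) := by
    calc M * V = (2 * (V * M)) / 2 := by ring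
      _ ≤ (2 * R ^ 2 * ‖w‖ ^ 2 * (M * M)) / 2 := by linarith
      _ = _ := by ring
  exact le_of_mul_le_mul_left h4 hpos

end Pool.Agent.Y506.KS
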