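import Pool.Agent.H59.L.S8.Y506.KS.Pr

/-!
# Radial factors are stable under Gaussian tilts
-/

set_option autoImplicit false
set_option linter.unusedSectionVars false

namespace Pool.Agent.Y506.KS

open MeasureTheory Set
open scoped ENNReal InnerProductSpace

variable {k : ℕ}

theorem rf_int {F : ℝ → ℝ} {T : ℝ} (h : RF F T) (u : EuclideanSpace ℝ (Fin k) → ℝ)
    (hu : Continuous u) : Integrable fun x => u x * F (‖x‖ ^ 2) := by
  obtain ⟨B, hB0, hB⟩ := h.bdd
  obtain ⟨C, hC⟩ := (isCompact_closedBall (0 : EuclideanSpace ℝ (Fin k))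
    (Real.sqrt T)).exists_bound_of_continuousOn (f := u) hu.continuousOn
  have hm : Measurable fun x : EuclideanSpace ℝ (Fin k) => F (‖x‖ ^ 2) :=
    h.meas.comp (continuous_norm.pow 2).measurable
  have h1 : IntegrableOn (fun x => u x * F (‖x‖ ^ 2))
      (Metric.closedBall (0 : EuclideanSpace ℝ (Fin k)) (Real.sqrt T)) := by
    refine Measure.integrableOn_of_bounded (M := C * B) ?_ ?_ ?_
    · exact (isCompact_closedBall _ _).measure_lt_top.ne
    · exact (hu.measurable.mul hm).aestronglyMeasurable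
    · refine ae_restrict_of_forall_mem measurableSet_closedBall fun x hx => ?_
      rw [norm_mul, Real.norm_of_nonneg (h.nonneg _)]
      exact mul_le_mul (hC x hx) (hB _) (h.nonneg _) ((norm_nonneg _).trans (hC x hx))
  refine (integrableOn_iff_integrable_of_support_subset ?_).1 h1
  intro x hx
  rw [Metric.mem_closedBall, dist_zero_right]
  refine Real.le_sqrt_of_sq_le ?_
  by_contra hn
  exact hx (by simp only [h.supp _ (not_le.1 hn), mul_zero])

theorem VB_radial {F : ℝ → ℝ} {T : ℝ} (h : RF F T) (a : EuclideanSpace ℝ (Fin k)) (b : ℝ)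
    (hpos : 0 < ∫ s : EuclideanSpace ℝ (Fin k), F (‖s‖ ^ 2) *
      Real.exp (⟪a, s⟫_ℝ - b * ‖s‖ ^ 2)) (R : ℝ)
    (hR : 0 < k → 4 * T ≤ R ^ 2 * k) :
    VB (fun s : EuclideanSpace ℝ (Fin k) => F (‖s‖ ^ 2) *
      Real.exp (⟪a, s⟫_ℝ - b * ‖s‖ ^ 2)) R := by
  rcases k with _ | k
  · intro w
    have hw : ∀ s : EuclideanSpace ℝ (Fin 0), ⟪w, s⟫_ℝ = 0 := fun s => by
      rw [Subsingleton.elim w 0, inner_zero_left]
    simp only [hw, zero_mul, integral_zero, zero_div, sub_zero]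
    have h1 : 0 ≤ R ^ 2 * ‖w‖ ^ 2 := by positivity
    simpa using mul_nonneg h1 hpos.le
  · have hT : 2 * T / ((k : ℝ) + 1) ≤ R ^ 2 / 2 := by
      rw [div_le_iff₀ (by positivity)]
      have hR' := hR (Nat.succ_pos k)
      push_cast at hR'
      linarith
    refine VB_of_pair _ (fun s => mul_nonneg (h.nonneg _) (Real.exp_pos _).le) ?_ ?_ hpos R ?_
    · have h1 : Continuous fun s : EuclideanSpace ℝ (Fin (k + 1)) =>
        Real.exp (⟪a, s⟫_ℝ - b * ‖s‖ ^ 2) := by fun_prop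
      exact (h.meas.comp (continuous_norm.pow 2).measurable).mul h1.measurable
    · intro g hg
      have h1 := rf_int h (fun s => g s * Real.exp (⟪a, s⟫_ℝ - b * ‖s‖ ^ 2)) (by fun_prop)
      refine h1.congr (Filter.Eventually.of_forall fun s => ?_)
      simp only
      ring
    · intro z w
      obtain ⟨K, hK⟩ : ∃ K : ℝ, K = Real.exp (2 * ⟪a, z⟫_ℝ - 2 * b * ‖z‖ ^ 2) := ⟨_, rfl⟩
      have hK0 : 0 < K := by rw [hK]; exact Real.exp_pos _
      have e1 : ∀ u : EuclideanSpace ℝ (Fin (k + 1)),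
          ENNReal.ofReal (F (‖z + u‖ ^ 2) * Real.exp (⟪a, z + u⟫_ℝ - b * ‖z + u‖ ^ 2)) *
          ENNReal.ofReal (F (‖z - u‖ ^ 2) * Real.exp (⟪a, z - u⟫_ℝ - b * ‖z - u‖ ^ 2)) =
          ENNReal.ofReal (K * gz F b z u) := by
        intro u
        rw [← ENNReal.ofReal_mul (mul_nonneg (h.nonneg _) (Real.exp_pos _).le)]
        congr 1
        unfold gz
        have n1 : ‖z + u‖ ^ 2 = ‖z‖ ^ 2 + ‖u‖ ^ 2 + 2 * ⟪z, u⟫_ℝ := by
          rw [norm_add_sq_real]; ring
        have n2 : ‖z - u‖ ^ 2 = ‖z‖ ^ 2 + ‖u‖ ^ 2 - 2 * ⟪z, u⟫_ℝ := by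
          rw [norm_sub_sq_real]; ring
        rw [← n1, ← n2]
        have e2 : Real.exp (⟪a, z + u⟫_ℝ - b * ‖z + u‖ ^ 2) *
            Real.exp (⟪a, z - u⟫_ℝ - b * ‖z - u‖ ^ 2) = K * Real.exp (-(2 * b * ‖u‖ ^ 2)) := by
          rw [hK, ← Real.exp_add, ← Real.exp_add, n1, n2, inner_add_right, inner_sub_right]
          congr 1
          ring
        calc _ = F (‖z + u‖ ^ 2) * F (‖z - u‖ ^ 2) *
              (Real.exp (⟪a, z + u⟫_ℝ - b * ‖z + u‖ ^ 2) *
                Real.exp (⟪a, z - u⟫_ℝ - b * ‖z - u‖ ^ 2)) := by ring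
          _ = _ := by rw [e2]; ring
      simp only [e1]
      have i0 : Integrable fun u => K * gz F b z u := by
        have := (gz_int h b z (fun _ => 1) continuous_const).const_mul K
        simpa using this
      have i2 : Integrable fun u => ⟪w, u⟫_ℝ ^ 2 * (K * gz F b z u) := by
        refine ((gz_int h b z (fun u => ⟪w, u⟫_ℝ ^ 2) (by fun_prop)).const_mul K).congr
          (Filter.Eventually.of_forall fun u => ?_)
        simp only
        ring
      have e3 : ∀ u, ENNReal.ofReal (⟪w, u⟫_ℝ ^ 2) * ENNReal.ofReal (K * gz F b z u) =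
          ENNReal.ofReal (⟪w, u⟫_ℝ ^ 2 * (K * gz F b z u)) := fun u =>
        (ENNReal.ofReal_mul (sq_nonneg _)).symm
      simp only [e3]
      rw [← ofReal_integral_eq_lintegral_ofReal i2 (Filter.Eventually.of_forall fun u =>
          mul_nonneg (sq_nonneg _) (mul_nonneg hK0.le (gz_nonneg h b z u))),
        ← ofReal_integral_eq_lintegral_ofReal i0 (Filter.Eventually.of_forall fun u =>
          mul_nonneg hK0.le (gz_nonneg h b z u)), ← ENNReal.ofReal_mul (by positivity)]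
      refine ENNReal.ofReal_le_ofReal ?_
      have e4 : ∀ u, ⟪w, u⟫_ℝ ^ 2 * (K * gz F b z u) = K * (⟪w, u⟫_ℝ ^ 2 * gz F b z u) :=
        fun u => by ring
      simp only [e4]
      rw [integral_const_mul, integral_const_mul]
      have h5 := gz_mom h b z w
      have h6 : 0 ≤ ∫ u, gz F b z u := integral_nonneg fun u => gz_nonneg h b z u
      calc K * ∫ u, ⟪w, u⟫_ℝ ^ 2 * gz F b z u
          ≤ K * (2 * T / ((k : ℝ) + 1) * ‖w‖ ^ 2 * ∫ u, gz F b z u) :=
            mul_le_mul_of_nonneg_left h5 hK0.le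
        _ ≤ K * (R ^ 2 / 2 * ‖w‖ ^ 2 * ∫ u, gz F b z u) := by gcongr
        _ = _ := by ring

/-- second moments of radial densities -/
theorem radial_mom {F : ℝ → ℝ} {T : ℝ} (h : RF F T) (c : EuclideanSpace ℝ (Fin k)) :
    (k : ℝ) * ∫ s : EuclideanSpace ℝ (Fin k), ⟪c, s⟫_ℝ ^ 2 * F (‖s‖ ^ 2) =
      ‖c‖ ^ 2 * ∫ s : EuclideanSpace ℝ (Fin k), ‖s‖ ^ 2 * F (‖s‖ ^ 2) := by
  rcases k with _ | k
  · have h1 : c = 0 := Subsingleton.elim _ _
    rw [h1]
    simp
  · obtain ⟨g, hg⟩ : ∃ g : EuclideanSpace ℝ (Fin (k + 1)) → ℝ, g = fun s => F (‖s‖ ^ 2) :=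
      ⟨_, rfl⟩
    have hg' : ∀ s : EuclideanSpace ℝ (Fin (k + 1)), F (‖s‖ ^ 2) = g s := fun s => by rw [hg]
    have hint : ∀ u : EuclideanSpace ℝ (Fin (k + 1)) → ℝ, Continuous u →
        Integrable fun x => u x * g x := fun u hu => by
      rw [hg]
      exact rf_int h u hu
    have hsw : ∀ i j x, g (sw i j x) = g x := fun i j x => by
      rw [hg]
      simp only [LinearIsometryEquiv.norm_map]
    have hfl : ∀ i x, g (fl i x) = g x := fun i x => by
      rw [hg]
      simp only [LinearIsometryEquiv.norm_map]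
    simp only [hg']
    have hQ := Q_exp g 0 (fun i j => hint (fun x => x i * x j) (by fun_prop))
      (fun i _ x => hfl i x) c
    have i2 : ∀ i, Integrable fun x : EuclideanSpace ℝ (Fin (k + 1)) => x i ^ 2 * g x :=
      fun i => hint (fun x => x i ^ 2) (by fun_prop)
    have heq : ∀ i, ∫ x, x i ^ 2 * g x = ∫ x, x 0 ^ 2 * g x := fun i =>
      le_antisymm (Q_le g i 0 i2 fun x _ => (hsw _ _ x).le)
        (Q_le g 0 i i2 fun x _ => (hsw _ _ x).le)
    have hS : ∫ s : EuclideanSpace ℝ (Fin (k + 1)), ‖s‖ ^ 2 * g s =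
        ((k : ℝ) + 1) * ∫ x, x 0 ^ 2 * g x := by
      have e1 : ∀ s : EuclideanSpace ℝ (Fin (k + 1)), ‖s‖ ^ 2 * g s = ∑ i, s i ^ 2 * g s :=
        fun s => by rw [EuclideanSpace.real_norm_sq_eq, Finset.sum_mul]
      simp only [e1]
      rw [integral_finsetSum _ fun i _ => i2 i]
      simp only [heq]
      rw [Finset.sum_const, Finset.card_univ, Fintype.card_fin, nsmul_eq_mul]
      push_cast
      ring
    rw [hQ, hS]
    simp only [heq]
    rw [← Finset.sum_mul, ← EuclideanSpace.real_norm_sq_eq]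
    push_cast
    ring

/-! ### log-concave decreasing functions of the square of the norm -/

/-- non-increasing log-concave functions on `[0, ∞)` vanishing beyond `T` -/
structure LF (F : ℝ → ℝ) (T : ℝ) : Prop where
  nonneg : ∀ t, 0 ≤ t → 0 ≤ F t
  anti : ∀ s t, 0 ≤ s → s ≤ t → F t ≤ F s
  lc : ∀ x y t : ℝ, 0 ≤ x → 0 ≤ y → 0 < t → t < 1 →
    F x ^ (1 - t) * F y ^ t ≤ F ((1 - t) * x + t * y)
  supp : ∀ t, 0 ≤ t → T < t → F t = 0
  pos : ∃ τ : ℝ, 0 < τ ∧ 0 < F τ

/-- the extension by a constant -/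
noncomputable def ext0 (F : ℝ → ℝ) (t : ℝ) : ℝ := F (max t 0)

theorem ext0_of_nonneg (F : ℝ → ℝ) {t : ℝ} (ht : 0 ≤ t) : ext0 F t = F t := by
  unfold ext0
  rw [max_eq_left ht]

theorem LF.ext_anti {F : ℝ → ℝ} {T : ℝ} (h : LF F T) : Antitone (ext0 F) := fun s t hst =>
  h.anti _ _ (le_max_right _ _) (max_le_max_right 0 hst)

theorem LF.ext_lc {F : ℝ → ℝ} {T : ℝ} (h : LF F T) (x y t : ℝ) (h0 : 0 < t) (h1 : t < 1) :
    ext0 F x ^ (1 - t) * ext0 F y ^ t ≤ ext0 F ((1 - t) * x + t * y) := by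
  have h2 : 0 < 1 - t := by linarith
  refine (h.lc (max x 0) (max y 0) t (le_max_right _ _) (le_max_right _ _) h0 h1).trans ?_
  refine h.anti _ _ (le_max_right _ _) (max_le ?_ ?_)
  · exact add_le_add (mul_le_mul_of_nonneg_left (le_max_left _ _) h2.le)
      (mul_le_mul_of_nonneg_left (le_max_left _ _) h0.le)
  · exact add_nonneg (mul_nonneg h2.le (le_max_right _ _)) (mul_nonneg h0.le (le_max_right _ _))

theorem LF.ext_nonneg {F : ℝ → ℝ} {T : ℝ} (h : LF F T) (t : ℝ) : 0 ≤ ext0 F t :=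
  h.nonneg _ (le_max_right _ _)

theorem LF.rf {F : ℝ → ℝ} {T : ℝ} (h : LF F T) (hT : 0 ≤ T) : RF (ext0 F) T := by
  have hn := h.ext_nonneg
  refine ⟨hn, h.ext_anti.measurable, ⟨F 0 + 1, ?_, fun t => ?_⟩, fun t ht => ?_, ?_⟩
  · have := h.nonneg 0 le_rfl
    linarith
  · have := h.anti 0 (max t 0) le_rfl (le_max_right _ _)
    unfold ext0
    linarith
  · rw [ext0_of_nonneg F (hT.trans ht.le)]
    exact h.supp t (hT.trans ht.le) ht
  · have key : ∀ A t t', 0 ≤ t → t ≤ t' → ext0 F (A + t') * ext0 F (A - t') ≤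
        ext0 F (A + t) * ext0 F (A - t) := by
      intro A t t' h0 h1
      rcases eq_or_lt_of_le h1 with he | hlt
      · rw [he]
      · have ht' : 0 < t' := lt_of_le_of_lt h0 hlt
        obtain ⟨l, hl⟩ : ∃ l : ℝ, l = (1 - t / t') / 2 := ⟨_, rfl⟩
        have hq1 : t / t' < 1 := by rw [div_lt_one ht']; exact hlt
        have hq0 : 0 ≤ t / t' := div_nonneg h0 ht'.le
        have hl0 : 0 < l := by rw [hl]; linarith
        have hl1 : l < 1 := by rw [hl]; linarith
        have e0 : (1 - 2 * l) * t' = t := by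
          rw [hl]
          field_simp
          ring
        have h2 := h.ext_lc (A + t') (A - t') l hl0 hl1
        have h3 := h.ext_lc (A - t') (A + t') l hl0 hl1
        have e1 : (1 - l) * (A + t') + l * (A - t') = A + t := by linarith
        have e2 : (1 - l) * (A - t') + l * (A + t') = A - t := by linarith
        rw [e1] at h2
        rw [e2] at h3
        have hl1' : 0 < 1 - l := by linarith
        have hP := hn (A + t')
        have hM := hn (A - t')
        have e3 : ∀ x : ℝ, 0 ≤ x → x ^ (1 - l) * x ^ l = x := fun x hx => by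
          rw [← Real.rpow_add_of_nonneg hx hl1'.le hl0.le, sub_add_cancel, Real.rpow_one]
        calc ext0 F (A + t') * ext0 F (A - t')
            = (ext0 F (A + t') ^ (1 - l) * ext0 F (A + t') ^ l) *
              (ext0 F (A - t') ^ (1 - l) * ext0 F (A - t') ^ l) := by
              rw [e3 _ hP, e3 _ hM]
          _ = (ext0 F (A + t') ^ (1 - l) * ext0 F (A - t') ^ l) *
              (ext0 F (A - t') ^ (1 - l) * ext0 F (A + t') ^ l) := by ring
          _ ≤ _ := mul_le_mul h2 h3 (by positivity) (hn _)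
    intro A t t' htt
    have h1 := key A |t| |t'| (abs_nonneg _) htt
    have e : ∀ s : ℝ, ext0 F (A + |s|) * ext0 F (A - |s|) = ext0 F (A + s) * ext0 F (A - s) := by
      intro s
      rcases abs_cases s with ⟨hs, -⟩ | ⟨hs, -⟩
      · rw [hs]
      · rw [hs, sub_neg_eq_add, ← sub_eq_add_neg, mul_comm]
    rwa [e, e] at h1

end Pool.Agent.Y506.KS
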