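import Pool.Agent.H59.L.S8.Y506.KS.Rt
import Pool.Agent.H59.L.S8.Y506.KS.Dens2

/-!
# Poincare inequality for densities `∏ F i (|Q i x| ^ 2)`
-/

set_option autoImplicit false
set_option linter.unusedSectionVars false

namespace Pool.Agent.Y506.KS

open MeasureTheory Set
open scoped ENNReal InnerProductSpace
open Pool.Agent.H212R2.KLS (mu Bdd)

variable {ι : Type} [Fintype ι] [DecidableEq ι] {m : ι → ℕ} {α : Type} [Fintype α]

/-- the radial densities -/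
noncomputable def rd (m : ι → ℕ) (F : ι → ℝ → ℝ) (i : ι) (s : Xb m i) : ℝ := F i (‖s‖ ^ 2)

theorem rd_fam {F : ι → ℝ → ℝ} {T : ι → ℝ} (h : ∀ i, LF (F i) (T i)) :
    ∃ R : ℝ, Fam (rd m F) R := by
  have hT : ∀ i, 0 < T i := fun i => by
    obtain ⟨τ, hτ, hp⟩ := (h i).pos
    by_contra hn
    have h1 := (h i).supp τ hτ.le (by linarith)
    linarith
  refine ⟨∑ i, Real.sqrt (T i), fun i s => (h i).nonneg _ (sq_nonneg _), fun i => ?_, ?_, ?_,
    ?_, ?_⟩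
  · have h1 : rd m F i = fun s => ext0 (F i) (‖s‖ ^ 2) := by
      funext s
      rw [ext0_of_nonneg _ (sq_nonneg _)]
      rfl
    rw [h1]
    exact (h i).ext_anti.measurable.comp (continuous_norm.pow 2).measurable
  · intro i s u t ht0 ht1
    unfold rd
    have h2 : 0 < 1 - t := by linarith
    refine ((h i).lc (‖s‖ ^ 2) (‖u‖ ^ 2) t (sq_nonneg _) (sq_nonneg _) ht0 ht1).trans ?_
    refine (h i).anti _ _ (sq_nonneg _) ?_
    have h3 := sq_conv s u 0 t ht0 ht1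
    simpa only [sub_zero] using h3
  · intro i s hs
    refine (h i).supp _ (sq_nonneg _) ?_
    have h1 : Real.sqrt (T i) < ‖s‖ := lt_of_le_of_lt
      (Finset.single_le_sum (f := fun j => Real.sqrt (T j)) (fun j _ => Real.sqrt_nonneg _)
        (Finset.mem_univ i)) hs
    exact (Real.sqrt_lt' (lt_of_le_of_lt (Real.sqrt_nonneg _) h1)).1 h1
  · refine ⟨1 + ∑ i, F i 0, ?_, fun i s => ((h i).anti 0 _ le_rfl (sq_nonneg _)).trans ?_⟩
    · have : 0 ≤ ∑ i, F i 0 := Finset.sum_nonneg fun i _ => (h i).nonneg 0 le_rfl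
      linarith
    · have := Finset.single_le_sum (f := fun i => F i 0) (fun i _ => (h i).nonneg 0 le_rfl)
        (Finset.mem_univ i)
      linarith
  · have h1 : ∀ i, ∃ δ : ℝ, 0 < δ ∧ ∀ s : Xb m i, ‖s‖ < δ → δ ≤ rd m F i s := fun i => by
      obtain ⟨τ, hτ, hp⟩ := (h i).pos
      refine ⟨min (F i τ) (min τ 1), lt_min hp (lt_min hτ one_pos), fun s hs => ?_⟩
      refine (min_le_left _ _).trans ((h i).anti _ _ (sq_nonneg _) ?_)
      have h2 : ‖s‖ < τ := hs.trans_le ((min_le_right _ _).trans (min_le_left _ _))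
      have h3 : ‖s‖ < 1 := hs.trans_le ((min_le_right _ _).trans (min_le_right _ _))
      nlinarith [norm_nonneg s]
    choose δ hδ hp using h1
    have h2 : ∀ᶠ x in nhdsWithin (0 : ℝ) (Ioi 0), ∀ i, x < δ i := by
      rw [Filter.eventually_all]
      intro i
      exact Filter.mem_of_superset (Ioo_mem_nhdsGT (hδ i)) fun x hx => hx.2
    obtain ⟨x, hx, hx0⟩ := (h2.and self_mem_nhdsWithin).exists
    exact ⟨x, x, hx0, hx0, fun i s hs => (hx i).le.trans (hp i s (hs.trans (hx i)))⟩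

theorem LF.T_pos {F : ℝ → ℝ} {T : ℝ} (h : LF F T) : 0 < T := by
  obtain ⟨τ, hτ, hp⟩ := h.pos
  by_contra hn
  have h1 := h.supp τ hτ.le (by linarith)
  linarith

theorem rd_TS {F : ι → ℝ → ℝ} {T : ι → ℝ} (h : ∀ i, LF (F i) (T i)) (R : ℝ)
    (hR : ∀ i, 0 < m i → 4 * T i ≤ R ^ 2 * m i) : TS (rd m F) R := by
  obtain ⟨R0, hF⟩ := rd_fam (m := m) h
  intro i a b hb
  have e : (fun s : Xb m i => rd m F i s * Real.exp (⟪a, s⟫_ℝ - b * ‖s‖ ^ 2)) =
      fun s => ext0 (F i) (‖s‖ ^ 2) * Real.exp (⟪a, s⟫_ℝ - b * ‖s‖ ^ 2) := by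
    funext s
    rw [ext0_of_nonneg _ (sq_nonneg _)]
    rfl
  have hp := (hF.md (Function.update (fun _ => 0) i a) (fun _ => 0) b hb).ipos i
  have e2 : ∀ s : Xb m i, md (rd m F) (Function.update (fun _ => 0) i a) (fun _ => 0) b i s =
      ext0 (F i) (‖s‖ ^ 2) * Real.exp (⟪a, s⟫_ℝ - b * ‖s‖ ^ 2) := by
    intro s
    unfold md
    rw [Function.update_self, sub_zero, ext0_of_nonneg _ (sq_nonneg _)]
    rfl
  simp only [e2] at hp
  rw [e]
  exact VB_radial ((h i).rf (h i).T_pos.le) a b hp R (hR i)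

theorem rd_mom {F : ι → ℝ → ℝ} {T : ι → ℝ} (h : ∀ i, LF (F i) (T i)) (i : ι) (c : Xb m i) :
    (m i : ℝ) * ∫ s, ⟪c, s⟫_ℝ ^ 2 * rd m F i s = ‖c‖ ^ 2 * ∫ s, ‖s‖ ^ 2 * rd m F i s := by
  have h1 := radial_mom (k := m i) ((h i).rf (h i).T_pos.le) c
  have e : ∀ s : Xb m i, rd m F i s = ext0 (F i) (‖s‖ ^ 2) := fun s => by
    rw [ext0_of_nonneg _ (sq_nonneg _)]
    rfl
  simp only [e]
  exact h1

theorem LF.scale {F : ℝ → ℝ} {T : ℝ} (h : LF F T) (l : ℝ) (hl : 0 < l) :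
    LF (fun t => F (t / l)) (T * l) := by
  refine ⟨fun t ht => h.nonneg _ (div_nonneg ht hl.le), fun s t hs hst =>
    h.anti _ _ (div_nonneg hs hl.le) (div_le_div_of_nonneg_right hst hl.le), ?_, ?_, ?_⟩
  · intro x y t hx hy h0 h1
    have h2 := h.lc (x / l) (y / l) t (div_nonneg hx hl.le) (div_nonneg hy hl.le) h0 h1
    have e : (1 - t) * (x / l) + t * (y / l) = ((1 - t) * x + t * y) / l := by ring
    rw [e] at h2
    exact h2
  · intro t ht hT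
    exact h.supp _ (div_nonneg ht hl.le) (by rwa [lt_div_iff₀ hl])
  · obtain ⟨τ, hτ, hp⟩ := h.pos
    exact ⟨τ * l, mul_pos hτ hl, by simpa only [mul_div_cancel_right₀ _ hl.ne'] using hp⟩

theorem rad_poincare {Q : ∀ i, EuclideanSpace ℝ α →L[ℝ] Xb m i}
    (hQ : ∀ x, (∀ i, Q i x = 0) → x = 0) {F : ι → ℝ → ℝ} {T : ι → ℝ}
    (hF : ∀ i, LF (F i) (T i)) (hm : ∀ i, 0 < m i) (κ : ℝ) (hκ : 0 < κ)
    (hW : ∀ i, T i * ∫ s : Xb m i, F i (‖s‖ ^ 2) ≤
      κ ^ 2 * ∫ s : Xb m i, ‖s‖ ^ 2 * F i (‖s‖ ^ 2))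
    (q : ℕ) (hq : ∑ i, m i ≤ Fintype.card α + q) (s : ℝ) (hs : 0 < s)
    (hcov : ∀ e : EuclideanSpace ℝ α, ∫ x, ⟪e, x⟫_ℝ ^ 2 * dn Q (rd m F) x ≤
      s * ‖e‖ ^ 2 * ∫ x, dn Q (rd m F) x)
    (f : EuclideanSpace ℝ α → ℝ) (hf : ContDiff ℝ 1 f) (h0 : ∫ x, f x * dn Q (rd m F) x = 0) :
    ∫ x, f x ^ 2 * dn Q (rd m F) x ≤ 1376256 * ((q : ℝ) + 2) ^ 4 * (4 * κ ^ 2) * s *
      ∫ x, ‖fderiv ℝ f x‖ ^ 2 * dn Q (rd m F) x := by
  have hT : ∀ i, 0 < T i := fun i => (hF i).T_pos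
  have hmr : ∀ i, (0 : ℝ) < m i := fun i => by exact_mod_cast hm i
  let l : ι → ℝ := fun i => m i / T i
  have hl : ∀ i, 0 < l i := fun i => div_pos (hmr i) (hT i)
  have hlT : ∀ i, T i * l i = m i := fun i => by
    simp only [l]
    rw [mul_div_cancel₀ _ (hT i).ne']
  let F' : ι → ℝ → ℝ := fun i t => F i (t / l i)
  have hF' : ∀ i, LF (F' i) (m i) := fun i => by
    have := (hF i).scale (l i) (hl i)
    rw [hlT] at this
    exact this
  let Q' : ∀ i, EuclideanSpace ℝ α →L[ℝ] Xb m i := fun i => Real.sqrt (l i) • Q i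
  have hsl : ∀ i, 0 < Real.sqrt (l i) := fun i => Real.sqrt_pos.2 (hl i)
  have hQ'a : ∀ i x, Q' i x = Real.sqrt (l i) • Q i x := fun i x => rfl
  have hQ' : ∀ x, (∀ i, Q' i x = 0) → x = 0 := fun x hx => hQ x fun i => by
    have h1 := hx i
    rw [hQ'a] at h1
    exact (smul_eq_zero.1 h1).resolve_left (hsl i).ne'
  have hdn : ∀ x, dn Q' (rd m F') x = dn Q (rd m F) x := by
    intro x
    unfold dn
    refine Finset.prod_congr rfl fun i _ => ?_
    simp only [rd, F']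
    rw [hQ'a, norm_smul, mul_pow, Real.norm_eq_abs, sq_abs, Real.sq_sqrt (hl i).le,
      mul_div_cancel_left₀ _ (hl i).ne']
  obtain ⟨R0, hFam⟩ := rd_fam (m := m) hF'
  have hTS : TS (rd m F') 2 := rd_TS hF' 2 fun i _ => by norm_num
  have hev : ∀ i s, rd m F' i (-s) = rd m F' i s := fun i s => by
    unfold rd
    rw [norm_neg]
  have hr : ∀ i (c : Xb m i), (1 / κ ^ 2) * ‖c‖ ^ 2 * ∫ s, rd m F' i s ≤
      ∫ s, ⟪c, s⟫_ℝ ^ 2 * rd m F' i s := by
    intro i c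
    have h1 := rd_mom hF' i c
    -- scaling of the integrals
    have hc : ∀ G : Xb m i → ℝ, ∫ s, G ((Real.sqrt (l i))⁻¹ • s) =
        Real.sqrt (l i) ^ m i * ∫ s, G s := by
      intro G
      rw [Measure.integral_comp_smul, finrank_euclideanSpace, Fintype.card_fin, smul_eq_mul,
        abs_of_pos (by have := hsl i; positivity), inv_pow, inv_inv]
    have e0 : ∀ s : Xb m i, ‖(Real.sqrt (l i))⁻¹ • s‖ ^ 2 = ‖s‖ ^ 2 / l i := by
      intro s
      rw [norm_smul, mul_pow, norm_inv, Real.norm_eq_abs, inv_pow, sq_abs,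
        Real.sq_sqrt (hl i).le, inv_mul_eq_div]
    have e1 := hc fun s => F i (‖s‖ ^ 2)
    have e2 := hc fun s => ‖s‖ ^ 2 * F i (‖s‖ ^ 2)
    simp only [e0] at e1 e2
    have e3 : ∫ s, rd m F' i s = Real.sqrt (l i) ^ m i * ∫ s : Xb m i, F i (‖s‖ ^ 2) := e1
    have e4 : ∫ s, ‖s‖ ^ 2 * rd m F' i s = l i * (Real.sqrt (l i) ^ m i *
        ∫ s : Xb m i, ‖s‖ ^ 2 * F i (‖s‖ ^ 2)) := by
      rw [← e2, ← integral_const_mul]
      refine integral_congr_ae (Filter.Eventually.of_forall fun s => ?_)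
      have e5 : l i * (‖s‖ ^ 2 / l i) = ‖s‖ ^ 2 := by
        have := (hl i).ne'
        field_simp
      change ‖s‖ ^ 2 * F i (‖s‖ ^ 2 / l i) = l i * (‖s‖ ^ 2 / l i * F i (‖s‖ ^ 2 / l i))
      rw [← mul_assoc, e5]
    have h2 : (m i : ℝ) * ∫ s, rd m F' i s ≤ κ ^ 2 * ∫ s, ‖s‖ ^ 2 * rd m F' i s := by
      rw [e3, e4]
      have hK : 0 ≤ l i * Real.sqrt (l i) ^ m i := by have := hl i; positivity
      calc (m i : ℝ) * (Real.sqrt (l i) ^ m i * ∫ s : Xb m i, F i (‖s‖ ^ 2))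
          = l i * Real.sqrt (l i) ^ m i * (T i * ∫ s : Xb m i, F i (‖s‖ ^ 2)) := by
            rw [← hlT i]; ring
        _ ≤ l i * Real.sqrt (l i) ^ m i *
            (κ ^ 2 * ∫ s : Xb m i, ‖s‖ ^ 2 * F i (‖s‖ ^ 2)) :=
            mul_le_mul_of_nonneg_left (hW i) hK
        _ = _ := by ring
    have h3 : (m i : ℝ) * ((1 / κ ^ 2) * ‖c‖ ^ 2 * ∫ s, rd m F' i s) ≤
        (m i : ℝ) * ∫ s, ⟪c, s⟫_ℝ ^ 2 * rd m F' i s := by
      rw [h1]
      calc (m i : ℝ) * ((1 / κ ^ 2) * ‖c‖ ^ 2 * ∫ s, rd m F' i s)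
          = (1 / κ ^ 2) * ‖c‖ ^ 2 * ((m i : ℝ) * ∫ s, rd m F' i s) := by ring
        _ ≤ (1 / κ ^ 2) * ‖c‖ ^ 2 * (κ ^ 2 * ∫ s, ‖s‖ ^ 2 * rd m F' i s) :=
            mul_le_mul_of_nonneg_left h2 (by positivity)
        _ = _ := by
            field_simp
    exact le_of_mul_le_mul_left h3 (hmr i)
  have h1 := gen_poincareT hQ' hFam (by norm_num : (0 : ℝ) < 2) hTS hev (1 / κ ^ 2)
    (by positivity) hr q hq s hs (by simpa only [hdn] using hcov) f hf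
    (by simpa only [hdn] using h0)
  simp only [hdn] at h1
  refine h1.trans (le_of_eq ?_)
  have : (2 : ℝ) ^ 2 / (1 / κ ^ 2) = 4 * κ ^ 2 := by
    field_simp
    norm_num
  rw [this]

/-- from the Poincare inequality to the variance form -/
theorem var_gen {Q : ∀ i, EuclideanSpace ℝ α →L[ℝ] Xb m i}
    (hQ : ∀ x, (∀ i, Q i x = 0) → x = 0) {φ : ∀ i, Xb m i → ℝ} {R : ℝ} (hR : Fam φ R)
    (hev0 : ∀ i s, φ i (-s) = φ i s)
    (hprob : IsProbabilityMeasure (mu (dn Q φ))) (s : ℝ) (hs : 0 < s)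
    (hcov : ∀ θ : EuclideanSpace ℝ α, ProbabilityTheory.evariance (fun x => ⟪θ, x⟫_ℝ)
      (mu (dn Q φ)) ≤ ENNReal.ofReal (s * ‖θ‖ ^ 2)) (C : ℝ)
    (hP : (∀ e : EuclideanSpace ℝ α, ∫ x, ⟪e, x⟫_ℝ ^ 2 * dn Q φ x ≤
      s * ‖e‖ ^ 2 * ∫ x, dn Q φ x) → ∀ f : EuclideanSpace ℝ α → ℝ, ContDiff ℝ 1 f →
      ∫ x, f x * dn Q φ x = 0 → ∫ x, f x ^ 2 * dn Q φ x ≤
        C * ∫ x, ‖fderiv ℝ f x‖ ^ 2 * dn Q φ x)
    (f : EuclideanSpace ℝ α → ℝ) (hf : ContDiff ℝ 1 f) :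
    MemLp f 2 (mu (dn Q φ)) ∧ MemLp (fun x => ‖fderiv ℝ f x‖) 2 (mu (dn Q φ)) ∧
      ProbabilityTheory.variance f (mu (dn Q φ)) ≤ C *
        ∫ x, ‖fderiv ℝ f x‖ ^ 2 ∂(mu (dn Q φ)) := by
  have hnn : ∀ x, 0 ≤ dn Q φ x := fun x => Finset.prod_nonneg fun i _ => hR.nonneg i _
  have hmeas : Measurable (dn Q φ) :=
    Finset.measurable_prod _ fun i _ => (hR.meas i).comp (Q i).continuous.measurable
  have hint : ∀ g : EuclideanSpace ℝ α → ℝ, Continuous g → Integrable g (mu (dn Q φ)) := by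
    intro g hg
    have h1 := gen_int hQ hR g hg
    have hmm : Measurable fun x => ENNReal.ofReal (dn Q φ x) :=
      ENNReal.measurable_ofReal.comp hmeas
    unfold mu
    rw [integrable_withDensity_iff_integrable_smul' hmm
      (Filter.Eventually.of_forall fun x => ENNReal.ofReal_lt_top)]
    refine h1.congr (Filter.Eventually.of_forall fun x => ?_)
    simp only [smul_eq_mul]
    rw [ENNReal.toReal_ofReal (hnn x), mul_comm]
  have hL2 : ∀ g : EuclideanSpace ℝ α → ℝ, Continuous g → MemLp g 2 (mu (dn Q φ)) := by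
    intro g hg
    rw [memLp_two_iff_integrable_sq hg.aestronglyMeasurable]
    exact hint _ (hg.pow 2)
  have hev : ∀ x, dn Q φ (-x) = dn Q φ x := by
    intro x
    unfold dn
    refine Finset.prod_congr rfl fun i _ => ?_
    rw [map_neg, hev0]
  have hone : ∫ x, dn Q φ x = 1 := by
    have h1 := int_mu' hnn hmeas (fun _ => (1 : ℝ))
    simp only [one_mul] at h1
    rw [← h1, integral_const, probReal_univ, one_smul]
  have hodd : ∀ θ : EuclideanSpace ℝ α, ∫ x, ⟪θ, x⟫_ℝ ∂(mu (dn Q φ)) = 0 := by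
    intro θ
    rw [int_mu' hnn hmeas]
    have h1 : ∫ x, ⟪θ, -x⟫_ℝ * dn Q φ (-x) = ∫ x, ⟪θ, x⟫_ℝ * dn Q φ x :=
      integral_neg_eq_self (fun x => ⟪θ, x⟫_ℝ * dn Q φ x) volume
    have h2 : ∀ x, ⟪θ, -x⟫_ℝ * dn Q φ (-x) = -(⟪θ, x⟫_ℝ * dn Q φ x) := fun x => by
      rw [hev, inner_neg_right, neg_mul]
    simp only [h2] at h1
    rw [integral_neg] at h1
    linarith
  have hcov' : ∀ e : EuclideanSpace ℝ α, ∫ x, ⟪e, x⟫_ℝ ^ 2 * dn Q φ x ≤
      s * ‖e‖ ^ 2 * ∫ x, dn Q φ x := by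
    intro e
    have hc : Continuous fun x : EuclideanSpace ℝ α => ⟪e, x⟫_ℝ := by fun_prop
    have h1 := hcov e
    rw [← ProbabilityTheory.ofReal_variance (hL2 _ hc),
      ENNReal.ofReal_le_ofReal_iff (by positivity),
      ProbabilityTheory.variance_of_integral_eq_zero hc.aemeasurable (hodd e),
      int_mu' hnn hmeas] at h1
    rw [hone, mul_one]
    exact h1
  refine ⟨hL2 f hf.continuous, hL2 _ (hf.continuous_fderiv (by norm_num)).norm, ?_⟩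
  obtain ⟨a, ha⟩ : ∃ a : ℝ, a = ∫ x, f x ∂(mu (dn Q φ)) := ⟨_, rfl⟩
  have h0 : ∫ x, (f x - a) * dn Q φ x = 0 := by
    rw [← int_mu' hnn hmeas (fun x => f x - a), integral_sub (hint f hf.continuous)
      (integrable_const a), integral_const, probReal_univ, one_smul, ha, sub_self]
  have h1 := hP hcov' (fun x => f x - a) (hf.sub contDiff_const) h0
  have e1 : ∀ x, fderiv ℝ (fun x => f x - a) x = fderiv ℝ f x := fun x => by
    rw [fderiv_sub_const]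
  simp only [e1] at h1
  rw [ProbabilityTheory.variance_eq_integral hf.continuous.aemeasurable, ← ha,
    int_mu' hnn hmeas (fun x => (f x - a) ^ 2), int_mu' hnn hmeas]
  exact h1

end Pool.Agent.Y506.KS
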