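import Mathlib

/-!
# Second moments of densities with reflection symmetries
-/

set_option autoImplicit false

namespace Pool.Agent.Y506.KS

open MeasureTheory Set
open scoped ENNReal InnerProductSpace

variable {k : ℕ}

/-- exchange of the coordinates `i` and `j` -/
noncomputable def sw (i j : Fin k) : EuclideanSpace ℝ (Fin k) ≃ₗᵢ[ℝ] EuclideanSpace ℝ (Fin k) :=
  LinearIsometryEquiv.piLpCongrLeft 2 ℝ ℝ (Equiv.swap i j)

theorem sw_apply (i j l : Fin k) (x : EuclideanSpace ℝ (Fin k)) :
    sw i j x l = x (Equiv.swap i j l) := by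
  unfold sw
  rw [LinearIsometryEquiv.piLpCongrLeft_apply]
  simp [Equiv.piCongrLeft'_apply]

theorem sw_sw (i j : Fin k) (x : EuclideanSpace ℝ (Fin k)) : sw i j (sw i j x) = x := by
  ext l
  rw [sw_apply, sw_apply, Equiv.swap_apply_self]

/-- change of the sign of the coordinate `i` -/
noncomputable def fl (i : Fin k) : EuclideanSpace ℝ (Fin k) ≃ₗᵢ[ℝ] EuclideanSpace ℝ (Fin k) :=
  LinearIsometryEquiv.piLpCongrRight 2 fun j =>
    if j = i then LinearIsometryEquiv.neg ℝ else LinearIsometryEquiv.refl ℝ ℝ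

theorem fl_apply (i l : Fin k) (x : EuclideanSpace ℝ (Fin k)) :
    fl i x l = if l = i then -(x l) else x l := by
  unfold fl
  rw [LinearIsometryEquiv.piLpCongrRight_apply]
  simp only
  split_ifs <;> simp

theorem int_iso (T : EuclideanSpace ℝ (Fin k) ≃ₗᵢ[ℝ] EuclideanSpace ℝ (Fin k))
    (g : EuclideanSpace ℝ (Fin k) → ℝ) : ∫ x, g (T x) = ∫ x, g x :=
  T.measurePreserving.integral_comp T.toHomeomorph.measurableEmbedding g

theorem intg_iso (T : EuclideanSpace ℝ (Fin k) ≃ₗᵢ[ℝ] EuclideanSpace ℝ (Fin k))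
    (g : EuclideanSpace ℝ (Fin k) → ℝ) (hg : Integrable g) : Integrable fun x => g (T x) :=
  (T.measurePreserving.integrable_comp_emb T.toHomeomorph.measurableEmbedding).2 hg

/-- comparison of second moments -/
theorem Q_le (g : EuclideanSpace ℝ (Fin k) → ℝ) (i j : Fin k)
    (hi : ∀ l, Integrable fun x : EuclideanSpace ℝ (Fin k) => x l ^ 2 * g x)
    (hC : ∀ x : EuclideanSpace ℝ (Fin k), |x i| ≤ |x j| → g (sw i j x) ≤ g x) :
    ∫ x, x i ^ 2 * g x ≤ ∫ x, x j ^ 2 * g x := by
  have h1 : ∫ x, x i ^ 2 * g x = ∫ x : EuclideanSpace ℝ (Fin k), x j ^ 2 * g (sw i j x) := by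
    rw [← int_iso (sw i j) fun x => x i ^ 2 * g x]
    simp only [sw_apply, Equiv.swap_apply_left]
  have h2 : ∫ x, x j ^ 2 * g x = ∫ x : EuclideanSpace ℝ (Fin k), x i ^ 2 * g (sw i j x) := by
    rw [← int_iso (sw i j) fun x => x j ^ 2 * g x]
    simp only [sw_apply, Equiv.swap_apply_right]
  have i1 : Integrable fun x : EuclideanSpace ℝ (Fin k) => x j ^ 2 * g (sw i j x) := by
    have := intg_iso (sw i j) _ (hi i)
    simpa only [sw_apply, Equiv.swap_apply_left] using this
  have i2 : Integrable fun x : EuclideanSpace ℝ (Fin k) => x i ^ 2 * g (sw i j x) := by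
    have := intg_iso (sw i j) _ (hi j)
    simpa only [sw_apply, Equiv.swap_apply_right] using this
  have h3 : ∫ x, x i ^ 2 * g x + x j ^ 2 * g (sw i j x) ≤
      ∫ x, x j ^ 2 * g x + x i ^ 2 * g (sw i j x) := by
    refine integral_mono ((hi i).add i1) ((hi j).add i2) fun x => ?_
    simp only
    rcases le_total |x i| |x j| with h | h
    · have h4 := hC x h
      have h5 : x i ^ 2 ≤ x j ^ 2 := sq_le_sq.2 h
      nlinarith [mul_nonneg (sub_nonneg.2 h5) (sub_nonneg.2 h4)]
    · have h4 := hC (sw i j x) (by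
        rw [sw_apply, sw_apply, Equiv.swap_apply_left, Equiv.swap_apply_right]
        exact h)
      rw [sw_sw] at h4
      have h5 : x j ^ 2 ≤ x i ^ 2 := sq_le_sq.2 h
      nlinarith [mul_nonneg (sub_nonneg.2 h5) (sub_nonneg.2 h4)]
  rw [integral_add (hi i) i1, integral_add (hi j) i2, ← h1, ← h2] at h3
  linarith

theorem Q_off (g : EuclideanSpace ℝ (Fin k) → ℝ) (i j : Fin k) (hij : i ≠ j)
    (hD : ∀ x, g (fl i x) = g x) : ∫ x : EuclideanSpace ℝ (Fin k), x i * x j * g x = 0 := by
  have h1 := int_iso (fl i) fun x => x i * x j * g x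
  simp only [fl_apply, if_true, if_neg hij.symm, hD] at h1
  have h2 : ∀ x : EuclideanSpace ℝ (Fin k), -x i * x j * g x = -(x i * x j * g x) :=
    fun x => by ring
  simp only [h2] at h1
  rw [integral_neg] at h1
  linarith

/-- the quadratic form of second moments is diagonal -/
theorem Q_exp (g : EuclideanSpace ℝ (Fin k) → ℝ) (i0 : Fin k)
    (hi : ∀ i j, Integrable fun x : EuclideanSpace ℝ (Fin k) => x i * x j * g x)
    (hD : ∀ i, i ≠ i0 → ∀ x, g (fl i x) = g x) (w : EuclideanSpace ℝ (Fin k)) :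
    ∫ x, ⟪w, x⟫_ℝ ^ 2 * g x = ∑ i, w i ^ 2 * ∫ x, x i ^ 2 * g x := by
  have e1 : ∀ x : EuclideanSpace ℝ (Fin k), ⟪w, x⟫_ℝ ^ 2 * g x =
      ∑ i, ∑ j, (w i * w j) * (x i * x j * g x) := by
    intro x
    rw [PiLp.inner_apply, sq, Finset.sum_mul_sum, Finset.sum_mul]
    refine Finset.sum_congr rfl fun i _ => ?_
    rw [Finset.sum_mul]
    refine Finset.sum_congr rfl fun j _ => ?_
    have h1 : ∀ a b : ℝ, inner ℝ a b = b * a := fun a b => by simp [mul_comm]
    rw [h1, h1]
    ring
  simp only [e1]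
  rw [integral_finsetSum _ fun i _ => integrable_finsetSum _ fun j _ => (hi i j).const_mul _]
  refine Finset.sum_congr rfl fun i _ => ?_
  rw [integral_finsetSum _ fun j _ => (hi i j).const_mul _, Finset.sum_eq_single i]
  · rw [integral_const_mul, sq]
    congr 1
    refine integral_congr_ae (Filter.Eventually.of_forall fun x => ?_)
    simp only [sq]
  · intro j _ hj
    rw [integral_const_mul]
    by_cases h : i = i0
    · have h2 : j ≠ i0 := fun hn => hj (hn.trans h.symm)
      have h3 := Q_off g j i hj (hD j h2)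
      have h4 : ∀ x : EuclideanSpace ℝ (Fin k), x i * x j * g x = x j * x i * g x :=
        fun x => by ring
      simp only [h4]
      rw [h3, mul_zero]
    · rw [Q_off g i j hj.symm (hD i h), mul_zero]
  · intro h
    exact absurd (Finset.mem_univ i) h

end Pool.Agent.Y506.KS
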