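import Pool.Agent.H59.L.S8.Y506.KS.Gp

/-!
# Factors all of whose Gaussian tilts have bounded covariance
-/

set_option autoImplicit false
set_option linter.unusedSectionVars false

namespace Pool.Agent.Y506.KS

open MeasureTheory Set
open scoped ENNReal InnerProductSpace
open Pool.Agent.H212R2.KLS (mu Bdd)
open Pool.Agent.H888R2.KT

variable {ι : Type} [Fintype ι] [DecidableEq ι] {m : ι → ℕ} {κ : Type} [Fintype κ]

/-- the covariance of the density `f` is at most `R ^ 2` -/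
def VB {k : ℕ} (f : EuclideanSpace ℝ (Fin k) → ℝ) (R : ℝ) : Prop :=
  ∀ w, ∫ s, (⟪w, s⟫_ℝ - (∫ s, ⟪w, s⟫_ℝ * f s) / ∫ s, f s) ^ 2 * f s ≤
    R ^ 2 * ‖w‖ ^ 2 * ∫ s, f s

theorem VB.mul {k : ℕ} {f : EuclideanSpace ℝ (Fin k) → ℝ} {R : ℝ} (h : VB f R) (K : ℝ)
    (hK : 0 < K) : VB (fun s => K * f s) R := by
  intro w
  have e1 : ∀ s, ⟪w, s⟫_ℝ * (K * f s) = K * (⟪w, s⟫_ℝ * f s) := fun s => by ring
  have e2 : ∀ (c : ℝ) s, (⟪w, s⟫_ℝ - c) ^ 2 * (K * f s) = K * ((⟪w, s⟫_ℝ - c) ^ 2 * f s) :=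
    fun c s => by ring
  simp only [e1, e2]
  rw [integral_const_mul, integral_const_mul, integral_const_mul, mul_div_mul_left _ _ hK.ne']
  calc _ ≤ K * (R ^ 2 * ‖w‖ ^ 2 * ∫ s, f s) := mul_le_mul_of_nonneg_left (h w) hK.le
    _ = _ := by ring

/-- all Gaussian tilts of the densities have covariance at most `R ^ 2` -/
def TS (φ : ∀ i, Xb m i → ℝ) (R : ℝ) : Prop :=
  ∀ i (a : Xb m i) (b : ℝ), 0 ≤ b →
    VB (fun s => φ i s * Real.exp (⟪a, s⟫_ℝ - b * ‖s‖ ^ 2)) R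

theorem TS.md {φ : ∀ i, Xb m i → ℝ} {R : ℝ} (h : TS φ R) (c : ∀ i, Xb m i) (b : ℝ)
    (hb : 0 ≤ b) : TS (md φ (fun _ => 0) c b) R := by
  intro i a b' hb'
  have h1 := (h i (a + (2 * b) • c i) (b + b') (by linarith)).mul
    (Real.exp (-(b * ‖c i‖ ^ 2))) (Real.exp_pos _)
  have e : (fun s => KS.md φ (fun _ => 0) c b i s * Real.exp (⟪a, s⟫_ℝ - b' * ‖s‖ ^ 2)) =
      fun s => Real.exp (-(b * ‖c i‖ ^ 2)) * (φ i s *
        Real.exp (⟪a + (2 * b) • c i, s⟫_ℝ - (b + b') * ‖s‖ ^ 2)) := by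
    funext s
    simp only [KS.md]
    rw [mul_assoc, ← Real.exp_add, mul_left_comm, ← Real.exp_add]
    congr 2
    rw [inner_zero_left, inner_add_left, real_inner_smul_left, norm_sub_sq_real,
      real_inner_comm (c i) s]
    ring
  rw [e]
  exact h1

theorem upperT {P : ∀ i, EuclideanSpace ℝ κ →L[ℝ] Xb m i} (hP : Pars P) {φ : ∀ i, Xb m i → ℝ}
    {R0 : ℝ} (h : Fam φ R0) {R : ℝ} (hT : TS φ R) (w : EuclideanSpace ℝ κ) :
    ∃ c : ℝ, ∫⁻ x, ENNReal.ofReal ((⟪w, x⟫_ℝ - c) ^ 2) * ENNReal.ofReal (dn P φ x) ≤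
      ENNReal.ofReal (64 * ((Module.finrank ℝ (Fc P) : ℝ) + 2) ^ 2 * (R ^ 2 * ‖w‖ ^ 2)) *
        ∫⁻ x, ENNReal.ofReal (dn P φ x) := by
  obtain ⟨q, hq⟩ : ∃ q : ℕ, q = Module.finrank ℝ (Fc P) := ⟨_, rfl⟩
  -- the mode
  obtain ⟨C, hC, hC'⟩ := hh_fin hP h (fun _ => 1) continuous_const
  obtain ⟨δ, r, hδ, hr, hlow⟩ := hh_low hP h (fun _ => 1) continuous_const fun _ => one_pos
  simp only [ENNReal.ofReal_one, mul_one] at hC' hlow
  obtain ⟨θ, hθ⟩ := supergradE (hh volume (rh P φ)) (fun z => ((hC' z).trans_lt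
    (lt_top_iff_ne_top.2 hC)).ne) (fun z w t ht0 ht1 =>
      hh_lc volume (rh P φ) (rh_meas P h) (rh_lce P h) z w t ht0 ht1) δ r hδ hr hlow
  obtain ⟨t, ht⟩ := exists_t hP θ
  -- the tilted family
  obtain ⟨φ', hφ'⟩ : ∃ φ' : ∀ i, Xb m i → ℝ, φ' = md φ (fun i => -t i) (fun _ => 0) 0 := ⟨_, rfl⟩
  have h' : Fam φ' R0 := by
    rw [hφ']
    exact h.md _ _ _ le_rfl
  have e1 : ∀ x (z : Fc P), rh P φ' x z = rh P φ x z * ENNReal.ofReal (Real.exp (-(θ z))) := by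
    intro x z
    rw [hφ', rh_md P h, zero_mul, sub_zero]
    simp only [inner_neg_left, Finset.sum_neg_distrib]
    rw [ht x z]
  have e2 : ∀ z, hh volume (rh P φ') z = hh volume (rh P φ) z *
      ENNReal.ofReal (Real.exp (-(θ z))) := by
    intro z
    unfold hh
    simp only [e1]
    rw [lintegral_mul_const]
    exact (rh_meas P h).comp (measurable_id.prodMk measurable_const)
  have e3 : hh volume (rh P φ') 0 = hh volume (rh P φ) 0 := by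
    rw [e2, map_zero, neg_zero, Real.exp_zero, ENNReal.ofReal_one, mul_one]
  have e4 : ∀ x, rh P φ' x 0 = ENNReal.ofReal (dn P φ x) := by
    intro x
    rw [e1, map_zero, neg_zero, Real.exp_zero, ENNReal.ofReal_one, mul_one, rh_zero h]
  have hmode : ∀ z, hh volume (rh P φ') z ≤ hh volume (rh P φ') 0 := by
    intro z
    rw [e2, e3]
    refine (mul_le_mul' (hθ z) le_rfl).trans (le_of_eq ?_)
    rw [mul_assoc, ← ENNReal.ofReal_mul (Real.exp_pos _).le, ← Real.exp_add, add_neg_cancel,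
      Real.exp_zero, ENNReal.ofReal_one, mul_one]
  have hh0 : hh volume (rh P φ') 0 ≠ 0 := by
    rw [e3]
    have := hlow 0 (by rw [norm_zero]; exact hr)
    intro h0
    unfold hh at h0
    rw [h0] at this
    exact absurd this (not_le.2 (ENNReal.ofReal_pos.2 hδ))
  have hh1 : hh volume (rh P φ') 0 ≠ ∞ := by
    rw [e3]
    exact ((hC' 0).trans_lt (lt_top_iff_ne_top.2 hC)).ne
  -- the measure on the complement
  obtain ⟨ν, hν⟩ : ∃ ν : Measure (Fc P), ν.IsAddHaarMeasure := ⟨Measure.addHaar, inferInstance⟩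
  obtain ⟨c, hc0, hc1, hcov⟩ := cov hP ν
  -- block integrals
  have hM : ∀ i, 0 < ∫ s, φ' i s := fun i => h'.ipos i
  let mm : ι → ℝ := fun i => (∫ s, ⟪P i w, s⟫_ℝ * φ' i s) / ∫ s, φ' i s
  let ψ : ∀ i, Xb m i → ℝ := fun i s => ⟪P i w, s⟫_ℝ - mm i
  have hψc : ∀ i, Continuous (ψ i) := fun i => by
    simp only [ψ]
    fun_prop
  have hz : ∀ i, ∫ s, ψ i s * φ' i s = 0 := by
    intro i
    have i1 := h'.int i (fun s => ⟪P i w, s⟫_ℝ) (by fun_prop)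
    have i2 := (h'.int0 i).const_mul (mm i)
    have : ∀ s, ψ i s * φ' i s = ⟪P i w, s⟫_ℝ * φ' i s - mm i * φ' i s := fun s => by
      simp only [ψ]; ring
    simp only [this]
    rw [integral_sub i1 i2, integral_const_mul]
    simp only [mm]
    rw [div_mul_cancel₀ _ (hM i).ne', sub_self]
  have ha : ∀ i, ∫ s, ψ i s ^ 2 * φ' i s ≤ (R ^ 2 * ‖P i w‖ ^ 2) * ∫ s, φ' i s := by
    intro i
    have h1 := hT i (-t i) 0 le_rfl (P i w)
    have e5 : ∀ s, φ i s * Real.exp (⟪-t i, s⟫_ℝ - 0 * ‖s‖ ^ 2) = φ' i s := fun s => by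
      rw [hφ']
      simp only [KS.md]
      rw [zero_mul, zero_mul]
    simp only [e5] at h1
    exact h1
  have hup := base_upper (fun i => (volume : Measure (Xb m i))) φ' ψ h'.nonneg h'.int0
    (fun i => h'.int i _ (hψc i)) (fun i => h'.int i _ ((hψc i).pow 2)) hz _ ha
  have hmass := base_mass (fun i => (volume : Measure (Xb m i))) φ' h'.nonneg h'.int0
  have hsum : ∑ i, R ^ 2 * ‖P i w‖ ^ 2 = R ^ 2 * ‖w‖ ^ 2 := by
    rw [← Finset.mul_sum, hP w]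
  rw [hsum] at hup
  have hPp : 0 < ∏ i, ∫ s, φ' i s := Finset.prod_pos fun i _ => hM i
  -- total mass in the coordinates (x, z)
  have hm1 : Measurable fun s : ∀ i, Xb m i => ∏ i, ENNReal.ofReal (φ' i (s i)) :=
    Finset.measurable_prod _ fun i _ => ENNReal.measurable_ofReal.comp
      ((h'.meas i).comp (measurable_pi_apply i))
  have hm2 : Measurable fun s : ∀ i, Xb m i => ENNReal.ofReal ((∑ i, ψ i (s i)) ^ 2) :=
    ENNReal.measurable_ofReal.comp ((Finset.measurable_sum _ fun i _ =>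
      (hψc i).measurable.comp (measurable_pi_apply i)).pow_const 2)
  have hA : ∫⁻ z, hh volume (rh P φ') z ∂ν = c * ENNReal.ofReal (∏ i, ∫ s, φ' i s) := by
    rw [← hmass, ← hcov _ hm1]
    refine lintegral_congr fun z => lintegral_congr fun x => ?_
    unfold rh
    refine Finset.prod_congr rfl fun i _ => ?_
    rw [Psi_apply]
  have hB : ∫⁻ z, WW volume (innerSL ℝ w) (∑ i, mm i) (rh P φ') z ∂ν ≤
      ENNReal.ofReal (R ^ 2 * ‖w‖ ^ 2) * ∫⁻ z, hh volume (rh P φ') z ∂ν := by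
    have e8 : ∫⁻ z, WW volume (innerSL ℝ w) (∑ i, mm i) (rh P φ') z ∂ν =
        c * ∫⁻ s : ∀ i, Xb m i, ENNReal.ofReal ((∑ i, ψ i (s i)) ^ 2) *
          ∏ k, ENNReal.ofReal (φ' k (s k)) ∂(Measure.pi fun i => (volume : Measure (Xb m i))) := by
      have hm3 : Measurable fun s : ∀ i, Xb m i => ENNReal.ofReal ((∑ i, ψ i (s i)) ^ 2) *
          ∏ k, ENNReal.ofReal (φ' k (s k)) := hm2.mul hm1
      rw [← hcov _ hm3]
      refine lintegral_congr fun z => lintegral_congr fun x => ?_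
      have e9 : (∑ i, ψ i (Psi hP (x, z) i)) = innerSL ℝ w x - ∑ i, mm i := by
        simp only [ψ, Psi_apply, Finset.sum_sub_distrib, inner_add_right, Finset.sum_add_distrib]
        rw [pars_inner hP]
        have : ∑ i, ⟪P i w, (z : ∀ i, Xb m i) i⟫_ℝ = 0 := by
          rw [← Fc_mem z w]
          exact Finset.sum_congr rfl fun i _ => real_inner_comm _ _
        rw [this, add_zero, innerSL_apply_apply]
      rw [e9]
      unfold rh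
      refine congrArg₂ _ rfl (Finset.prod_congr rfl fun i _ => ?_)
      rw [Psi_apply]
    rw [e8, hA, ← mul_assoc, mul_comm (ENNReal.ofReal (R ^ 2 * ‖w‖ ^ 2)) c, mul_assoc,
      ← ENNReal.ofReal_mul (by positivity)]
    exact mul_le_mul' le_rfl hup
  have hA0 : ∫⁻ z, hh volume (rh P φ') z ∂ν ≠ 0 := by
    rw [hA]
    exact mul_ne_zero hc0 (ENNReal.ofReal_pos.2 hPp).ne'
  have hA1 : ∫⁻ z, hh volume (rh P φ') z ∂ν ≠ ∞ := by
    rw [hA]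
    exact ENNReal.mul_ne_top hc1 ENNReal.ofReal_ne_top
  have ht0 : (0 : ℝ) < ((q : ℝ) + 1) / ((q : ℝ) + 2) := by positivity
  have ht1 : ((q : ℝ) + 1) / ((q : ℝ) + 2) < 1 := by
    rw [div_lt_one (by positivity)]; linarith
  obtain ⟨c', hc'⟩ := upper volume ν (innerSL ℝ w) (rh P φ') (rh_meas P h') (rh_lce P h')
    (((q : ℝ) + 1) / ((q : ℝ) + 2)) ht0 ht1 (fun _ => ∑ i, mm i) measurable_const hmode hh0 hh1
    hA0 hA1 _ hB
  refine ⟨c', ?_⟩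
  have e10 : hh volume (rh P φ') 0 = ∫⁻ x, ENNReal.ofReal (dn P φ x) := by
    unfold hh
    simp only [e4]
  have e11 : WW volume (innerSL ℝ w) c' (rh P φ') 0 =
      ∫⁻ x, ENNReal.ofReal ((⟪w, x⟫_ℝ - c') ^ 2) * ENNReal.ofReal (dn P φ x) := by
    unfold WW
    simp only [e4, innerSL_apply_apply]
  rw [e10, e11, ← hq] at hc'
  refine hc'.trans (mul_le_mul' ?_ le_rfl)
  rw [← hq, num4]
  have h8 : (8 : ℝ≥0∞) = ENNReal.ofReal 8 := by norm_num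
  have h9 : (((((q : ℝ) + 1) / ((q : ℝ) + 2))⁻¹) ^ q) ^ 2 ≤ 8 := by
    have h10 : (0 : ℝ) ≤ ((((q : ℝ) + 1) / ((q : ℝ) + 2))⁻¹) ^ q := by positivity
    have h11 := (num3 q).trans exp1_le
    nlinarith
  rw [h8, ← ENNReal.ofReal_mul (by positivity), ← ENNReal.ofReal_mul (by positivity),
    ← ENNReal.ofReal_mul (by positivity)]
  refine ENNReal.ofReal_le_ofReal ?_
  calc 8 * (((q : ℝ) + 2) ^ 2 * (((((q : ℝ) + 1) / ((q : ℝ) + 2))⁻¹) ^ q) ^ 2 *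
        (R ^ 2 * ‖w‖ ^ 2)) ≤ 8 * (((q : ℝ) + 2) ^ 2 * 8 * (R ^ 2 * ‖w‖ ^ 2)) := by gcongr
    _ = _ := by ring

theorem upperRT {P : ∀ i, EuclideanSpace ℝ κ →L[ℝ] Xb m i} (hP : Pars P) {φ : ∀ i, Xb m i → ℝ}
    {R0 : ℝ} (h : Fam φ R0) {R : ℝ} (hT : TS φ R) (w : EuclideanSpace ℝ κ) :
    (∫ x, ⟪w, x⟫_ℝ ^ 2 * dn P φ x) / (∫ x, dn P φ x) -
      ((∫ x, ⟪w, x⟫_ℝ * dn P φ x) / (∫ x, dn P φ x)) ^ 2 ≤
      64 * ((Module.finrank ℝ (Fc P) : ℝ) + 2) ^ 2 * (R ^ 2 * ‖w‖ ^ 2) := by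
  obtain ⟨c, hc⟩ := upperT hP h hT w
  have hL := dn_LC hP h
  have hM := dn_pos hP h
  have hi := dn_int hP h (fun _ => 1) continuous_const
  simp only [one_mul] at hi
  have hi1 := dn_int hP h (fun x => ⟪w, x⟫_ℝ) (by fun_prop)
  have hi2 := dn_int hP h (fun x => ⟪w, x⟫_ℝ ^ 2) (by fun_prop)
  have hi3 := dn_int hP h (fun x => (⟪w, x⟫_ℝ - c) ^ 2) (by fun_prop)
  have e1 : ∫⁻ x, ENNReal.ofReal (dn P φ x) = ENNReal.ofReal (∫ x, dn P φ x) := by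
    rw [ofReal_integral_eq_lintegral_ofReal hi (Filter.Eventually.of_forall hL.nonneg)]
  have e2 : ∫⁻ x, ENNReal.ofReal ((⟪w, x⟫_ℝ - c) ^ 2) * ENNReal.ofReal (dn P φ x) =
      ENNReal.ofReal (∫ x, (⟪w, x⟫_ℝ - c) ^ 2 * dn P φ x) := by
    rw [ofReal_integral_eq_lintegral_ofReal hi3 (Filter.Eventually.of_forall fun x =>
      mul_nonneg (sq_nonneg _) (hL.nonneg x))]
    refine lintegral_congr fun x => ?_
    rw [ENNReal.ofReal_mul (sq_nonneg _)]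
  rw [e1, e2, ← ENNReal.ofReal_mul (by positivity),
    ENNReal.ofReal_le_ofReal_iff (mul_nonneg (by positivity) hM.le)] at hc
  have e3 : ∫ x, (⟪w, x⟫_ℝ - c) ^ 2 * dn P φ x = (∫ x, ⟪w, x⟫_ℝ ^ 2 * dn P φ x) -
      2 * c * (∫ x, ⟪w, x⟫_ℝ * dn P φ x) + c ^ 2 * ∫ x, dn P φ x := by
    have i4 : Integrable (fun x => ⟪w, x⟫_ℝ ^ 2 * dn P φ x - 2 * c * (⟪w, x⟫_ℝ * dn P φ x)) :=
      hi2.sub (hi1.const_mul _)
    rw [← integral_const_mul, ← integral_const_mul, ← integral_sub hi2 (hi1.const_mul _),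
      ← integral_add i4 (hi.const_mul _)]
    refine integral_congr_ae (Filter.Eventually.of_forall fun x => ?_)
    simp only
    ring
  rw [e3] at hc
  generalize (∫ x, ⟪w, x⟫_ℝ ^ 2 * dn P φ x) = A at *
  generalize (∫ x, ⟪w, x⟫_ℝ * dn P φ x) = B at *
  generalize (∫ x, dn P φ x) = Z at *
  have h1 : A / Z - (B / Z) ^ 2 ≤ (A - 2 * c * B + c ^ 2 * Z) / Z := by
    have e : (A - 2 * c * B + c ^ 2 * Z) / Z = A / Z - 2 * c * (B / Z) + c ^ 2 := by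
      field_simp
    rw [e]
    nlinarith [sq_nonneg (B / Z - c)]
  refine h1.trans ?_
  rw [div_le_iff₀ hM]
  exact hc

theorem pars_PCT {P : ∀ i, EuclideanSpace ℝ κ →L[ℝ] Xb m i} (hP : Pars P) {φ : ∀ i, Xb m i → ℝ}
    {R0 : ℝ} (h : Fam φ R0) {R : ℝ} (hR : 0 < R) (hT : TS φ R) :
    PC (dn P φ) (256 * ((Module.finrank ℝ (Fc P) : ℝ) + 2) ^ 2 * R ^ 2) := by
  obtain ⟨t, ht⟩ : ∃ t : ℝ, t = 256 * ((Module.finrank ℝ (Fc P) : ℝ) + 2) ^ 2 * R ^ 2 := ⟨_, rfl⟩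
  have ht0 : 0 < t := by rw [ht]; positivity
  rw [← ht]
  intro y w
  have hL := dn_LC hP h
  have h' : Fam (md φ (fun _ => 0) (fun i => P i y) (1 / (2 * t))) R0 :=
    h.md _ _ _ (by positivity)
  have hT' : TS (md φ (fun _ => 0) (fun i => P i y) (1 / (2 * t))) R := hT.md _ _ (by positivity)
  have e1 : ∀ x, dn P (md φ (fun _ => 0) (fun i => P i y) (1 / (2 * t))) x =
      Real.exp (-(‖x - y‖ ^ 2 / (2 * t))) * dn P φ x := by
    intro x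
    rw [dn_md]
    simp only [inner_zero_left, Finset.sum_const_zero, zero_sub]
    have : ∑ i, ‖P i x - P i y‖ ^ 2 = ‖x - y‖ ^ 2 := by
      rw [← hP (x - y)]
      exact Finset.sum_congr rfl fun i _ => by rw [map_sub]
    rw [this, mul_comm (Real.exp _)]
    congr 3
    ring
  have h1 := upperRT hP h' hT' w
  simp only [e1] at h1
  have e2 : ∀ u : EuclideanSpace ℝ κ → ℝ, pst t (dn P φ) u y =
      (∫ x, u x * (Real.exp (-(‖x - y‖ ^ 2 / (2 * t))) * dn P φ x)) /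
        ∫ x, Real.exp (-(‖x - y‖ ^ 2 / (2 * t))) * dn P φ x := by
    intro u
    unfold pst zz
    rw [int_mu' hL.nonneg hL.meas, int_mu' hL.nonneg hL.meas]
    simp only [mul_assoc]
  rw [e2, e2]
  have e3 : ∀ x : EuclideanSpace ℝ κ, ⟪x, w⟫_ℝ = ⟪w, x⟫_ℝ := fun x => real_inner_comm _ _
  simp only [e3]
  refine h1.trans (le_of_eq ?_)
  rw [ht]
  ring

theorem pars_poincareT {P : ∀ i, EuclideanSpace ℝ κ →L[ℝ] Xb m i} (hP : Pars P)
    {φ : ∀ i, Xb m i → ℝ} {R0 : ℝ} (h : Fam φ R0) {R : ℝ} (hR : 0 < R) (hT : TS φ R)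
    (f : EuclideanSpace ℝ κ → ℝ)
    (hf : ContDiff ℝ 1 f) (h0 : ∫ x, f x ∂(mu (dn P φ)) = 0) :
    ∫ x, f x ^ 2 ∂(mu (dn P φ)) ≤ 512 * ((Module.finrank ℝ (Fc P) : ℝ) + 2) ^ 2 * R ^ 2 *
      ∫ x, ‖fderiv ℝ f x‖ ^ 2 ∂(mu (dn P φ)) := by
  have h1 := crit (dn_LC hP h) (256 * ((Module.finrank ℝ (Fc P) : ℝ) + 2) ^ 2 * R ^ 2)
    (by positivity) (pars_PCT hP h hR hT) f hf h0
  refine h1.trans (le_of_eq ?_)
  ring

theorem gen_poincareT {Q : ∀ i, EuclideanSpace ℝ κ →L[ℝ] Xb m i}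
    (hQ : ∀ x, (∀ i, Q i x = 0) → x = 0) {φ : ∀ i, Xb m i → ℝ} {R0 : ℝ} (h : Fam φ R0) {R : ℝ}
    (hR : 0 < R) (hTS : TS φ R)
    (hev : ∀ i s, φ i (-s) = φ i s) (r : ℝ) (hr : 0 < r)
    (hvar : ∀ i (c : Xb m i), r * ‖c‖ ^ 2 * ∫ s, φ i s ≤ ∫ s, ⟪c, s⟫_ℝ ^ 2 * φ i s)
    (q : ℕ) (hq : ∑ i, m i ≤ Fintype.card κ + q) (s : ℝ) (hs : 0 < s)
    (hcov : ∀ e : EuclideanSpace ℝ κ, ∫ x, ⟪e, x⟫_ℝ ^ 2 * dn Q φ x ≤
      s * ‖e‖ ^ 2 * ∫ x, dn Q φ x)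
    (f : EuclideanSpace ℝ κ → ℝ) (hf : ContDiff ℝ 1 f) (h0 : ∫ x, f x * dn Q φ x = 0) :
    ∫ x, f x ^ 2 * dn Q φ x ≤ 1376256 * ((q : ℝ) + 2) ^ 4 * (R ^ 2 / r) * s *
      ∫ x, ‖fderiv ℝ f x‖ ^ 2 * dn Q φ x := by
  obtain ⟨T, hT⟩ := exists_pars hQ
  obtain ⟨c, hc, hc1, hc2⟩ := cov1 T
  have hL := dn_LC hT h
  obtain ⟨k, hk⟩ : ∃ k : ℕ, k = Module.finrank ℝ (Fc (pull Q T)) := ⟨_, rfl⟩
  have hkq : (k : ℝ) ≤ q := by
    have h1 := finrank_Fc hT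
    have : k ≤ q := by omega
    exact_mod_cast this
  let g : EuclideanSpace ℝ κ → ℝ := fun y => f (T.symm y)
  have hgd : ContDiff ℝ 1 g := hf.comp T.symm.contDiff
  have hgT : ∀ x, g (T x) = f x := fun x => by simp only [g]; rw [T.symm_apply_apply]
  have hg0 : ∫ y, g y ∂(mu (dn (pull Q T) φ)) = 0 := by
    rw [int_mu' hL.nonneg hL.meas]
    have h1 := hc1 fun y => g y * dn (pull Q T) φ y
    simp only [dn_pull, hgT] at h1
    rw [h0] at h1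
    rcases mul_eq_zero.1 h1.symm with h2 | h2
    · exact absurd h2 hc.ne'
    · exact h2
  have hP := pars_poincareT hT h hR hTS g hgd hg0
  rw [int_mu' hL.nonneg hL.meas, int_mu' hL.nonneg hL.meas, ← hk] at hP
  have e1 := hc1 fun y => g y ^ 2 * dn (pull Q T) φ y
  have e2 := hc1 fun y => ‖fderiv ℝ g y‖ ^ 2 * dn (pull Q T) φ y
  simp only [dn_pull, hgT] at e1 e2
  -- the gradients
  have hgrad : ∀ x, ‖fderiv ℝ g (T x)‖ ^ 2 ≤ 2688 * ((k : ℝ) + 2) ^ 2 * s / r *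
      ‖fderiv ℝ f x‖ ^ 2 := by
    intro x
    have hfd : fderiv ℝ g (T x) = (fderiv ℝ f x).comp T.symm.toContinuousLinearMap := by
      have h1 : HasFDerivAt g ((fderiv ℝ f (T.symm (T x))).comp T.symm.toContinuousLinearMap)
          (T x) :=
        ((hf.differentiable (by norm_num)) (T.symm (T x))).hasFDerivAt.comp (T x)
          T.symm.hasFDerivAt
      rw [h1.fderiv, T.symm_apply_apply]
    obtain ⟨a, ha⟩ : ∃ a : EuclideanSpace ℝ κ, a =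
      (InnerProductSpace.toDual ℝ (EuclideanSpace ℝ κ)).symm (fderiv ℝ f x) := ⟨_, rfl⟩
    obtain ⟨w, hw⟩ : ∃ w : EuclideanSpace ℝ κ, w =
      (InnerProductSpace.toDual ℝ (EuclideanSpace ℝ κ)).symm (fderiv ℝ g (T x)) := ⟨_, rfl⟩
    have ha1 : ∀ y, ⟪a, y⟫_ℝ = fderiv ℝ f x y := fun y => by
      rw [ha, InnerProductSpace.toDual_symm_apply]
    have hw1 : ∀ y, ⟪w, y⟫_ℝ = fderiv ℝ g (T x) y := fun y => by
      rw [hw, InnerProductSpace.toDual_symm_apply]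
    have ha2 : ‖a‖ = ‖fderiv ℝ f x‖ := by rw [ha, LinearIsometryEquiv.norm_map]
    have hw2 : ‖w‖ = ‖fderiv ℝ g (T x)‖ := by rw [hw, LinearIsometryEquiv.norm_map]
    have hwa : ∀ y, ⟪w, T y⟫_ℝ = ⟪a, y⟫_ℝ := fun y => by
      rw [hw1, ha1, hfd]
      simp
    rw [← ha2, ← hw2]
    rcases eq_or_ne a 0 with h3 | h3
    · have hw0 : w = 0 := by
        rw [← inner_self_eq_zero (𝕜 := ℝ)]
        have h4 := hwa (T.symm w)
        rw [T.apply_symm_apply, h3, inner_zero_left] at h4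
        exact h4
      rw [h3, hw0]
      simp
    · have hapos : 0 < ‖a‖ := norm_pos_iff.2 h3
      have hV : ∫ y, ⟪w, y⟫_ℝ ^ 2 * dn (pull Q T) φ y ≤ (s * ‖a‖ ^ 2) *
          ∫ y, dn (pull Q T) φ y := by
        have e3 := hc1 fun y => ⟪w, y⟫_ℝ ^ 2 * dn (pull Q T) φ y
        have e4 := hc1 fun y => dn (pull Q T) φ y
        simp only [dn_pull, hwa] at e3 e4
        have h5 := hcov a
        rw [e3, e4] at h5
        have h6 : c * ∫ y, ⟪w, y⟫_ℝ ^ 2 * dn (pull Q T) φ y ≤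
            c * ((s * ‖a‖ ^ 2) * ∫ y, dn (pull Q T) φ y) := by
          calc _ ≤ _ := h5
            _ = _ := by ring
        exact le_of_mul_le_mul_left h6 hc
      have h7 := lowerP hT h hev r hr.le hvar w (s * ‖a‖ ^ 2) (by positivity) hV
      rw [← hk] at h7
      calc ‖w‖ ^ 2 = (r * ‖w‖ ^ 2) / r := by field_simp
        _ ≤ (2688 * ((k : ℝ) + 2) ^ 2 * (s * ‖a‖ ^ 2)) / r := by gcongr
        _ = _ := by ring
  have hc3 : Continuous fun x => ‖fderiv ℝ f x‖ ^ 2 :=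
    (hf.continuous_fderiv (by norm_num)).norm.pow 2
  have hc4 : Continuous fun x => ‖fderiv ℝ g (T x)‖ ^ 2 :=
    (((hgd.continuous_fderiv (by norm_num)).comp T.continuous).norm.pow 2)
  have i1 := gen_int hQ h _ hc3
  have i2 := gen_int hQ h _ hc4
  have hnn : ∀ x, 0 ≤ dn Q φ x := fun x => Finset.prod_nonneg fun i _ => h.nonneg i _
  have e5 : ∫ x, ‖fderiv ℝ g (T x)‖ ^ 2 * dn Q φ x ≤ 2688 * ((k : ℝ) + 2) ^ 2 * s / r *
      ∫ x, ‖fderiv ℝ f x‖ ^ 2 * dn Q φ x := by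
    rw [← integral_const_mul]
    refine integral_mono i2 (i1.const_mul _) fun x => ?_
    simp only
    rw [← mul_assoc]
    exact mul_le_mul_of_nonneg_right (hgrad x) (hnn x)
  have hE : 0 ≤ ∫ x, ‖fderiv ℝ f x‖ ^ 2 * dn Q φ x :=
    integral_nonneg fun x => mul_nonneg (sq_nonneg _) (hnn x)
  calc ∫ x, f x ^ 2 * dn Q φ x = c * ∫ y, g y ^ 2 * dn (pull Q T) φ y := e1
    _ ≤ c * (512 * ((k : ℝ) + 2) ^ 2 * R ^ 2 *
        ∫ y, ‖fderiv ℝ g y‖ ^ 2 * dn (pull Q T) φ y) := mul_le_mul_of_nonneg_left hP hc.le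
    _ = 512 * ((k : ℝ) + 2) ^ 2 * R ^ 2 * ∫ x, ‖fderiv ℝ g (T x)‖ ^ 2 * dn Q φ x := by
        rw [e2]; ring
    _ ≤ 512 * ((k : ℝ) + 2) ^ 2 * R ^ 2 * (2688 * ((k : ℝ) + 2) ^ 2 * s / r *
        ∫ x, ‖fderiv ℝ f x‖ ^ 2 * dn Q φ x) := mul_le_mul_of_nonneg_left e5 (by positivity)
    _ = 1376256 * ((k : ℝ) + 2) ^ 4 * (R ^ 2 / r) * s *
        ∫ x, ‖fderiv ℝ f x‖ ^ 2 * dn Q φ x := by ring
    _ ≤ _ := by
        refine mul_le_mul_of_nonneg_right ?_ hE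
        have h8 : ((k : ℝ) + 2) ^ 4 ≤ ((q : ℝ) + 2) ^ 4 :=
          pow_le_pow_left₀ (by positivity) (by linarith) 4
        gcongr

end Pool.Agent.Y506.KS
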