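import Pool.Agent.H59.L.S8.H212R2.KLS.T1

/-!
# The spread of a linear function on a section of a log-concave function
-/

set_option autoImplicit false

namespace Pool.Agent.Y506.KS

open MeasureTheory Set
open scoped ENNReal

variable {E F : Type*} [NormedAddCommGroup E] [NormedSpace ℝ E] [FiniteDimensional ℝ E]
  [MeasurableSpace E] [BorelSpace E] [NormedAddCommGroup F] [NormedSpace ℝ F]
  [FiniteDimensional ℝ F] [MeasurableSpace F] [BorelSpace F]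

/-- log-concave, with values in `[0, ∞]` -/
def LCE (ρ : E → F → ℝ≥0∞) : Prop := ∀ (x y : E) (z w : F), ∀ t : ℝ, 0 < t → t < 1 →
  ρ x z ^ (1 - t) * ρ y w ^ t ≤ ρ ((1 - t) • x + t • y) ((1 - t) • z + t • w)

/-- mass of the fibre over `z` -/
noncomputable def hh (μ : Measure E) (ρ : E → F → ℝ≥0∞) (z : F) : ℝ≥0∞ := ∫⁻ x, ρ x z ∂μ

/-- one-sided spread of `l` on the fibre over `z` -/
noncomputable def JJ (μ : Measure E) (l : E →L[ℝ] ℝ) (ρ : E → F → ℝ≥0∞) (z : F) : ℝ≥0∞ :=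
  ∫⁻ p : E × E, ENNReal.ofReal (l p.1 - l p.2) ^ (2 : ℝ) * (ρ p.1 z * ρ p.2 z) ∂(μ.prod μ)

/-- second moment of `l - c` on the fibre over `z` -/
noncomputable def WW (μ : Measure E) (l : E →L[ℝ] ℝ) (c : ℝ) (ρ : E → F → ℝ≥0∞) (z : F) : ℝ≥0∞ :=
  ∫⁻ x, ENNReal.ofReal ((l x - c) ^ 2) * ρ x z ∂μ

theorem hh_sq (μ : Measure E) [μ.IsAddHaarMeasure] (ρ : E → F → ℝ≥0∞)
    (hm : Measurable (Function.uncurry ρ)) (z : F) :
    ∫⁻ p : E × E, ρ p.1 z * ρ p.2 z ∂(μ.prod μ) = hh μ ρ z * hh μ ρ z := by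
  have h1 : Measurable fun x => ρ x z := hm.comp (measurable_id.prodMk measurable_const)
  exact lintegral_prod_mul h1.aemeasurable h1.aemeasurable

theorem swap_int (μ : Measure E) [μ.IsAddHaarMeasure] (f : E × E → ℝ≥0∞) (hf : Measurable f) :
    ∫⁻ p : E × E, f p.swap ∂(μ.prod μ) = ∫⁻ p : E × E, f p ∂(μ.prod μ) := by
  have h1 : MeasurePreserving (Prod.swap : E × E → E × E) (μ.prod μ) (μ.prod μ) :=
    Measure.measurePreserving_swap
  exact h1.lintegral_comp hf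

theorem step1 (μ : Measure E) [μ.IsAddHaarMeasure] (l : E →L[ℝ] ℝ) (ρ : E → F → ℝ≥0∞)
    (hm : Measurable (Function.uncurry ρ)) (hlc : LCE ρ) (t : ℝ) (ht0 : 0 < t) (ht1 : t < 1)
    (z : F) :
    JJ μ l ρ 0 * (hh μ ρ z * hh μ ρ z) ^ t ≤ (hh μ ρ 0 * hh μ ρ 0) ^ t *
      (ENNReal.ofReal ((1 - t)⁻¹ ^ 2) * JJ μ l ρ (t • z)) := by
  have ht1' : 0 < 1 - t := by linarith
  have hmz : ∀ z : F, Measurable fun p : E × E => ρ p.1 z * ρ p.2 z := fun z =>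
    (hm.comp (measurable_fst.prodMk measurable_const)).mul
      (hm.comp (measurable_snd.prodMk measurable_const))
  have hl : Measurable l := l.continuous.measurable
  have hd : Measurable fun p : E × E => ENNReal.ofReal (l p.1 - l p.2) :=
    ENNReal.measurable_ofReal.comp ((hl.comp measurable_fst).sub (hl.comp measurable_snd))
  let F0 : E × E → ℝ≥0∞ := fun p => ENNReal.ofReal (l p.1 - l p.2) ^ (2 / (1 - t)) *
    (ρ p.1 0 * ρ p.2 0)
  let S1 : Set (E × E) := {p | l p.2 ≤ l p.1}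
  let S0 : Set (E × E) := {p | l p.2 < l p.1}
  have hS1 : MeasurableSet S1 := measurableSet_le (hl.comp measurable_snd) (hl.comp measurable_fst)
  have hS0 : MeasurableSet S0 := measurableSet_lt (hl.comp measurable_snd) (hl.comp measurable_fst)
  let F1 : E × E → ℝ≥0∞ := S1.indicator fun p => ρ p.1 z * ρ p.2 z
  let G : E × E → ℝ≥0∞ := S0.indicator fun p => ρ p.1 0 * ρ p.2 0
  let F2 : E × E → ℝ≥0∞ := fun p => ENNReal.ofReal ((1 - t)⁻¹ ^ 2) *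
    (ENNReal.ofReal (l p.1 - l p.2) ^ (2 : ℝ) * (ρ p.1 (t • z) * ρ p.2 (t • z)))
  have mF0 : Measurable F0 := (hd.pow_const _).mul (hmz 0)
  have mF1 : Measurable F1 := (hmz z).indicator hS1
  have mG : Measurable G := (hmz 0).indicator hS0
  have mF2 : Measurable F2 := measurable_const.mul ((hd.pow_const _).mul (hmz _))
  have hpow : ∀ p : E × E, F0 p ^ (1 - t) = ENNReal.ofReal (l p.1 - l p.2) ^ (2 : ℝ) *
      (ρ p.1 0 * ρ p.2 0) ^ (1 - t) := by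
    intro p
    simp only [F0]
    rw [ENNReal.mul_rpow_of_nonneg _ _ ht1'.le, ← ENNReal.rpow_mul, div_mul_cancel₀ _ ht1'.ne']
  -- Prekopa-Leindler on pairs
  have hPL := Pool.Agent.H212R2.KLS.PL (μ.prod μ) t ht0 ht1 F0 F1 F2 mF0 mF1 mF2 (by
    intro x y
    by_cases hy : y ∈ S1
    · have e1 : F1 y = ρ y.1 z * ρ y.2 z := indicator_of_mem hy _
      rw [hpow, e1]
      have h1 := hlc x.1 y.1 0 z t ht0 ht1
      have h2 := hlc x.2 y.2 0 z t ht0 ht1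
      rw [smul_zero, zero_add] at h1 h2
      have h3 : (ρ x.1 0 * ρ x.2 0) ^ (1 - t) * (ρ y.1 z * ρ y.2 z) ^ t ≤
          ρ ((1 - t) • x.1 + t • y.1) (t • z) * ρ ((1 - t) • x.2 + t • y.2) (t • z) := by
        rw [ENNReal.mul_rpow_of_nonneg _ _ ht1'.le, ENNReal.mul_rpow_of_nonneg _ _ ht0.le]
        calc _ = (ρ x.1 0 ^ (1 - t) * ρ y.1 z ^ t) * (ρ x.2 0 ^ (1 - t) * ρ y.2 z ^ t) := by ring
          _ ≤ _ := mul_le_mul' h1 h2
      have h4 : ENNReal.ofReal (l x.1 - l x.2) ^ (2 : ℝ) ≤ ENNReal.ofReal ((1 - t)⁻¹ ^ 2) *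
          ENNReal.ofReal (l ((1 - t) • x.1 + t • y.1) - l ((1 - t) • x.2 + t • y.2)) ^ (2 : ℝ) := by
        have e2 : ENNReal.ofReal ((1 - t)⁻¹ ^ 2) = ENNReal.ofReal ((1 - t)⁻¹) ^ (2 : ℝ) := by
          rw [ENNReal.rpow_two, ENNReal.ofReal_pow (by positivity)]
        rw [e2, ← ENNReal.mul_rpow_of_nonneg _ _ (by norm_num : (0 : ℝ) ≤ 2),
          ← ENNReal.ofReal_mul (by positivity)]
        refine ENNReal.rpow_le_rpow (ENNReal.ofReal_le_ofReal ?_) (by norm_num)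
        have h5 : l ((1 - t) • x.1 + t • y.1) - l ((1 - t) • x.2 + t • y.2) =
            (1 - t) * (l x.1 - l x.2) + t * (l y.1 - l y.2) := by
          simp only [map_add, map_smul, smul_eq_mul]; ring
        rw [h5, mul_add, ← mul_assoc, inv_mul_cancel₀ ht1'.ne', one_mul]
        have h6 : 0 ≤ l y.1 - l y.2 := sub_nonneg.2 hy
        have : 0 ≤ (1 - t)⁻¹ * (t * (l y.1 - l y.2)) := by positivity
        linarith
      calc _ = ENNReal.ofReal (l x.1 - l x.2) ^ (2 : ℝ) *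
            ((ρ x.1 0 * ρ x.2 0) ^ (1 - t) * (ρ y.1 z * ρ y.2 z) ^ t) := by ring
        _ ≤ _ := mul_le_mul' h4 h3
        _ = _ := by
          simp only [F2, Prod.fst_add, Prod.smul_fst, Prod.snd_add, Prod.smul_snd]
          ring
    · have e1 : F1 y = 0 := indicator_of_notMem hy _
      rw [e1, ENNReal.zero_rpow_of_pos ht0, mul_zero]
      exact zero_le)
  -- Hoelder
  have hHo : JJ μ l ρ 0 ≤ (∫⁻ p, F0 p ∂(μ.prod μ)) ^ (1 - t) * (∫⁻ p, G p ∂(μ.prod μ)) ^ t := by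
    refine le_trans (lintegral_mono fun p => ?_) (ENNReal.lintegral_mul_norm_pow_le
      mF0.aemeasurable mG.aemeasurable ht1'.le ht0.le (by ring))
    simp only
    rw [hpow]
    by_cases hp : p ∈ S0
    · have e1 : G p = ρ p.1 0 * ρ p.2 0 := indicator_of_mem hp _
      rw [e1, mul_assoc, ← ENNReal.rpow_add_of_nonneg _ _ ht1'.le ht0.le, sub_add_cancel,
        ENNReal.rpow_one]
    · have e1 : ENNReal.ofReal (l p.1 - l p.2) = 0 := by
        rw [ENNReal.ofReal_eq_zero]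
        have : ¬ l p.2 < l p.1 := hp
        linarith
      rw [e1, ENNReal.zero_rpow_of_pos (by norm_num)]
      simp
  -- masses
  have hG2 : 2 * ∫⁻ p, G p ∂(μ.prod μ) ≤ hh μ ρ 0 * hh μ ρ 0 := by
    rw [← hh_sq μ ρ hm, two_mul]
    conv_lhs => rw [← swap_int μ G mG]
    rw [swap_int μ G mG]
    nth_rewrite 2 [← swap_int μ G mG]
    rw [← lintegral_add_left mG]
    refine lintegral_mono fun p => ?_
    simp only [G, indicator, S0, mem_ofPred_eq, Prod.fst_swap, Prod.snd_swap]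
    by_cases h1 : l p.2 < l p.1
    · have h2 : ¬ l p.1 < l p.2 := by linarith
      simp [h1, h2]
    · by_cases h2 : l p.1 < l p.2
      · simp [h1, h2, mul_comm]
      · simp [h1, h2]
  have hF2 : hh μ ρ z * hh μ ρ z ≤ 2 * ∫⁻ p, F1 p ∂(μ.prod μ) := by
    rw [← hh_sq μ ρ hm, two_mul]
    nth_rewrite 2 [← swap_int μ F1 mF1]
    rw [← lintegral_add_left mF1]
    refine lintegral_mono fun p => ?_
    simp only [F1, indicator, S1, mem_ofPred_eq, Prod.fst_swap, Prod.snd_swap]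
    by_cases h1 : l p.2 ≤ l p.1
    · simp [h1]
    · have h2 : l p.1 ≤ l p.2 := by linarith
      simp [h1, h2, mul_comm]
  have hq : Measurable fun p : E × E => ENNReal.ofReal (l p.1 - l p.2) ^ (2 : ℝ) *
      (ρ p.1 (t • z) * ρ p.2 (t • z)) := (hd.pow_const _).mul (hmz _)
  have hF3 : ∫⁻ p, F2 p ∂(μ.prod μ) = ENNReal.ofReal ((1 - t)⁻¹ ^ 2) * JJ μ l ρ (t • z) :=
    lintegral_const_mul _ hq
  calc JJ μ l ρ 0 * (hh μ ρ z * hh μ ρ z) ^ t
      ≤ JJ μ l ρ 0 * (2 * ∫⁻ p, F1 p ∂(μ.prod μ)) ^ t := by gcongr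
    _ ≤ ((∫⁻ p, F0 p ∂(μ.prod μ)) ^ (1 - t) * (∫⁻ p, G p ∂(μ.prod μ)) ^ t) *
        (2 * ∫⁻ p, F1 p ∂(μ.prod μ)) ^ t := by gcongr
    _ = (2 * ∫⁻ p, G p ∂(μ.prod μ)) ^ t * ((∫⁻ p, F0 p ∂(μ.prod μ)) ^ (1 - t) *
        (∫⁻ p, F1 p ∂(μ.prod μ)) ^ t) := by
        rw [ENNReal.mul_rpow_of_nonneg _ _ ht0.le, ENNReal.mul_rpow_of_nonneg _ _ ht0.le]
        ring
    _ ≤ (hh μ ρ 0 * hh μ ρ 0) ^ t * (ENNReal.ofReal ((1 - t)⁻¹ ^ 2) * JJ μ l ρ (t • z)) := by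
        rw [← hF3]
        gcongr

theorem step2 (μ : Measure E) [μ.IsAddHaarMeasure] (l : E →L[ℝ] ℝ) (ρ : E → F → ℝ≥0∞)
    (hm : Measurable (Function.uncurry ρ)) (c : ℝ) (z : F) :
    JJ μ l ρ z ≤ 4 * (hh μ ρ z * WW μ l c ρ z) := by
  have hl : Measurable l := l.continuous.measurable
  have h1 : Measurable fun x => ρ x z := hm.comp (measurable_id.prodMk measurable_const)
  have h2 : Measurable fun x => ENNReal.ofReal ((l x - c) ^ 2) * ρ x z :=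
    (ENNReal.measurable_ofReal.comp ((hl.sub measurable_const).pow_const 2)).mul h1
  have hpt : ∀ p : E × E, ENNReal.ofReal (l p.1 - l p.2) ^ (2 : ℝ) * (ρ p.1 z * ρ p.2 z) ≤
      2 * ((ENNReal.ofReal ((l p.1 - c) ^ 2) * ρ p.1 z) * ρ p.2 z) +
      2 * (ρ p.1 z * (ENNReal.ofReal ((l p.2 - c) ^ 2) * ρ p.2 z)) := by
    intro p
    have h3 : ENNReal.ofReal (l p.1 - l p.2) ^ (2 : ℝ) ≤
        2 * ENNReal.ofReal ((l p.1 - c) ^ 2) + 2 * ENNReal.ofReal ((l p.2 - c) ^ 2) := by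
      rw [ENNReal.rpow_two]
      rcases le_or_gt (l p.1 - l p.2) 0 with h | h
      · rw [ENNReal.ofReal_eq_zero.2 h]
        simp
      · rw [← ENNReal.ofReal_pow h.le, ← ENNReal.ofReal_ofNat 2, ← ENNReal.ofReal_mul (by norm_num),
          ← ENNReal.ofReal_mul (by norm_num), ← ENNReal.ofReal_add (by positivity) (by positivity)]
        refine ENNReal.ofReal_le_ofReal ?_
        nlinarith [sq_nonneg ((l p.1 - c) + (l p.2 - c))]
    calc _ ≤ (2 * ENNReal.ofReal ((l p.1 - c) ^ 2) + 2 * ENNReal.ofReal ((l p.2 - c) ^ 2)) *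
          (ρ p.1 z * ρ p.2 z) := by gcongr
      _ = _ := by ring
  calc JJ μ l ρ z ≤ _ := lintegral_mono hpt
    _ = 2 * (WW μ l c ρ z * hh μ ρ z) + 2 * (hh μ ρ z * WW μ l c ρ z) := by
        have m1 : Measurable fun p : E × E => (ENNReal.ofReal ((l p.1 - c) ^ 2) * ρ p.1 z) *
          ρ p.2 z := (h2.comp measurable_fst).mul (h1.comp measurable_snd)
        have m2 : Measurable fun p : E × E => ρ p.1 z * (ENNReal.ofReal ((l p.2 - c) ^ 2) *
          ρ p.2 z) := (h1.comp measurable_fst).mul (h2.comp measurable_snd)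
        rw [lintegral_add_left (m1.const_mul 2), lintegral_const_mul _ m1,
          lintegral_const_mul _ m2, lintegral_prod_mul h2.aemeasurable h1.aemeasurable,
          lintegral_prod_mul h1.aemeasurable h2.aemeasurable]
        rfl
    _ = _ := by ring

theorem step3 (μ : Measure E) [μ.IsAddHaarMeasure] (l : E →L[ℝ] ℝ) (ρ : E → F → ℝ≥0∞)
    (hm : Measurable (Function.uncurry ρ)) (z : F) (h0 : hh μ ρ z ≠ 0) (h1 : hh μ ρ z ≠ ∞) :
    ∃ c, WW μ l c ρ z * hh μ ρ z ≤ 2 * JJ μ l ρ z := by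
  have hl : Measurable l := l.continuous.measurable
  have hr : Measurable fun x => ρ x z := hm.comp (measurable_id.prodMk measurable_const)
  let m : Measure E := μ.withDensity fun x => ρ x z
  have hmu : m univ = hh μ ρ z := by
    simp only [m]
    rw [withDensity_apply _ MeasurableSet.univ, setLIntegral_univ]
    rfl
  have hm0 : m ≠ 0 := by
    intro h
    rw [h] at hmu
    exact h0 (by simpa using hmu.symm)
  have hfin : IsFiniteMeasure m := ⟨by rw [hmu]; exact lt_top_iff_ne_top.2 h1⟩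
  let g : E × E → ℝ≥0∞ := fun p => ENNReal.ofReal ((l p.2 - l p.1) ^ 2) * (ρ p.2 z * ρ p.1 z)
  have hg : Measurable g := (ENNReal.measurable_ofReal.comp
    (((hl.comp measurable_snd).sub (hl.comp measurable_fst)).pow_const 2)).mul
    ((hr.comp measurable_snd).mul (hr.comp measurable_fst))
  have hf : Measurable fun x' => WW μ l (l x') ρ z := by
    unfold WW
    refine Measurable.lintegral_prod_right' (f := fun p : E × E =>
      ENNReal.ofReal ((l p.2 - l p.1) ^ 2) * ρ p.2 z) ?_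
    exact (ENNReal.measurable_ofReal.comp
      (((hl.comp measurable_snd).sub (hl.comp measurable_fst)).pow_const 2)).mul
      (hr.comp measurable_snd)
  obtain ⟨x, hx⟩ := exists_le_laverage hm0 (hf.aemeasurable (μ := m))
  refine ⟨l x, ?_⟩
  rw [laverage_eq, hmu] at hx
  have hint : ∫⁻ x', WW μ l (l x') ρ z ∂m = 2 * JJ μ l ρ z := by
    simp only [m]
    rw [lintegral_withDensity_eq_lintegral_mul _ hr hf]
    have e1 : ∀ x' : E, ((fun x => ρ x z) * fun x' => WW μ l (l x') ρ z) x' =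
        ∫⁻ x, g (x', x) ∂μ := by
      intro x'
      simp only [Pi.mul_apply, WW, g]
      have m0 : Measurable fun x => ENNReal.ofReal ((l x - l x') ^ 2) * ρ x z :=
        (ENNReal.measurable_ofReal.comp ((hl.sub measurable_const).pow_const 2)).mul hr
      rw [← lintegral_const_mul _ m0]
      refine lintegral_congr fun x => ?_
      ring
    simp only [e1]
    rw [← lintegral_prod _ hg.aemeasurable]
    have e2 : ∀ p : E × E, g p = ENNReal.ofReal (l p.1 - l p.2) ^ (2 : ℝ) * (ρ p.1 z * ρ p.2 z) +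
        ENNReal.ofReal (l p.swap.1 - l p.swap.2) ^ (2 : ℝ) * (ρ p.swap.1 z * ρ p.swap.2 z) := by
      intro p
      simp only [g, Prod.fst_swap, Prod.snd_swap]
      have h3 : ENNReal.ofReal ((l p.2 - l p.1) ^ 2) = ENNReal.ofReal (l p.1 - l p.2) ^ (2 : ℝ) +
          ENNReal.ofReal (l p.2 - l p.1) ^ (2 : ℝ) := by
        rw [ENNReal.rpow_two, ENNReal.rpow_two]
        rcases le_total (l p.1) (l p.2) with h | h
        · rw [ENNReal.ofReal_eq_zero.2 (sub_nonpos.2 h : l p.1 - l p.2 ≤ 0),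
            ← ENNReal.ofReal_pow (sub_nonneg.2 h)]
          simp
        · rw [ENNReal.ofReal_eq_zero.2 (sub_nonpos.2 h : l p.2 - l p.1 ≤ 0),
            ← ENNReal.ofReal_pow (sub_nonneg.2 h), sub_sq_comm]
          simp
      rw [h3]
      ring
    simp only [e2]
    have m1 : Measurable fun p : E × E => ENNReal.ofReal (l p.1 - l p.2) ^ (2 : ℝ) *
        (ρ p.1 z * ρ p.2 z) := ((ENNReal.measurable_ofReal.comp
      ((hl.comp measurable_fst).sub (hl.comp measurable_snd))).pow_const _).mul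
      ((hr.comp measurable_fst).mul (hr.comp measurable_snd))
    rw [lintegral_add_left m1, swap_int μ _ m1, two_mul]
    rfl
  rw [hint] at hx
  exact (ENNReal.le_div_iff_mul_le (Or.inl h0) (Or.inl h1)).1 hx

/-- the main estimate -/
theorem upper (μ : Measure E) [μ.IsAddHaarMeasure] (ν : Measure F) [ν.IsAddHaarMeasure]
    (l : E →L[ℝ] ℝ) (ρ : E → F → ℝ≥0∞) (hm : Measurable (Function.uncurry ρ)) (hlc : LCE ρ)
    (t : ℝ) (ht0 : 0 < t) (ht1 : t < 1) (c : F → ℝ) (hc : Measurable c)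
    (hmode : ∀ z, hh μ ρ z ≤ hh μ ρ 0) (h0 : hh μ ρ 0 ≠ 0) (h1 : hh μ ρ 0 ≠ ∞)
    (hM0 : ∫⁻ z, hh μ ρ z ∂ν ≠ 0) (hM1 : ∫⁻ z, hh μ ρ z ∂ν ≠ ∞) (S : ℝ≥0∞)
    (hS : ∫⁻ z, WW μ l (c z) ρ z ∂ν ≤ S * ∫⁻ z, hh μ ρ z ∂ν) :
    ∃ c', WW μ l c' ρ 0 ≤ 8 * (ENNReal.ofReal ((1 - t)⁻¹ ^ 2) *
      ENNReal.ofReal ((t⁻¹ ^ Module.finrank ℝ F) ^ 2) * S) * hh μ ρ 0 := by
  have ht1' : 0 < 1 - t := by linarith
  have hl : Measurable l := l.continuous.measurable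
  set K := ENNReal.ofReal ((1 - t)⁻¹ ^ 2) with hK
  set κ := ENNReal.ofReal (t⁻¹ ^ Module.finrank ℝ F) with hκ
  set M := ∫⁻ z, hh μ ρ z ∂ν with hM
  have mh : Measurable fun z => hh μ ρ z := by
    unfold hh
    exact Measurable.lintegral_prod_left' hm
  have mW : Measurable fun z => WW μ l (c z) ρ z := by
    unfold WW
    refine Measurable.lintegral_prod_left' (f := fun p : E × F =>
      ENNReal.ofReal ((l p.1 - c p.2) ^ 2) * ρ p.1 p.2) ?_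
    exact (ENNReal.measurable_ofReal.comp
      (((hl.comp measurable_fst).sub (hc.comp measurable_snd)).pow_const 2)).mul hm
  have e1 : ∀ a : ℝ≥0∞, (a * a) ^ t * (a * a) ^ (1 - t) = a * a := by
    intro a
    rw [← ENNReal.rpow_add_of_nonneg _ _ ht0.le ht1'.le, add_sub_cancel, ENNReal.rpow_one]
  have A : ∀ z, JJ μ l ρ 0 * (hh μ ρ z * hh μ ρ z) ≤ (4 * K * (hh μ ρ 0 * hh μ ρ 0)) *
      (hh μ ρ (t • z) * WW μ l (c (t • z)) ρ (t • z)) := by
    intro z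
    have s1 := step1 μ l ρ hm hlc t ht0 ht1 z
    have s2 := step2 μ l ρ hm (c (t • z)) (t • z)
    calc JJ μ l ρ 0 * (hh μ ρ z * hh μ ρ z)
        = (JJ μ l ρ 0 * (hh μ ρ z * hh μ ρ z) ^ t) * (hh μ ρ z * hh μ ρ z) ^ (1 - t) := by
          rw [mul_assoc, e1]
      _ ≤ ((hh μ ρ 0 * hh μ ρ 0) ^ t * (K * JJ μ l ρ (t • z))) *
          (hh μ ρ 0 * hh μ ρ 0) ^ (1 - t) :=
          mul_le_mul' s1 (ENNReal.rpow_le_rpow (mul_le_mul' (hmode z) (hmode z)) ht1'.le)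
      _ = (hh μ ρ 0 * hh μ ρ 0) * (K * JJ μ l ρ (t • z)) := by
          rw [mul_right_comm, e1]
      _ ≤ (hh μ ρ 0 * hh μ ρ 0) * (K * (4 * (hh μ ρ (t • z) * WW μ l (c (t • z)) ρ (t • z)))) := by
          gcongr
      _ = _ := by ring
  have sq : ∀ a : ℝ≥0∞, (a * a) ^ (1 / 2 : ℝ) = a := by
    intro a
    rw [← sq, ← ENNReal.rpow_two, ← ENNReal.rpow_mul]
    norm_num
  have sq2 : ∀ a : ℝ≥0∞, a ^ (1 / 2 : ℝ) * a ^ (1 / 2 : ℝ) = a := by
    intro a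
    rw [← ENNReal.rpow_add_of_nonneg _ _ (by norm_num) (by norm_num)]
    norm_num
  have B : ∀ z, JJ μ l ρ 0 ^ (1 / 2 : ℝ) * hh μ ρ z ≤
      (4 * K * (hh μ ρ 0 * hh μ ρ 0)) ^ (1 / 2 : ℝ) *
      (hh μ ρ (t • z) ^ (1 / 2 : ℝ) * WW μ l (c (t • z)) ρ (t • z) ^ (1 / 2 : ℝ)) := by
    intro z
    have := ENNReal.rpow_le_rpow (A z) (by norm_num : (0 : ℝ) ≤ 1 / 2)
    rw [ENNReal.mul_rpow_of_nonneg _ _ (by norm_num : (0 : ℝ) ≤ 1 / 2), sq,
      ENNReal.mul_rpow_of_nonneg _ _ (by norm_num : (0 : ℝ) ≤ 1 / 2),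
      ENNReal.mul_rpow_of_nonneg (hh μ ρ (t • z)) _ (by norm_num : (0 : ℝ) ≤ 1 / 2)] at this
    exact this
  have mg : Measurable fun z => hh μ ρ z ^ (1 / 2 : ℝ) * WW μ l (c z) ρ z ^ (1 / 2 : ℝ) :=
    (mh.pow_const _).mul (mW.pow_const _)
  have C : JJ μ l ρ 0 ^ (1 / 2 : ℝ) * M ≤ (4 * K * (hh μ ρ 0 * hh μ ρ 0)) ^ (1 / 2 : ℝ) *
      (κ * (M ^ (1 / 2 : ℝ) * (S * M) ^ (1 / 2 : ℝ))) := by
    calc JJ μ l ρ 0 ^ (1 / 2 : ℝ) * M = ∫⁻ z, JJ μ l ρ 0 ^ (1 / 2 : ℝ) * hh μ ρ z ∂ν :=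
          (lintegral_const_mul _ mh).symm
      _ ≤ _ := lintegral_mono B
      _ = (4 * K * (hh μ ρ 0 * hh μ ρ 0)) ^ (1 / 2 : ℝ) *
          ∫⁻ z, (hh μ ρ (t • z) ^ (1 / 2 : ℝ) * WW μ l (c (t • z)) ρ (t • z) ^ (1 / 2 : ℝ)) ∂ν :=
          lintegral_const_mul _ (mg.comp (measurable_const_smul t))
      _ = (4 * K * (hh μ ρ 0 * hh μ ρ 0)) ^ (1 / 2 : ℝ) *
          (κ * ∫⁻ z, (hh μ ρ z ^ (1 / 2 : ℝ) * WW μ l (c z) ρ z ^ (1 / 2 : ℝ)) ∂ν) := by
          congr 1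
          have h2 := lintegral_map (μ := ν) mg (measurable_const_smul t)
          rw [Measure.map_addHaar_smul ν ht0.ne', lintegral_smul_measure] at h2
          rw [← h2, smul_eq_mul, hκ]
          congr 2
          rw [abs_of_pos (by positivity), inv_pow]
      _ ≤ _ := by
          gcongr
          refine (ENNReal.lintegral_mul_norm_pow_le mh.aemeasurable mW.aemeasurable (by norm_num)
            (by norm_num) (by norm_num)).trans ?_
          gcongr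
  have D : JJ μ l ρ 0 ^ (1 / 2 : ℝ) ≤ (4 * K * (hh μ ρ 0 * hh μ ρ 0)) ^ (1 / 2 : ℝ) *
      (κ * S ^ (1 / 2 : ℝ)) := by
    have e2 : (4 * K * (hh μ ρ 0 * hh μ ρ 0)) ^ (1 / 2 : ℝ) *
      (κ * (M ^ (1 / 2 : ℝ) * (S * M) ^ (1 / 2 : ℝ))) =
      ((4 * K * (hh μ ρ 0 * hh μ ρ 0)) ^ (1 / 2 : ℝ) * (κ * S ^ (1 / 2 : ℝ))) * M := by
      rw [ENNReal.mul_rpow_of_nonneg S M (by norm_num : (0 : ℝ) ≤ 1 / 2)]
      nth_rewrite 3 [← sq2 M]
      ring
    rw [e2] at C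
    exact (ENNReal.mul_le_mul_iff_left hM0 hM1).1 C
  have hJ : JJ μ l ρ 0 ≤ (4 * K * (hh μ ρ 0 * hh μ ρ 0)) * (κ * κ * S) := by
    calc JJ μ l ρ 0 = JJ μ l ρ 0 ^ (1 / 2 : ℝ) * JJ μ l ρ 0 ^ (1 / 2 : ℝ) := (sq2 _).symm
      _ ≤ _ := mul_le_mul' D D
      _ = ((4 * K * (hh μ ρ 0 * hh μ ρ 0)) ^ (1 / 2 : ℝ) *
          (4 * K * (hh μ ρ 0 * hh μ ρ 0)) ^ (1 / 2 : ℝ)) * (κ * κ *
          (S ^ (1 / 2 : ℝ) * S ^ (1 / 2 : ℝ))) := by ring
      _ = _ := by rw [sq2, sq2]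
  obtain ⟨c', hc'⟩ := step3 μ l ρ hm (0 : F) h0 h1
  refine ⟨c', ?_⟩
  have hκ2 : ENNReal.ofReal ((t⁻¹ ^ Module.finrank ℝ F) ^ 2) = κ * κ := by
    rw [hκ, ← ENNReal.ofReal_mul (by positivity), _root_.sq]
  rw [hκ2]
  have h3 : WW μ l c' ρ 0 * hh μ ρ 0 ≤ (8 * (K * (κ * κ) * S) * hh μ ρ 0) * hh μ ρ 0 :=
    calc WW μ l c' ρ 0 * hh μ ρ 0 ≤ 2 * JJ μ l ρ 0 := hc'
      _ ≤ 2 * ((4 * K * (hh μ ρ 0 * hh μ ρ 0)) * (κ * κ * S)) := by gcongr
      _ = _ := by ring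
  exact (ENNReal.mul_le_mul_iff_left h0 h1).1 h3

end Pool.Agent.Y506.KS
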