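import Pool.Agent.H59.L.S8.Y506.KS.Fam

/-!
# Upper bound for the covariance of `∏ φ i (P i x)` in Parseval position
-/

set_option autoImplicit false
set_option linter.unusedSectionVars false

namespace Pool.Agent.Y506.KS

open MeasureTheory Set
open scoped ENNReal InnerProductSpace
open Pool.Agent.H212R2.KLS (mu Bdd)
open Pool.Agent.H888R2.KT

variable {ι : Type} [Fintype ι] [DecidableEq ι] {m : ι → ℕ} {κ : Type} [Fintype κ]

theorem exists_t {P : ∀ i, EuclideanSpace ℝ κ →L[ℝ] Xb m i} (hP : Pars P) (θ : Fc P →L[ℝ] ℝ) :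
    ∃ t : ∀ i, Xb m i, ∀ (x : EuclideanSpace ℝ κ) (z : Fc P),
      ∑ i, ⟪t i, P i x + (z : ∀ i, Xb m i) i⟫_ℝ = θ z := by
  let L : (∀ i, Xb m i) →L[ℝ] ℝ := (θ.comp (ContinuousLinearMap.snd ℝ (EuclideanSpace ℝ κ)
    (Fc P))).comp (Psi hP).symm.toContinuousLinearMap
  let Li : ∀ i, Xb m i →L[ℝ] ℝ := fun i => L.comp (ContinuousLinearMap.single ℝ (Xb m) i)
  refine ⟨fun i => (InnerProductSpace.toDual ℝ (Xb m i)).symm (Li i), fun x z => ?_⟩
  have e1 : ∀ i, ⟪(InnerProductSpace.toDual ℝ (Xb m i)).symm (Li i),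
      P i x + (z : ∀ i, Xb m i) i⟫_ℝ = L (Pi.single i (P i x + (z : ∀ i, Xb m i) i)) := by
    intro i
    rw [InnerProductSpace.toDual_symm_apply]
    rfl
  simp only [e1]
  rw [← map_sum, Finset.univ_sum_single]
  have e2 : (fun i => P i x + (z : ∀ i, Xb m i) i) = Psi hP (x, z) := by
    funext i
    rw [Psi_apply]
  rw [e2]
  simp [L]

theorem rh_md (P : ∀ i, EuclideanSpace ℝ κ →L[ℝ] Xb m i) {φ : ∀ i, Xb m i → ℝ} {R : ℝ}
    (h : Fam φ R) (a c : ∀ i, Xb m i) (b : ℝ) (x : EuclideanSpace ℝ κ) (z : Fc P) :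
    rh P (md φ a c b) x z = rh P φ x z * ENNReal.ofReal (Real.exp
      ((∑ i, ⟪a i, P i x + (z : ∀ i, Xb m i) i⟫_ℝ) -
        b * ∑ i, ‖P i x + (z : ∀ i, Xb m i) i - c i‖ ^ 2)) := by
  unfold rh md
  rw [Finset.mul_sum, ← Finset.sum_sub_distrib, Real.exp_sum,
    ENNReal.ofReal_prod_of_nonneg fun i _ => (Real.exp_pos _).le, ← Finset.prod_mul_distrib]
  refine Finset.prod_congr rfl fun i _ => ?_
  rw [ENNReal.ofReal_mul (h.nonneg _ _)]

theorem dn_md (P : ∀ i, EuclideanSpace ℝ κ →L[ℝ] Xb m i) (φ : ∀ i, Xb m i → ℝ)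
    (a c : ∀ i, Xb m i) (b : ℝ) (x : EuclideanSpace ℝ κ) :
    dn P (md φ a c b) x = dn P φ x * Real.exp
      ((∑ i, ⟪a i, P i x⟫_ℝ) - b * ∑ i, ‖P i x - c i‖ ^ 2) := by
  unfold dn md
  rw [Finset.mul_sum, ← Finset.sum_sub_distrib, Real.exp_sum, ← Finset.prod_mul_distrib]

theorem num3 (q : ℕ) : ((((q : ℝ) + 1) / ((q : ℝ) + 2))⁻¹) ^ q ≤ Real.exp 1 := by
  have h1 : (((q : ℝ) + 1) / ((q : ℝ) + 2))⁻¹ = 1 / ((q : ℝ) + 1) + 1 := by
    field_simp
    ring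
  have h2 : (1 / ((q : ℝ) + 1) + 1) ≤ Real.exp (1 / ((q : ℝ) + 1)) := Real.add_one_le_exp _
  rw [h1]
  calc (1 / ((q : ℝ) + 1) + 1) ^ q ≤ Real.exp (1 / ((q : ℝ) + 1)) ^ q :=
        pow_le_pow_left₀ (by positivity) h2 q
    _ = Real.exp (q * (1 / ((q : ℝ) + 1))) := by rw [← Real.exp_nat_mul]
    _ ≤ Real.exp 1 := by
        refine Real.exp_le_exp.2 ?_
        rw [mul_one_div, div_le_one (by positivity)]
        linarith

theorem exp1_le : Real.exp 1 ≤ 2.72 := by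
  have := Real.exp_one_lt_d9
  linarith

theorem num4 (q : ℕ) : (1 - ((q : ℝ) + 1) / ((q : ℝ) + 2))⁻¹ = (q : ℝ) + 2 := by
  have : (q : ℝ) + 2 ≠ 0 := by positivity
  field_simp
  ring

theorem upperP {P : ∀ i, EuclideanSpace ℝ κ →L[ℝ] Xb m i} (hP : Pars P) {φ : ∀ i, Xb m i → ℝ}
    {R : ℝ} (h : Fam φ R) (w : EuclideanSpace ℝ κ) :
    ∃ c : ℝ, ∫⁻ x, ENNReal.ofReal ((⟪w, x⟫_ℝ - c) ^ 2) * ENNReal.ofReal (dn P φ x) ≤
      ENNReal.ofReal (64 * ((Module.finrank ℝ (Fc P) : ℝ) + 2) ^ 2 * (R ^ 2 * ‖w‖ ^ 2)) *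
        ∫⁻ x, ENNReal.ofReal (dn P φ x) := by
  obtain ⟨q, hq⟩ : ∃ q : ℕ, q = Module.finrank ℝ (Fc P) := ⟨_, rfl⟩
  -- the mode
  obtain ⟨C, hC, hC'⟩ := hh_fin hP h (fun _ => 1) continuous_const
  obtain ⟨δ, r, hδ, hr, hlow⟩ := hh_low hP h (fun _ => 1) continuous_const fun _ => one_pos
  simp only [ENNReal.ofReal_one, mul_one] at hC' hlow
  obtain ⟨θ, hθ⟩ := supergradE (hh volume (rh P φ)) (fun z => ((hC' z).trans_lt
    (lt_top_iff_ne_top.2 hC)).ne) (fun z w t ht0 ht1 =>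
      hh_lc volume (rh P φ) (rh_meas P h) (rh_lce P h) z w t ht0 ht1) δ r hδ hr hlow
  obtain ⟨t, ht⟩ := exists_t hP θ
  -- the tilted family
  obtain ⟨φ', hφ'⟩ : ∃ φ' : ∀ i, Xb m i → ℝ, φ' = md φ (fun i => -t i) (fun _ => 0) 0 := ⟨_, rfl⟩
  have h' : Fam φ' R := by
    rw [hφ']
    exact h.md _ _ _ le_rfl
  have e1 : ∀ x (z : Fc P), rh P φ' x z = rh P φ x z * ENNReal.ofReal (Real.exp (-(θ z))) := by
    intro x z
    rw [hφ', rh_md P h, zero_mul, sub_zero]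
    simp only [inner_neg_left, Finset.sum_neg_distrib]
    rw [ht x z]
  have e2 : ∀ z, hh volume (rh P φ') z = hh volume (rh P φ) z *
      ENNReal.ofReal (Real.exp (-(θ z))) := by
    intro z
    unfold hh
    simp only [e1]
    rw [lintegral_mul_const]
    exact (rh_meas P h).comp (measurable_id.prodMk measurable_const)
  have e3 : hh volume (rh P φ') 0 = hh volume (rh P φ) 0 := by
    rw [e2, map_zero, neg_zero, Real.exp_zero, ENNReal.ofReal_one, mul_one]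
  have e4 : ∀ x, rh P φ' x 0 = ENNReal.ofReal (dn P φ x) := by
    intro x
    rw [e1, map_zero, neg_zero, Real.exp_zero, ENNReal.ofReal_one, mul_one, rh_zero h]
  have hmode : ∀ z, hh volume (rh P φ') z ≤ hh volume (rh P φ') 0 := by
    intro z
    rw [e2, e3]
    refine (mul_le_mul' (hθ z) le_rfl).trans (le_of_eq ?_)
    rw [mul_assoc, ← ENNReal.ofReal_mul (Real.exp_pos _).le, ← Real.exp_add, add_neg_cancel,
      Real.exp_zero, ENNReal.ofReal_one, mul_one]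
  have hh0 : hh volume (rh P φ') 0 ≠ 0 := by
    rw [e3]
    have := hlow 0 (by rw [norm_zero]; exact hr)
    intro h0
    unfold hh at h0
    rw [h0] at this
    exact absurd this (not_le.2 (ENNReal.ofReal_pos.2 hδ))
  have hh1 : hh volume (rh P φ') 0 ≠ ∞ := by
    rw [e3]
    exact ((hC' 0).trans_lt (lt_top_iff_ne_top.2 hC)).ne
  -- the measure on the complement
  obtain ⟨ν, hν⟩ : ∃ ν : Measure (Fc P), ν.IsAddHaarMeasure := ⟨Measure.addHaar, inferInstance⟩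
  obtain ⟨c, hc0, hc1, hcov⟩ := cov hP ν
  -- block integrals
  have hM : ∀ i, 0 < ∫ s, φ' i s := fun i => h'.ipos i
  let mm : ι → ℝ := fun i => (∫ s, ⟪P i w, s⟫_ℝ * φ' i s) / ∫ s, φ' i s
  let ψ : ∀ i, Xb m i → ℝ := fun i s => ⟪P i w, s⟫_ℝ - mm i
  have hψc : ∀ i, Continuous (ψ i) := fun i => by
    simp only [ψ]
    fun_prop
  have hz : ∀ i, ∫ s, ψ i s * φ' i s = 0 := by
    intro i
    have i1 := h'.int i (fun s => ⟪P i w, s⟫_ℝ) (by fun_prop)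
    have i2 := (h'.int0 i).const_mul (mm i)
    have : ∀ s, ψ i s * φ' i s = ⟪P i w, s⟫_ℝ * φ' i s - mm i * φ' i s := fun s => by
      simp only [ψ]; ring
    simp only [this]
    rw [integral_sub i1 i2, integral_const_mul]
    simp only [mm]
    rw [div_mul_cancel₀ _ (hM i).ne', sub_self]
  have ha : ∀ i, ∫ s, ψ i s ^ 2 * φ' i s ≤ (R ^ 2 * ‖P i w‖ ^ 2) * ∫ s, φ' i s := by
    intro i
    have i1 := h'.int i (fun s => ⟪P i w, s⟫_ℝ) (by fun_prop)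
    have i2 := h'.int i (fun s => ⟪P i w, s⟫_ℝ ^ 2) (by fun_prop)
    have i3 := h'.int i (fun s => ψ i s ^ 2) ((hψc i).pow 2)
    have e5 : ∀ s, ψ i s ^ 2 * φ' i s = ⟪P i w, s⟫_ℝ ^ 2 * φ' i s -
        2 * mm i * (⟪P i w, s⟫_ℝ * φ' i s) + mm i ^ 2 * φ' i s := fun s => by
      simp only [ψ]; ring
    have e6 : ∫ s, ⟪P i w, s⟫_ℝ * φ' i s = mm i * ∫ s, φ' i s := by
      simp only [mm]
      rw [div_mul_cancel₀ _ (hM i).ne']
    have e7 : ∫ s, ψ i s ^ 2 * φ' i s ≤ ∫ s, ⟪P i w, s⟫_ℝ ^ 2 * φ' i s := by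
      have i4 : Integrable (fun s => ⟪P i w, s⟫_ℝ ^ 2 * φ' i s -
          2 * mm i * (⟪P i w, s⟫_ℝ * φ' i s)) := i2.sub (i1.const_mul _)
      simp only [e5]
      rw [integral_add i4 ((h'.int0 i).const_mul _),
        integral_sub i2 (i1.const_mul _), integral_const_mul, integral_const_mul, e6]
      nlinarith [mul_nonneg (sq_nonneg (mm i)) (hM i).le]
    refine e7.trans ?_
    rw [← integral_const_mul]
    refine integral_mono i2 ((h'.int0 i).const_mul _) fun s => ?_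
    rcases le_or_gt ‖s‖ R with hs | hs
    · refine mul_le_mul_of_nonneg_right ?_ (h'.nonneg i s)
      have h1 : |⟪P i w, s⟫_ℝ| ≤ ‖P i w‖ * ‖s‖ := abs_real_inner_le_norm _ _
      have h2 : |⟪P i w, s⟫_ℝ| ≤ ‖P i w‖ * R :=
        h1.trans (mul_le_mul_of_nonneg_left hs (norm_nonneg _))
      have h3 := pow_le_pow_left₀ (abs_nonneg _) h2 2
      rw [sq_abs] at h3
      calc _ ≤ _ := h3
        _ = _ := by ring
    · simp only
      rw [h'.supp i s hs, mul_zero, mul_zero]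
  have hup := base_upper (fun i => (volume : Measure (Xb m i))) φ' ψ h'.nonneg h'.int0
    (fun i => h'.int i _ (hψc i)) (fun i => h'.int i _ ((hψc i).pow 2)) hz _ ha
  have hmass := base_mass (fun i => (volume : Measure (Xb m i))) φ' h'.nonneg h'.int0
  have hsum : ∑ i, R ^ 2 * ‖P i w‖ ^ 2 = R ^ 2 * ‖w‖ ^ 2 := by
    rw [← Finset.mul_sum, hP w]
  rw [hsum] at hup
  have hPp : 0 < ∏ i, ∫ s, φ' i s := Finset.prod_pos fun i _ => hM i
  -- total mass in the coordinates (x, z)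
  have hm1 : Measurable fun s : ∀ i, Xb m i => ∏ i, ENNReal.ofReal (φ' i (s i)) :=
    Finset.measurable_prod _ fun i _ => ENNReal.measurable_ofReal.comp
      ((h'.meas i).comp (measurable_pi_apply i))
  have hm2 : Measurable fun s : ∀ i, Xb m i => ENNReal.ofReal ((∑ i, ψ i (s i)) ^ 2) :=
    ENNReal.measurable_ofReal.comp ((Finset.measurable_sum _ fun i _ =>
      (hψc i).measurable.comp (measurable_pi_apply i)).pow_const 2)
  have hA : ∫⁻ z, hh volume (rh P φ') z ∂ν = c * ENNReal.ofReal (∏ i, ∫ s, φ' i s) := by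
    rw [← hmass, ← hcov _ hm1]
    refine lintegral_congr fun z => lintegral_congr fun x => ?_
    unfold rh
    refine Finset.prod_congr rfl fun i _ => ?_
    rw [Psi_apply]
  have hB : ∫⁻ z, WW volume (innerSL ℝ w) (∑ i, mm i) (rh P φ') z ∂ν ≤
      ENNReal.ofReal (R ^ 2 * ‖w‖ ^ 2) * ∫⁻ z, hh volume (rh P φ') z ∂ν := by
    have e8 : ∫⁻ z, WW volume (innerSL ℝ w) (∑ i, mm i) (rh P φ') z ∂ν =
        c * ∫⁻ s : ∀ i, Xb m i, ENNReal.ofReal ((∑ i, ψ i (s i)) ^ 2) *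
          ∏ k, ENNReal.ofReal (φ' k (s k)) ∂(Measure.pi fun i => (volume : Measure (Xb m i))) := by
      have hm3 : Measurable fun s : ∀ i, Xb m i => ENNReal.ofReal ((∑ i, ψ i (s i)) ^ 2) *
          ∏ k, ENNReal.ofReal (φ' k (s k)) := hm2.mul hm1
      rw [← hcov _ hm3]
      refine lintegral_congr fun z => lintegral_congr fun x => ?_
      have e9 : (∑ i, ψ i (Psi hP (x, z) i)) = innerSL ℝ w x - ∑ i, mm i := by
        simp only [ψ, Psi_apply, Finset.sum_sub_distrib, inner_add_right, Finset.sum_add_distrib]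
        rw [pars_inner hP]
        have : ∑ i, ⟪P i w, (z : ∀ i, Xb m i) i⟫_ℝ = 0 := by
          rw [← Fc_mem z w]
          exact Finset.sum_congr rfl fun i _ => real_inner_comm _ _
        rw [this, add_zero, innerSL_apply_apply]
      rw [e9]
      unfold rh
      refine congrArg₂ _ rfl (Finset.prod_congr rfl fun i _ => ?_)
      rw [Psi_apply]
    rw [e8, hA, ← mul_assoc, mul_comm (ENNReal.ofReal (R ^ 2 * ‖w‖ ^ 2)) c, mul_assoc,
      ← ENNReal.ofReal_mul (by positivity)]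
    exact mul_le_mul' le_rfl hup
  have hA0 : ∫⁻ z, hh volume (rh P φ') z ∂ν ≠ 0 := by
    rw [hA]
    exact mul_ne_zero hc0 (ENNReal.ofReal_pos.2 hPp).ne'
  have hA1 : ∫⁻ z, hh volume (rh P φ') z ∂ν ≠ ∞ := by
    rw [hA]
    exact ENNReal.mul_ne_top hc1 ENNReal.ofReal_ne_top
  have ht0 : (0 : ℝ) < ((q : ℝ) + 1) / ((q : ℝ) + 2) := by positivity
  have ht1 : ((q : ℝ) + 1) / ((q : ℝ) + 2) < 1 := by
    rw [div_lt_one (by positivity)]; linarith
  obtain ⟨c', hc'⟩ := upper volume ν (innerSL ℝ w) (rh P φ') (rh_meas P h') (rh_lce P h')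
    (((q : ℝ) + 1) / ((q : ℝ) + 2)) ht0 ht1 (fun _ => ∑ i, mm i) measurable_const hmode hh0 hh1
    hA0 hA1 _ hB
  refine ⟨c', ?_⟩
  have e10 : hh volume (rh P φ') 0 = ∫⁻ x, ENNReal.ofReal (dn P φ x) := by
    unfold hh
    simp only [e4]
  have e11 : WW volume (innerSL ℝ w) c' (rh P φ') 0 =
      ∫⁻ x, ENNReal.ofReal ((⟪w, x⟫_ℝ - c') ^ 2) * ENNReal.ofReal (dn P φ x) := by
    unfold WW
    simp only [e4, innerSL_apply_apply]
  rw [e10, e11, ← hq] at hc'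
  refine hc'.trans (mul_le_mul' ?_ le_rfl)
  rw [← hq, num4]
  have h8 : (8 : ℝ≥0∞) = ENNReal.ofReal 8 := by norm_num
  have h9 : (((((q : ℝ) + 1) / ((q : ℝ) + 2))⁻¹) ^ q) ^ 2 ≤ 8 := by
    have h10 : (0 : ℝ) ≤ ((((q : ℝ) + 1) / ((q : ℝ) + 2))⁻¹) ^ q := by positivity
    have h11 := (num3 q).trans exp1_le
    nlinarith
  rw [h8, ← ENNReal.ofReal_mul (by positivity), ← ENNReal.ofReal_mul (by positivity),
    ← ENNReal.ofReal_mul (by positivity)]
  refine ENNReal.ofReal_le_ofReal ?_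
  calc 8 * (((q : ℝ) + 2) ^ 2 * (((((q : ℝ) + 1) / ((q : ℝ) + 2))⁻¹) ^ q) ^ 2 *
        (R ^ 2 * ‖w‖ ^ 2)) ≤ 8 * (((q : ℝ) + 2) ^ 2 * 8 * (R ^ 2 * ‖w‖ ^ 2)) := by gcongr
    _ = _ := by ring

end Pool.Agent.Y506.KS
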